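import Pool.Agent.V11237.LP.One

set_option autoImplicit false

/-!
# Integers without small prime factors in all short intervals: the gap laws
-/

namespace Pool.Agent.V11237.LP.Short

open Finset Filter

/-- No prime `p ≤ N ^ (1 / r)` divides `m`. -/
def Good (N r m : ℕ) : Prop :=
  ∀ p : ℕ, p.Prime → (p : ℝ) ≤ (N : ℝ) ^ (1 / (r : ℝ)) → ¬ p ∣ m

open Classical in
/-- The number of the good `m` in `(u, u + Y]` with fewer than `l` good integers in `[m - T, m)`. -/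
noncomputable def G (N r l T u Y : ℕ) : ℕ :=
  ((Ioc u (u + Y)).filter (fun m => Good N r m ∧
    ((Ico (m - T) m).filter (fun t => Good N r t)).card < l)).card

/-- The product of `1 - 1 / p` over the primes `p ≤ N ^ (1 / r)`. -/
noncomputable def U (N r : ℕ) : ℝ :=
  ∏ p ∈ (Icc 1 ⌊(N : ℝ) ^ (1 / (r : ℝ))⌋₊).filter Nat.Prime, (1 - 1 / (p : ℝ))

lemma good_iff (N r m : ℕ) : One.Good 1 0 N r m ↔ Good N r m := by
  unfold One.Good Good
  rw [one_mul, add_zero]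

lemma G_eq (N r l T u Y : ℕ) : One.G 1 0 N r l T u Y = G N r l T u Y := by
  classical
  unfold One.G G
  congr 1
  ext n
  simp only [mem_filter, good_iff]

lemma V_eq (N r : ℕ) : One.V 1 N r = U N r := by
  unfold One.V U
  apply Finset.prod_congr _ (fun _ _ => rfl)
  ext p
  simp only [mem_filter]
  constructor
  · rintro ⟨h1, h2, _⟩
    exact ⟨h1, h2⟩
  · rintro ⟨h1, h2⟩
    exact ⟨h1, h2, fun h => h2.one_lt.ne' (Nat.dvd_one.1 h)⟩

/-- few prime factors -/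
lemma few {N r m c : ℕ} (hr : 1 ≤ r) (hN : 2 ≤ N) (hm0 : m ≠ 0) (hm : m ≤ N ^ c) (hg : Good N r m) :
    m.primeFactorsList.length ≤ c * r := by
  have hr0 : (0 : ℝ) < r := by exact_mod_cast hr
  have hN2 : (2 : ℝ) ≤ N := by exact_mod_cast hN
  have hN0 : (0 : ℝ) < N := by linarith
  have hpow : ((N : ℝ) ^ (1 / (r : ℝ))) ^ r = N := by
    rw [← Real.rpow_natCast, ← Real.rpow_mul hN0.le, one_div, inv_mul_cancel₀ hr0.ne', Real.rpow_one]
  apply Pool.Agent.Y879.GL.few_of_rough ((N : ℝ) ^ (1 / (r : ℝ)))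
    (Real.one_lt_rpow (by linarith) (by positivity)) _ _ hm0
  · rw [mul_comm c r, pow_mul, hpow]
    exact_mod_cast hm
  · intro q hq hqd
    by_contra hcon
    rw [not_lt] at hcon
    exact hg q hq hcon hqd

/-- **The gap laws in all intervals of length at least `N ^ θ`.** -/
theorem gaps (θ : ℝ) (hθ : 0 < θ) (l₀ : ℕ) (x₀ ε : ℝ) (hε : 0 < ε) :
    ∃ r₀ : ℕ, 2 ≤ r₀ ∧ ∀ r : ℕ, r₀ ≤ r → ∃ N₀ : ℕ, ∀ N : ℕ, N₀ ≤ N →
      ∀ u Y : ℕ, (N : ℝ) ^ θ ≤ Y → ∀ l T : ℕ, (l ≤ l₀ ∨ T * U N r ≤ x₀) →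
        |(G N r l T u Y : ℝ) - Y * U N r *
          ∑ j ∈ range l, Real.exp (-(T * U N r)) * (T * U N r) ^ j / j.factorial| ≤
        ε * (Y * U N r) := by
  obtain ⟨r0, hr0, h0⟩ := One.gaps 1 θ one_pos hθ l₀ x₀ ε hε
  refine ⟨r0, hr0, ?_⟩
  intro r hr
  obtain ⟨N0, hN0⟩ := h0 r hr 1
  refine ⟨max N0 1, ?_⟩
  intro N hN u Y hY l T hT
  have hN1 : (1 : ℝ) ≤ N := by exact_mod_cast (le_max_right _ _).trans hN
  have key := hN0 N ((le_max_left _ _).trans hN) 1 0 le_rfl (by simpa using hN1) (by simp)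
    (Nat.coprime_one_left _) (by simp) u Y hY l T (by rw [V_eq]; exact hT)
  rw [G_eq, V_eq] at key
  exact key

end Pool.Agent.V11237.LP.Short
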