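import Pool.Agent.V11237.LP.PolyPair
import Pool.Agent.Y879.GL.QuadU

set_option autoImplicit false

/-!
# Primes `q` with `f(q)` almost prime, for functions `f : ℕ → ℤ` given by an integer polynomial
-/

namespace Pool.Agent.V11237.LP.IntPair

open Polynomial Finset Filter

/-- No prime `p ≤ N ^ (1 / r)` divides `m` or `f m`. -/
def Good (f : ℕ → ℤ) (N r m : ℕ) : Prop :=
  ∀ p : ℕ, p.Prime → (p : ℝ) ≤ (N : ℝ) ^ (1 / (r : ℝ)) → ¬ p ∣ m ∧ ¬ (p : ℤ) ∣ f m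

open Classical in
/-- The good PRIMES in `(u, u + Y]`. -/
noncomputable def P (f : ℕ → ℤ) (N r u Y : ℕ) : Finset ℕ :=
  (Ioc u (u + Y)).filter (fun q => q.Prime ∧ Good f N r q)

open Classical in
/-- The number of the good integers in `(q, q + T]`. -/
noncomputable def Next (f : ℕ → ℤ) (N r T q : ℕ) : ℕ :=
  ((Ioc q (q + T)).filter (fun m => Good f N r m)).card

open Classical in
/-- The density of the good integers: the product over the primes `p ≤ N ^ (1 / r)` of `1 - ν(p) / p`,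
with `ν(p)` the number of the residues `m` modulo `p` for which `p` divides `m` or `f m`. -/
noncomputable def V (f : ℕ → ℤ) (N r : ℕ) : ℝ :=
  ∏ p ∈ (Icc 1 ⌊(N : ℝ) ^ (1 / (r : ℝ))⌋₊).filter Nat.Prime,
    (1 - (((range p).filter (fun m : ℕ => p ∣ m ∨ (p : ℤ) ∣ f m)).card : ℝ) / p)

/-- The product of `1 - 1 / p` over the primes `p ≤ N ^ (1 / r)`. -/
noncomputable def U (N r : ℕ) : ℝ :=
  ∏ p ∈ (Icc 1 ⌊(N : ℝ) ^ (1 / (r : ℝ))⌋₊).filter Nat.Prime, (1 - 1 / (p : ℝ))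

variable {f : ℕ → ℤ} {F : ℤ[X]}

lemma good_eq (h : ∀ m : ℕ, F.eval (m : ℤ) = f m) (N r m : ℕ) :
    PolyPair.Good F N r m ↔ Good f N r m := by
  unfold PolyPair.Good Good
  simp only [h]

lemma P_eq (h : ∀ m : ℕ, F.eval (m : ℤ) = f m) (N r u Y : ℕ) :
    PolyPair.P F N r u Y = P f N r u Y := by
  classical
  unfold PolyPair.P P
  ext q
  simp only [mem_filter, good_eq h]

lemma Next_eq (h : ∀ m : ℕ, F.eval (m : ℤ) = f m) (N r T q : ℕ) :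
    PolyPair.Next F N r T q = Next f N r T q := by
  classical
  unfold PolyPair.Next Next
  congr 1
  ext m
  simp only [mem_filter, good_eq h]

lemma V_eq (h : ∀ m : ℕ, F.eval (m : ℤ) = f m) (N r : ℕ) : PolyPair.V F N r = V f N r := by
  classical
  unfold PolyPair.V V
  simp only [h]

lemma U_eq (N r : ℕ) : PolyPair.U N r = U N r := rfl

/-- The conclusion for one function. -/
def Law (D E : ℕ) (θ δ x₀ ε : ℝ) (r N : ℕ) (f : ℕ → ℤ) : Prop :=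
  (∀ m : ℕ, m ≤ N → Good f N r m → (f m).natAbs.primeFactorsList.length ≤ (D + E + 1) * r) ∧
  0 < V f N r ∧
  ∀ Y' : ℕ, (N : ℝ) ^ θ ≤ Y' → ∀ u Y : ℕ, δ * Y' ≤ Y → u + Y ≤ Y' →
    |((P f N r u Y).card : ℝ) * Real.log Y' - Y * (V f N r / U N r)| ≤
      ε * (Y * (V f N r / U N r)) ∧
    ∀ T : ℕ, T * V f N r ≤ x₀ → ∀ S : Finset ℕ,
    |(((P f N r u Y).filter (fun q => Next f N r T q ∈ S)).card : ℝ) -
      (P f N r u Y).card *
        ∑ j ∈ S, Real.exp (-(T * V f N r)) * (T * V f N r) ^ j / j.factorial| ≤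
      ε * (P f N r u Y).card

theorem law (D E : ℕ) (hD : 1 ≤ D) (hE : 1 ≤ E) (θ δ : ℝ) (hθ : 0 < θ) (hδ : 0 < δ)
    (hδ1 : δ ≤ 1) (x₀ ε : ℝ) (hε : 0 < ε) (hε1 : ε ≤ 1) :
    ∃ r₀ : ℕ, 2 ≤ r₀ ∧ ∀ r : ℕ, r₀ ≤ r → ∃ N₀ : ℕ, ∀ N : ℕ, N₀ ≤ N → ∀ (f : ℕ → ℤ) (F : ℤ[X]),
      (∀ m : ℕ, F.eval (m : ℤ) = f m) → PolyPair.Adm D ((N : ℝ) ^ E) F →
      Law D E θ δ x₀ ε r N f := by
  obtain ⟨r0, hr0, h0⟩ := PolyPair.law D E hD hE θ δ hθ hδ hδ1 x₀ ε hε hε1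
  refine ⟨r0, hr0, ?_⟩
  intro r hr
  obtain ⟨N0, hN0⟩ := h0 r hr
  refine ⟨N0, ?_⟩
  intro N hN f F hf hF
  have h := hN0 N hN F hF
  have e1 : ∀ q, (fun T => PolyPair.Next F N r T q) = fun T => Next f N r T q := by
    intro q
    funext T
    exact Next_eq hf N r T q
  unfold Law
  simp only [good_eq hf, P_eq hf, V_eq hf, U_eq, Next_eq hf, hf] at h
  exact h

/-- quadratic polynomials -/
lemma adm_quad (a b c : ℤ) (ha : a ≠ 0)
    (hg : ∀ p : ℕ, p.Prime → ¬ ((p : ℤ) ∣ a ∧ (p : ℤ) ∣ b ∧ (p : ℤ) ∣ c))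
    (hD : ¬ IsSquare (b ^ 2 - 4 * a * c)) (H : ℤ) (ha' : |a| ≤ H) (hb' : |b| ≤ H) (hc' : |c| ≤ H)
    (hadm : ∀ p : ℕ, p.Prime → ∃ m : ℕ, ¬ p ∣ m ∧ ¬ (p : ℤ) ∣ a * (m : ℤ) ^ 2 + b * m + c) :
    PolyPair.Adm 2 (H : ℝ) (Pool.Agent.TH464.PW.quad a b c) where
  irr := Pool.Agent.TH464.PW.quad_irr a b c ha hg hD
  two := by rw [Pool.Agent.TH464.PW.quad_deg a b c ha]
  deg := by rw [Pool.Agent.TH464.PW.quad_deg a b c ha]
  hgt n := by exact_mod_cast Pool.Agent.Y879.GL.quad_coeff a b c n H ha' hb' hc'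
  adm p hp := by
    obtain ⟨m, h1, h2⟩ := hadm p hp
    refine ⟨m, h1, ?_⟩
    rw [Pool.Agent.TH464.PW.quad_eval]
    exact h2

end Pool.Agent.V11237.LP.IntPair
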