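import Pool.Agent.Y879.PR.Pat

set_option autoImplicit false

/-!
# Windows all of whose sieve-admissible places are almost prime, one of them prime
-/

namespace Pool.Agent.V11237.LP.Window

open Finset Filter

/-- `n` has no prime factor `p ≤ N ^ (1 / r)`. -/
def Rough (N r n : ℕ) : Prop :=
  ∀ p : ℕ, p.Prime → (p : ℝ) ≤ (N : ℝ) ^ (1 / (r : ℝ)) → ¬ p ∣ n

open Classical in
/-- The number of the integers in `(w, w + k]` without prime factor `p ≤ N ^ (1 / r)`. -/
noncomputable def R (N r k w : ℕ) : ℕ := ((Ioc w (w + k)).filter (fun n => Rough N r n)).card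

open Classical in
/-- The integers in `(m, m + k]` without prime factor `p ≤ k`. -/
noncomputable def places (k m : ℕ) : Finset ℕ :=
  (Ioc m (m + k)).filter (fun n => ∀ p : ℕ, p.Prime → p ≤ k → ¬ p ∣ n)

/-- Their number. -/
noncomputable def h (k m : ℕ) : ℕ := (places k m).card

open Classical in
/-- The `x` in `(u, u + Y]` for which the integer `M x + n` is PRIME, `M` the product of the primes up
to `k`, and the number of the integers without prime factor `p ≤ N ^ (1 / r)` in the window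
`(M x + m, M x + m + k]` is `h k m`. -/
noncomputable def W (k m n N r u Y : ℕ) : Finset ℕ :=
  (Ioc u (u + Y)).filter (fun x => (primorial k * x + n).Prime ∧ R N r k (primorial k * x + m) = h k m)

open Classical in
/-- The number of the `l` in `(x, x + T]` for which the number of the integers without prime factor
`p ≤ N ^ (1 / r)` in the window `(M l + m, M l + m + k]` is `h k m`. -/
noncomputable def Next (k m N r T x : ℕ) : ℕ :=
  ((Ioc x (x + T)).filter (fun l => R N r k (primorial k * l + m) = h k m)).card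

/-- The product of `1 - a / p` over the primes `k < p ≤ N ^ (1 / r)`. -/
noncomputable def V (k a N r : ℕ) : ℝ :=
  ∏ p ∈ (Ioc k ⌊(N : ℝ) ^ (1 / (r : ℝ))⌋₊).filter Nat.Prime, (1 - (a : ℝ) / p)

/-- The product of `1 - 1 / p` over the primes `p ≤ N ^ (1 / r)`. -/
noncomputable def U (N r : ℕ) : ℝ :=
  ∏ p ∈ (Icc 1 ⌊(N : ℝ) ^ (1 / (r : ℝ))⌋₊).filter Nat.Prime, (1 - 1 / (p : ℝ))

open Pool.Agent.TH464.PO Pool.Agent.TH464.PW Pool.Agent.W123.RU.Poly Pool.Agent.W123.RP
open Pool.Agent.H373R2.T7 Pool.Agent.Y879.GL Pool.Agent.Y879.PR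

lemma mem_places {k m n : ℕ} : n ∈ places k m ↔ (m < n ∧ n ≤ m + k) ∧
    ∀ p : ℕ, p.Prime → p ≤ k → ¬ p ∣ n := by
  classical
  unfold places
  rw [mem_filter, mem_Ioc]

lemma dvd_primorial {p k : ℕ} (hp : p.Prime) : p ∣ primorial k ↔ p ≤ k := by
  constructor
  · intro hd
    unfold primorial at hd
    obtain ⟨q, hq, hpq⟩ := (hp.prime.dvd_finsetProd_iff _).1 hd
    rw [mem_filter, mem_range] at hq
    rw [(Nat.prime_dvd_prime_iff_eq hp hq.2).1 hpq]
    omega
  · intro hle
    unfold primorial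
    exact Finset.dvd_prod_of_mem _ (mem_filter.2 ⟨mem_range.2 (by omega), hp⟩)

lemma sq_primorial (k : ℕ) : Squarefree (primorial k) := by
  unfold primorial
  apply Finset.squarefree_prod_of_pairwise_isCoprime
  · intro p hp q hq hpq
    have h1 := (mem_filter.1 (Finset.mem_coe.1 hp)).2
    have h2 := (mem_filter.1 (Finset.mem_coe.1 hq)).2
    exact Nat.coprime_iff_isRelPrime.1 ((Nat.coprime_primes h1 h2).2 hpq)
  · intro p hp
    exact (mem_filter.1 hp).2.prime.squarefree

lemma le_primorial : ∀ k : ℕ, 1 ≤ k → k ≤ primorial k := by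
  intro k
  induction k using Nat.strong_induction_on with
  | _ k ih =>
    intro hk
    by_cases h4 : k < 6
    · interval_cases k <;> decide
    · push Not at h4
      obtain ⟨p, hp, hp1, hp2⟩ := Nat.exists_prime_lt_and_le_two_mul (k / 2) (by omega)
      have h1 := ih (k / 2) (by omega) (by omega)
      have hpk : p ≤ k := by omega
      have h2 : p * primorial (k / 2) ∣ primorial k := by
        apply Nat.Coprime.mul_dvd_of_dvd_of_dvd
        · rw [Nat.Prime.coprime_iff_not_dvd hp, dvd_primorial hp]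
          omega
        · exact (dvd_primorial hp).2 hpk
        · unfold primorial
          apply Finset.prod_dvd_prod_of_subset
          intro q hq
          rw [mem_filter, mem_range] at hq ⊢
          exact ⟨by omega, hq.2⟩
      have h3 := Nat.le_of_dvd (primorial_pos k) h2
      have h5 : p * (k / 2) ≤ p * primorial (k / 2) := Nat.mul_le_mul_left p h1
      have h6 : 4 * (k / 2) ≤ p * (k / 2) := Nat.mul_le_mul_right _ (by omega)
      omega

lemma R_le (N r k w : ℕ) (hk : (k : ℝ) ≤ (N : ℝ) ^ (1 / (r : ℝ))) : R N r k w ≤ h k w := by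
  classical
  unfold R h
  apply card_le_card
  intro n hn
  rw [mem_filter, mem_Ioc] at hn
  rw [mem_places]
  refine ⟨hn.1, fun p hp hpk => hn.2 p hp ?_⟩
  exact (by exact_mod_cast hpk : (p : ℝ) ≤ k).trans hk

lemma not_dvd_shift (k x n p : ℕ) (hp : p.Prime) (hpk : p ≤ k) :
    ¬ p ∣ primorial k * x + n ↔ ¬ p ∣ n := by
  have h1 : p ∣ primorial k * x := ((dvd_primorial hp).2 hpk).mul_right x
  rw [Nat.dvd_add_right h1]

lemma R_eq (N r k m x : ℕ) (hk : (k : ℝ) ≤ (N : ℝ) ^ (1 / (r : ℝ))) :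
    R N r k (primorial k * x + m) = h k m ↔ ∀ n ∈ places k m, Rough N r (primorial k * x + n) := by
  classical
  have h1 : R N r k (primorial k * x + m) =
      ((places k m).filter (fun n => Rough N r (primorial k * x + n))).card := by
    unfold R
    symm
    apply Finset.card_bij (fun n _ => primorial k * x + n)
    · intro n hn
      rw [mem_filter, mem_places] at hn
      rw [mem_filter, mem_Ioc]
      exact ⟨by omega, hn.2⟩
    · intro a _ b _ hab
      simpa using hab
    · intro v hv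
      rw [mem_filter, mem_Ioc] at hv
      refine ⟨v - primorial k * x, ?_, by omega⟩
      have e : primorial k * x + (v - primorial k * x) = v := by omega
      rw [mem_filter, mem_places, e]
      refine ⟨⟨by omega, fun p hp hpk => ?_⟩, hv.2⟩
      rw [← not_dvd_shift k x _ p hp hpk, e]
      exact hv.2 p hp ((by exact_mod_cast hpk : (p : ℝ) ≤ k).trans hk)
  rw [h1]
  unfold h
  rw [Finset.card_filter_eq_iff]

/-- **Full windows.** For every window `(m, m + k]` and every `n` in it without prime factor `≤ k`: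
the number of the `x` in `(u, u + Y]` for which `M x + n` is prime and all the places of the window
`(M x + m, M x + m + k]` which the primes up to `k` leave free are taken by integers without prime
factor `≤ N ^ (1 / r)`, and the Poisson law of the next such windows. -/
theorem full (k m : ℕ) (hk : 1 ≤ k) (θ δ : ℝ) (hθ : 0 < θ) (hδ : 0 < δ) (hδ1 : δ ≤ 1) (x₀ ε : ℝ)
    (hε : 0 < ε) (hε1 : ε ≤ 1) :
    ∃ r₀ : ℕ, 2 ≤ r₀ ∧ ∀ r : ℕ, r₀ ≤ r → ∃ N₀ : ℕ, ∀ N : ℕ, N₀ ≤ N →
      (k : ℝ) ≤ (N : ℝ) ^ (1 / (r : ℝ)) ∧ 0 < V k (h k m) N r ∧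
      ∀ n ∈ places k m, ∀ X : ℕ, (N : ℝ) ^ θ ≤ X → ∀ u Y : ℕ, δ * X ≤ Y → u + Y ≤ X →
        |((W k m n N r u Y).card : ℝ) * Real.log X - Y * (V k (h k m) N r / U N r)| ≤
          ε * (Y * (V k (h k m) N r / U N r)) ∧
        ∀ T : ℕ, T * V k (h k m) N r ≤ x₀ → ∀ S : Finset ℕ,
        |(((W k m n N r u Y).filter (fun x => Next k m N r T x ∈ S)).card : ℝ) -
          (W k m n N r u Y).card *
            ∑ j ∈ S, Real.exp (-(T * V k (h k m) N r)) * (T * V k (h k m) N r) ^ j / j.factorial| ≤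
          ε * (W k m n N r u Y).card := by
  classical
  have hM := primorial_pos k
  have hkM := le_primorial k hk
  have hcardk : h k m ≤ k := by
    have h1 : (Ioc m (m + k)).card = k := by rw [Nat.card_Ioc]; omega
    have h2 : h k m ≤ (Ioc m (m + k)).card := by
      unfold h places
      exact card_filter_le _ _
    omega
  -- V is positive as soon as it is defined
  have hVpos : ∀ N r : ℕ, 0 < V k (h k m) N r := by
    intro N r
    unfold V
    apply Finset.prod_pos
    intro p hp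
    rw [mem_filter, mem_Ioc] at hp
    have h1 : ((h k m : ℕ) : ℝ) < p := by exact_mod_cast (by omega : h k m < p)
    have h2 : (0 : ℝ) < p := lt_of_le_of_lt (Nat.cast_nonneg _) h1
    rw [sub_pos, div_lt_one h2]
    exact h1
  have hkN : ∀ r : ℕ, 2 ≤ r → ∃ N₁ : ℕ, ∀ N : ℕ, N₁ ≤ N → (k : ℝ) ≤ (N : ℝ) ^ (1 / (r : ℝ)) := by
    intro r hr
    have hr0 : (0 : ℝ) < r := by exact_mod_cast (by omega : 0 < r)
    exact eventually_atTop.1 (((tendsto_rpow_atTop (by positivity)).comp
      tendsto_natCast_atTop_atTop).eventually_ge_atTop _)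
  by_cases hpos : 0 < h k m
  swap
  · refine ⟨2, le_rfl, fun r hr => ?_⟩
    obtain ⟨N1, hN1⟩ := hkN r hr
    refine ⟨N1, fun N hN => ⟨hN1 N hN, hVpos N r, ?_⟩⟩
    intro n hn
    exact absurd (Finset.card_pos.2 ⟨n, hn⟩) hpos
  -- the tuple
  obtain ⟨B, hB⟩ : ∃ B : Fin (h k m) → ℕ, B = fun i => (places k m).orderEmbOfFin rfl i := ⟨_, rfl⟩
  have hBmem : ∀ i, B i ∈ places k m := by
    intro i
    rw [hB]
    exact Finset.orderEmbOfFin_mem _ rfl i
  have hBinj : Function.Injective B := by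
    rw [hB]
    exact ((places k m).orderEmbOfFin rfl).injective
  have hBsurj : ∀ n ∈ places k m, ∃ i, B i = n := by
    intro n hn
    have h1 := Finset.range_orderEmbOfFin (places k m) rfl
    have h2 : n ∈ Set.range ((places k m).orderEmbOfFin rfl) := by
      rw [h1]
      exact_mod_cast hn
    obtain ⟨i, hi⟩ := h2
    exact ⟨i, by rw [hB]; exact hi⟩
  have hB1 : ∀ i, m < B i ∧ B i ≤ m + k := fun i => (mem_places.1 (hBmem i)).1
  have hB2 : ∀ i, ∀ p : ℕ, p.Prime → p ≤ k → ¬ p ∣ B i := fun i => (mem_places.1 (hBmem i)).2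
  have hT : Tup (primorial k) B := by
    refine ⟨sq_primorial k, ?_, ?_, hBinj, ?_, hpos⟩
    · intro i
      apply Nat.Coprime.symm
      apply Nat.coprime_of_dvd
      intro p hp hpB hpM
      exact hB2 i p hp ((dvd_primorial hp).1 hpM) hpB
    · intro p hp hpk
      exact (dvd_primorial hp).2 (hpk.trans hcardk)
    · intro i j
      have h1 := hB1 i
      have h2 := hB1 j
      omega
  have hVq : ∀ N r : ℕ, (k : ℝ) ≤ (N : ℝ) ^ (1 / (r : ℝ)) →
      Vq (Q (tf (primorial k) B)) ⌊(N : ℝ) ^ (1 / (r : ℝ))⌋₊ = V k (h k m) N r := by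
    intro N r hkz
    unfold Vq V
    have hz : k ≤ ⌊(N : ℝ) ^ (1 / (r : ℝ))⌋₊ := Nat.le_floor hkz
    symm
    apply Finset.prod_subset_one_on_sdiff
    · intro p hp
      rw [mem_filter, mem_Ioc] at hp
      exact mem_pz.2 ⟨hp.1.2, hp.2⟩
    · intro p hp
      rw [Finset.mem_sdiff, mem_filter, mem_Ioc] at hp
      obtain ⟨h1, h2⟩ := mem_pz.1 hp.1
      have h3 : p ≤ k := by
        by_contra hcon
        exact hp.2 ⟨⟨by omega, h1⟩, h2⟩
      rw [hT.nu_zero p h2 ((dvd_primorial h2).2 h3)]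
      simp
    · intro p hp
      rw [mem_filter, mem_Ioc] at hp
      rw [hT.nu_eq p hp.2 (fun hd => by have := (dvd_primorial hp.2).1 hd; omega)]
      intro i j hij hd
      have h1 := hB1 i
      have h2 := hB1 j
      have h3 : (B i : ℤ) - B j ≠ 0 := by
        intro h0
        exact hij (hBinj (by exact_mod_cast sub_eq_zero.1 h0))
      have h4 := Int.le_of_dvd (abs_pos.2 h3) ((dvd_abs _ _).2 hd)
      have h5 : |(B i : ℤ) - B j| ≤ k := by
        rw [abs_le]
        constructor <;> omega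
      omega
  have hSf : ∀ N r x : ℕ, (k : ℝ) ≤ (N : ℝ) ^ (1 / (r : ℝ)) →
      (Sf (Q (tf (primorial k) B)) ⌊(N : ℝ) ^ (1 / (r : ℝ))⌋₊ x ↔
        R N r k (primorial k * x + m) = h k m) := by
    intro N r x hkz
    rw [R_eq N r k m x hkz]
    unfold Sf Rough
    constructor
    · intro h1 n hn p hp hpz hd
      obtain ⟨i, rfl⟩ := hBsurj n hn
      exact h1 p (mem_pz.2 ⟨Nat.le_floor hpz, hp⟩) ((tf_Q _ _ p x).2 ⟨i, hd⟩)
    · intro h1 p hp hq
      obtain ⟨h2, h3⟩ := mem_pz.1 hp
      obtain ⟨i, hi⟩ := (tf_Q _ _ p x).1 hq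
      exact h1 (B i) (hBmem i) p h3 ((Nat.le_floor_iff (by positivity)).1 h2) hi
  obtain ⟨r0, hr0, h0⟩ := tup_prime hT θ δ hθ hδ hδ1 x₀ ε hε hε1
  refine ⟨r0, hr0, ?_⟩
  intro r hr
  obtain ⟨N1, hN1⟩ := hkN r (hr0.trans hr)
  obtain ⟨N2, hN2⟩ := eventually_atTop.1 (h0 r hr)
  refine ⟨max N1 N2, ?_⟩
  intro N hN
  have hkz := hN1 N ((le_max_left _ _).trans hN)
  obtain ⟨_, c2⟩ := hN2 N ((le_max_right _ _).trans hN)
  refine ⟨hkz, hVpos N r, ?_⟩
  intro n hn X hX u Y hY huY
  obtain ⟨i, hi⟩ := hBsurj n hn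
  obtain ⟨g1, g2⟩ := c2 i X hX u Y hY huY
  have hOm : Om (primorial k) (B i) (Q (tf (primorial k) B)) ⌊(N : ℝ) ^ (1 / (r : ℝ))⌋₊ u Y =
      W k m n N r u Y := by
    unfold Om W
    simp only [hSf N r _ hkz, hi]
  have hWc : ∀ x T, Wc (Sf (Q (tf (primorial k) B)) ⌊(N : ℝ) ^ (1 / (r : ℝ))⌋₊) x T =
      Next k m N r T x := by
    intro x T
    unfold Wc Next
    simp only [hSf N r _ hkz]
  have hU : Vz ⌊(N : ℝ) ^ (1 / (r : ℝ))⌋₊ = U N r := rfl
  rw [hOm, hVq N r hkz, hU] at g1
  refine ⟨g1, fun T hTx S => ?_⟩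
  have g3 := g2 T (by rw [hVq N r hkz]; exact hTx) S
  rw [hOm, hVq N r hkz] at g3
  simp only [hWc] at g3
  exact g3

/-- Rough integers have few prime factors. -/
lemma few (c r : ℕ) (hr : 2 ≤ r) : ∃ N₀ : ℕ, ∀ N : ℕ, N₀ ≤ N → ∀ n : ℕ, n ≤ c * N →
    Rough N r n → n.primeFactorsList.length ≤ r := by
  have hr0 : (0 : ℝ) < r := by exact_mod_cast (by omega : 0 < r)
  obtain ⟨N1, hN1⟩ := eventually_atTop.1 ((((tendsto_rpow_atTop (by positivity : (0:ℝ) < 1 / (r : ℝ))).comp
      tendsto_natCast_atTop_atTop).eventually_ge_atTop ((c : ℝ) + 2)).and (eventually_ge_atTop 1))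
  refine ⟨N1, fun N hN n hn hg => ?_⟩
  obtain ⟨hz, hN1'⟩ := hN1 N hN
  simp only [Function.comp] at hz
  have hc0 : (0 : ℝ) ≤ c := Nat.cast_nonneg c
  have hNr : (1 : ℝ) ≤ N := by exact_mod_cast hN1'
  have hpow : ((N : ℝ) ^ (1 / (r : ℝ))) ^ r = N := by
    rw [← Real.rpow_natCast, ← Real.rpow_mul (by linarith), one_div, inv_mul_cancel₀ hr0.ne',
      Real.rpow_one]
  by_cases h0 : n = 0
  · rw [h0]
    simp
  have hz1 : (1 : ℝ) < (N : ℝ) ^ (1 / (r : ℝ)) := by linarith
  have hlt : (n : ℝ) < ((N : ℝ) ^ (1 / (r : ℝ))) ^ (r + 1) := by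
    rw [pow_succ, hpow]
    have hn' : (n : ℝ) ≤ c * N := by exact_mod_cast hn
    have h4 : (N : ℝ) * (c + 2) ≤ N * (N : ℝ) ^ (1 / (r : ℝ)) :=
      mul_le_mul_of_nonneg_left hz (by linarith)
    nlinarith
  by_contra hcon
  rw [not_le] at hcon
  have hprod : ∀ l : List ℕ, (∀ p ∈ l, (N : ℝ) ^ (1 / (r : ℝ)) ≤ p) →
      ((N : ℝ) ^ (1 / (r : ℝ))) ^ l.length ≤ ((l.prod : ℕ) : ℝ) := by
    intro l
    induction l with
    | nil => intro _; simp
    | cons a t ih =>
      intro hl
      rw [List.length_cons, pow_succ, List.prod_cons, Nat.cast_mul, mul_comm]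
      exact mul_le_mul (hl a (by simp)) (ih (fun p hp => hl p (by simp [hp]))) (by positivity)
        (Nat.cast_nonneg _)
  have h6 := hprod n.primeFactorsList (fun p hp => by
    by_contra hc'
    rw [not_le] at hc'
    exact hg p (Nat.prime_of_mem_primeFactorsList hp) hc'.le (Nat.dvd_of_mem_primeFactorsList hp))
  rw [Nat.prod_primeFactorsList h0] at h6
  have h7 : ((N : ℝ) ^ (1 / (r : ℝ))) ^ (r + 1) ≤
      ((N : ℝ) ^ (1 / (r : ℝ))) ^ n.primeFactorsList.length :=
    pow_le_pow_right₀ hz1.le hcon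
  linarith

/-- The primes in a window are rough. -/
lemma primes_le (N r k w : ℕ) (hw : (N : ℝ) ^ (1 / (r : ℝ)) ≤ w) :
    Nat.primeCounting (w + k) ≤ Nat.primeCounting w + R N r k w := by
  classical
  have h1 : Nat.primeCounting (w + k) = Nat.primeCounting w + ((Ioc w (w + k)).filter Nat.Prime).card := by
    unfold Nat.primeCounting Nat.primeCounting'
    rw [Nat.count_eq_card_filter_range, Nat.count_eq_card_filter_range, ← Finset.card_union_of_disjoint]
    · congr 1
      ext n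
      simp only [mem_filter, mem_range, mem_union, mem_Ioc]
      constructor
      · rintro ⟨h1, h2⟩
        by_cases h3 : n < w + 1
        · exact Or.inl ⟨h3, h2⟩
        · exact Or.inr ⟨by omega, h2⟩
      · rintro (⟨h1, h2⟩ | ⟨h1, h2⟩)
        · exact ⟨by omega, h2⟩
        · exact ⟨by omega, h2⟩
    · rw [Finset.disjoint_left]
      intro n h1 h2
      rw [mem_filter, mem_range] at h1
      rw [mem_filter, mem_Ioc] at h2
      omega
  rw [h1]
  apply Nat.add_le_add_left
  unfold R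
  apply card_le_card
  intro n hn
  rw [mem_filter, mem_Ioc] at hn ⊢
  refine ⟨hn.1, fun p hp hpz hd => ?_⟩
  rw [(Nat.prime_dvd_prime_iff_eq hp hn.2).1 hd] at hpz
  have h2 : (w : ℝ) < n := by exact_mod_cast hn.1.1
  linarith

end Pool.Agent.V11237.LP.Window
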