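import Pool.Agent.V11237.LP.Pt

set_option autoImplicit false

/-!
# Twin, sexy and quadruplet patterns
-/

namespace Pool.Agent.V11237.LP.Pt

open Finset Filter
open Pool.Agent.Y879.GL

lemma dif6 (p : ℕ) (hp : p.Prime) (h3 : 3 < p) (d : ℤ) (hd : d ∣ 216) : ¬ (p : ℤ) ∣ d := by
  intro h
  have h1 : (p : ℤ) ∣ ((6 ^ 3 : ℕ) : ℤ) := by
    norm_num
    exact h.trans hd
  have h2 : p ∣ 6 := hp.dvd_of_dvd_pow (Int.natCast_dvd_natCast.1 h1)
  have h4 := Nat.le_of_dvd (by norm_num) h2
  interval_cases p <;> revert hp h2 <;> norm_num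

lemma pr6 (p : ℕ) (hp : p.Prime) : p ∣ 6 ↔ p ≤ 3 := by
  constructor
  · intro h
    have h4 := Nat.le_of_dvd (by norm_num) h
    interval_cases p <;> revert hp h <;> norm_num
  · intro h
    have h2 := hp.two_le
    interval_cases p <;> norm_num

lemma pr30' (p : ℕ) (hp : p.Prime) : p ∣ 30 ↔ p ≤ 5 := by
  constructor
  · intro h
    have h4 := Nat.le_of_dvd (by norm_num) h
    interval_cases p <;> revert hp h <;> norm_num
  · intro h
    have h2 := hp.two_le
    interval_cases p <;> revert hp <;> norm_num

lemma pat_twin : Pat 3 6 5 ![0, 2] where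
  hM := by norm_num
  hc := by norm_num
  hk := by norm_num
  hkP := by norm_num
  hpr := pr6
  cop := by decide
  inj := by decide
  dif := by
    intro i j hij p hp hpP
    apply dif6 p hp (by omega)
    revert i j
    decide

lemma pat_sexy (c : ℕ) (hc : c = 1 ∨ c = 23) : Pat 5 30 c ![0, 6] where
  hM := by norm_num
  hc := by rcases hc with rfl | rfl <;> norm_num
  hk := by norm_num
  hkP := by norm_num
  hpr := pr30'
  cop := by rcases hc with rfl | rfl <;> decide
  inj := by decide
  dif := by
    intro i j hij p hp hpP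
    apply dif6 p hp (by omega)
    revert i j
    decide

lemma pat_quad : Pat 5 30 11 ![0, 2, 6, 8] where
  hM := by norm_num
  hc := by norm_num
  hk := by norm_num
  hkP := by norm_num
  hpr := pr30'
  cop := by decide
  inj := by decide
  dif := by
    intro i j hij p hp hpP
    apply dif6 p hp (by omega)
    revert i j
    decide

end Pool.Agent.V11237.LP.Pt
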