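import Pool.Agent.V11237.LP.PtInst

set_option autoImplicit false

/-!
# Almost prime constellations in all short intervals: their number and the laws of their gaps
-/

namespace Pool.Agent.V11237.LP.Pt

open Finset Filter

variable {k : ℕ}

open Classical in
/-- The number of the good `n` in `(u, u + Y]` with fewer than `l` good integers in `[n - T, n)`. -/
noncomputable def GS (M c : ℕ) (h : Fin k → ℕ) (N r l T u Y : ℕ) : ℕ :=
  ((Ioc u (u + Y)).filter (fun n => Good M c h N r n ∧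
    ((Ico (n - T) n).filter (fun s => Good M c h N r s)).card < l)).card

open Pool.Agent.TH464.PO Pool.Agent.TH464.PW Pool.Agent.W123.RU.Poly Pool.Agent.W123.RP
open Pool.Agent.H373R2.T7 Pool.Agent.Y879.GL

/-- **Almost prime constellations in short intervals.** -/
theorem short {p₀ M c : ℕ} {h : Fin k → ℕ} (H : Pat p₀ M c h) (hlt : ∀ i, h i < M)
    (θ : ℝ) (hθ : 0 < θ) (l₀ : ℕ) (x₀ ε : ℝ) (hε : 0 < ε) :
    ∃ r₀ : ℕ, 2 ≤ r₀ ∧ ∀ r : ℕ, r₀ ≤ r → ∃ N₀ : ℕ, ∀ N : ℕ, N₀ ≤ N →
      ((∀ n : ℕ, n ≤ N → Good M c h N r n → ∀ i, (n + h i).primeFactorsList.length ≤ r) ∧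
        0 < V p₀ M k N r) ∧
      ∀ u Y : ℕ, M ≤ u → (N : ℝ) ^ θ ≤ Y → ∀ l T : ℕ, (l ≤ l₀ ∨ T * V p₀ M k N r ≤ x₀) →
        |(GS M c h N r l T u Y : ℝ) - Y * V p₀ M k N r *
          ∑ j ∈ range l, Real.exp (-(T * V p₀ M k N r)) * (T * V p₀ M k N r) ^ j / j.factorial| ≤
        ε * (Y * V p₀ M k N r) := by
  classical
  obtain ⟨r0, h0⟩ := gap_pat H hlt θ hθ l₀ x₀ ε hε
  refine ⟨max r0 2, le_max_right _ _, ?_⟩
  intro r hr
  obtain ⟨N1, hN1⟩ := eventually_atTop.1 (h0 r ((le_max_left _ _).trans hr))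
  obtain ⟨N2, hN2⟩ := few h r (by have := (le_max_right r0 2).trans hr; omega)
  refine ⟨max N1 N2, ?_⟩
  intro N hN
  have hVpos : 0 < V p₀ M k N r := by
    unfold V
    apply div_pos
    · apply Finset.prod_pos
      intro p hp
      rw [mem_filter, mem_Ioc] at hp
      have h1 : (k : ℝ) < p := by
        have := H.hkP
        exact_mod_cast (by omega : k < p)
      have h2 : (0 : ℝ) < p := lt_of_le_of_lt (Nat.cast_nonneg k) h1
      rw [sub_pos, div_lt_one h2]
      exact h1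
    · exact_mod_cast H.hM
  refine ⟨⟨fun n hn hg i => hN2 N ((le_max_right _ _).trans hN) M c n hn hg i, hVpos⟩, ?_⟩
  intro u Y hMu hY l T hlT
  have hgap := hN1 N ((le_max_left _ _).trans hN) u Y (H.hc.le.trans hMu) hY l T
    (by rw [V_eq]; exact hlT)
  rw [V_eq] at hgap
  have hG : (Pk (Rg M c h ⌊(N : ℝ) ^ (1 / (r : ℝ))⌋₊) l T u Y) = GS M c h N r l T u Y := by
    unfold Pk GS
    simp only [good_iff]
  rw [hG] at hgap
  exact hgap

lemma pat_ta (c : ℕ) (hc : c = 11 ∨ c = 17) : Pat 5 30 c ![0, 2, 6] where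
  hM := by norm_num
  hc := by rcases hc with rfl | rfl <;> norm_num
  hk := by norm_num
  hkP := by norm_num
  hpr := pr30'
  cop := by rcases hc with rfl | rfl <;> decide
  inj := by decide
  dif := by
    intro i j hij p hp hpP
    apply dif6 p hp (by omega)
    revert i j
    decide

lemma pat_tb (c : ℕ) (hc : c = 7 ∨ c = 13) : Pat 5 30 c ![0, 4, 6] where
  hM := by norm_num
  hc := by rcases hc with rfl | rfl <;> norm_num
  hk := by norm_num
  hkP := by norm_num
  hpr := pr30'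
  cop := by rcases hc with rfl | rfl <;> decide
  inj := by decide
  dif := by
    intro i j hij p hp hpP
    apply dif6 p hp (by omega)
    revert i j
    decide

end Pool.Agent.V11237.LP.Pt
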