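import Pool.Agent.V11237.LP.Lin

set_option autoImplicit false

/-!
# Almost prime Cunningham chains in residue classes: the law after primes
-/

namespace Pool.Agent.V11237.LP.Chain

open Finset Filter
open Pool.Agent.V11237

/-- The `j`-th term of the Cunningham chain starting at `m`: of the first kind (`x ↦ 2 x + 1`) for
`e = 1` and of the second kind (`x ↦ 2 x - 1`) for `e = -1`. -/
def c (e : ℤ) (j : ℕ) (m : ℤ) : ℤ := 2 ^ j * (m + e) - e

/-- None of the terms `c e j (a n + b)`, `j < k`, has a prime factor `p ≤ N ^ (1 / r)`. -/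
def Good (e : ℤ) (k a b N r n : ℕ) : Prop :=
  ∀ p : ℕ, p.Prime → (p : ℝ) ≤ (N : ℝ) ^ (1 / (r : ℝ)) → ∀ j < k, ¬ (p : ℤ) ∣ c e j (a * n + b)

open Classical in
/-- The good `n` in `(u, u + Y]` for which `a n + b` is PRIME. -/
noncomputable def P (e : ℤ) (k a b N r u Y : ℕ) : Finset ℕ :=
  (Ioc u (u + Y)).filter (fun n => (a * n + b).Prime ∧ Good e k a b N r n)

open Classical in
/-- The number of the good `l` in `(n, n + T]`. -/
noncomputable def Next (e : ℤ) (k a b N r T n : ℕ) : ℕ :=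
  ((Ioc n (n + T)).filter (fun l => Good e k a b N r l)).card

open Classical in
/-- The number of the residues `n` modulo `p` for which `p` divides one of the `c e j (a n + b)`,
`j < k`. -/
noncomputable def nu (e : ℤ) (k a b p : ℕ) : ℕ :=
  ((range p).filter (fun n : ℕ => ∃ j < k, (p : ℤ) ∣ c e j (a * n + b))).card

/-- The density of the good integers: the product of `1 - nu p / p` over the primes
`p ≤ N ^ (1 / r)`. -/
noncomputable def V (e : ℤ) (k a b N r : ℕ) : ℝ :=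
  ∏ p ∈ (Icc 1 ⌊(N : ℝ) ^ (1 / (r : ℝ))⌋₊).filter Nat.Prime, (1 - (nu e k a b p : ℝ) / p)

/-- The product of `1 - 1 / p` over the primes `p ≤ N ^ (1 / r)`. -/
noncomputable def U (N r : ℕ) : ℝ :=
  ∏ p ∈ (Icc 1 ⌊(N : ℝ) ^ (1 / (r : ℝ))⌋₊).filter Nat.Prime, (1 - 1 / (p : ℝ))

/-- the leading coefficients -/
def cA (k a : ℕ) : Fin k → ℤ := fun j => 2 ^ (j : ℕ) * a

/-- the constant coefficients -/
def cB (e : ℤ) (k b : ℕ) : Fin k → ℤ := fun j => 2 ^ (j : ℕ) * (b + e) - e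

lemma form (e : ℤ) (k a b : ℕ) (j : Fin k) (n : ℕ) :
    cA k a j * n + cB e k b j = c e j (a * n + b) := by
  unfold cA cB c
  ring

lemma good_iff (e : ℤ) (k a b N r n : ℕ) :
    LP.Good (cA k a) (cB e k b) N r n ↔ Good e k a b N r n := by
  unfold LP.Good Good
  simp only [form]
  constructor
  · intro h p hp hpz j hj
    exact h p hp hpz ⟨j, hj⟩
  · intro h p hp hpz j
    exact h p hp hpz j j.2

lemma P_eq (e : ℤ) (k a b N r u Y : ℕ) :
    LP.P (cA k a) (cB e k b) a b N r u Y = P e k a b N r u Y := by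
  unfold LP.P P
  ext m
  simp only [mem_filter, good_iff]

lemma Next_eq (e : ℤ) (k a b N r T n : ℕ) :
    LP.Next (cA k a) (cB e k b) N r T n = Next e k a b N r T n := by
  unfold LP.Next Next
  congr 1
  ext l
  simp only [mem_filter, good_iff]

lemma nu_eq (e : ℤ) (k a b p : ℕ) : LP.nu (cA k a) (cB e k b) p = nu e k a b p := by
  classical
  unfold LP.nu nu
  congr 1
  apply Finset.filter_congr
  intro n _
  simp only [form]
  constructor
  · rintro ⟨j, hj⟩
    exact ⟨j, j.2, hj⟩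
  · rintro ⟨j, hj, h⟩
    exact ⟨⟨j, hj⟩, h⟩

lemma V_eq (e : ℤ) (k a b N r : ℕ) : LP.V (cA k a) (cB e k b) N r = V e k a b N r := by
  unfold LP.V V
  simp only [nu_eq]

/-- **The law after primes for Cunningham chains.** -/
theorem law (e : ℤ) (he : e = 1 ∨ e = -1) (k a b : ℕ) (hk : 2 ≤ k) (ha : Squarefree a)
    (hb : ∀ j < k, IsCoprime (c e j b) (a : ℤ)) (θ δ : ℝ) (hθ : 0 < θ) (hδ : 0 < δ) (hδ1 : δ ≤ 1)
    (x₀ ε : ℝ) (hε : 0 < ε) (hε1 : ε ≤ 1) :
    ∃ r₀ : ℕ, 2 ≤ r₀ ∧ ∀ r : ℕ, r₀ ≤ r → ∃ N₀ : ℕ, ∀ N : ℕ, N₀ ≤ N →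
      ((∀ n : ℕ, n ≤ N → Good e k a b N r n →
          ∀ j < k, (c e j (a * n + b)).natAbs.primeFactorsList.length ≤ r) ∧
        0 < V e k a b N r) ∧
      ∀ X : ℕ, (N : ℝ) ^ θ ≤ X → ∀ u Y : ℕ, δ * X ≤ Y → u + Y ≤ X →
        |((P e k a b N r u Y).card : ℝ) * Real.log X - Y * (V e k a b N r / U N r)| ≤
          ε * (Y * (V e k a b N r / U N r)) ∧
        ∀ T : ℕ, T * V e k a b N r ≤ x₀ → ∀ S : Finset ℕ,
        |(((P e k a b N r u Y).filter (fun n => Next e k a b N r T n ∈ S)).card : ℝ) -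
          (P e k a b N r u Y).card *
            ∑ j ∈ S, Real.exp (-(T * V e k a b N r)) * (T * V e k a b N r) ^ j / j.factorial| ≤
          ε * (P e k a b N r u Y).card := by
  have hapos : 0 < a := Nat.pos_of_ne_zero ha.ne_zero
  have haz : (0 : ℤ) < a := by exact_mod_cast hapos
  have heu : IsUnit e := by
    rcases he with rfl | rfl
    · exact isUnit_one
    · exact isUnit_one.neg
  have he2 : ∀ j : ℕ, ∀ x : ℤ, IsCoprime ((2 : ℤ) ^ j) (2 ^ j * x - e) := by
    intro j x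
    obtain ⟨y, hy⟩ := heu.exists_right_inv
    refine ⟨x * y, -y, ?_⟩
    have : x * y * 2 ^ j + -y * (2 ^ j * x - e) = e * y := by ring
    rw [this, hy]
  obtain ⟨r0, hr0, h⟩ := LP.law (cA k a) (cB e k b) a b hk
    (fun j => by unfold cA; positivity)
    (fun j => by
      unfold cA
      apply IsCoprime.mul_left (he2 j _)
      exact (hb j j.2).symm)
    (fun i j hij => by
      unfold cA at hij
      have h1 : (2 : ℤ) ^ (i : ℕ) = 2 ^ (j : ℕ) := mul_right_cancel₀ haz.ne' hij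
      have h2 : (2 : ℕ) ^ (i : ℕ) = 2 ^ (j : ℕ) := by exact_mod_cast h1
      exact Fin.ext (Nat.pow_right_injective (le_refl 2) h2))
    ha ⟨⟨0, by omega⟩, by simp [cA], by simp [cB]⟩
    (fun j => Dvd.intro_left _ rfl)
    (fun p hp => by
      have hpi : Prime (p : ℤ) := Nat.prime_iff_prime_int.1 hp
      by_cases hpa : (p : ℤ) ∣ a
      · refine ⟨0, fun j hj => ?_⟩
        rw [form] at hj
        simp only [Nat.cast_zero, mul_zero, zero_add] at hj
        exact hpi.not_isUnit ((hb j j.2).isUnit_of_dvd' hj hpa)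
      · obtain ⟨x, y, hxy⟩ := (hpi.coprime_iff_not_dvd.2 hpa).symm
        have hp0 : (p : ℤ) ≠ 0 := by exact_mod_cast hp.ne_zero
        refine ⟨((-(x * (b + e))) % (p : ℤ)).toNat, fun j hj => ?_⟩
        rw [form, Int.toNat_of_nonneg (Int.emod_nonneg _ hp0)] at hj
        have e3 := Int.emod_add_mul_ediv (-(x * (b + e))) (p : ℤ)
        have e4 : (-(x * (b + e))) % (p : ℤ) =
            -(x * (b + e)) - p * ((-(x * (b + e))) / (p : ℤ)) := by linarith
        rw [e4] at hj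
        unfold c at hj
        have e5 : (p : ℤ) ∣ e := by
          obtain ⟨w, hw⟩ := hj
          refine ⟨-w + 2 ^ (j : ℕ) * (-(a * ((-(x * (b + e))) / (p : ℤ))) + y * (b + e)), ?_⟩
          linear_combination (-1 : ℤ) * hw + (-(2 : ℤ) ^ (j : ℕ) * (b + e)) * hxy
        exact hpi.not_isUnit (isUnit_of_dvd_unit e5 heu))
    θ δ hθ hδ hδ1 x₀ ε hε hε1
  refine ⟨r0, hr0, ?_⟩
  intro r hr
  obtain ⟨N0, hN0⟩ := h r hr
  refine ⟨N0, ?_⟩
  intro N hN
  obtain ⟨⟨g1, g2⟩, g3⟩ := hN0 N hN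
  rw [V_eq] at g2 g3
  refine ⟨⟨?_, g2⟩, ?_⟩
  · intro n hn hg j hj
    have := g1 n hn ((good_iff e k a b N r n).2 hg) ⟨j, hj⟩
    rw [form] at this
    exact this
  · intro X hX u Y hY huY
    obtain ⟨g4, g5⟩ := g3 X hX u Y hY huY
    rw [P_eq] at g4 g5
    refine ⟨g4, fun T hT S => ?_⟩
    have g6 := g5 T hT S
    simp only [Next_eq] at g6
    exact g6

end Pool.Agent.V11237.LP.Chain
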