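import Pool.Agent.V11237.LP.TAP
import Pool.Agent.V11237.LP.Window

set_option autoImplicit false

/-!
# Exact patterns of consecutive almost primes, one of them prime: their number and the law after them
-/

namespace Pool.Agent.V11237.LP.ExPat

open Finset Filter

variable {k : ℕ}

/-- `M` is squarefree, divisible by all primes `≤ k`, larger than `D`, and for `n ≤ D` the integer
`b + n` is prime to `M` exactly if `n` is one of the `h i`. -/
def Exact (h : Fin k → ℕ) (D M b : ℕ) : Prop :=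
  Squarefree M ∧ (∀ p : ℕ, p.Prime → p ≤ k → p ∣ M) ∧ D < M ∧
    ∀ n : ℕ, n ≤ D → (Nat.Coprime M (b + n) ↔ ∃ i, h i = n)

/-- No prime `p ≤ N ^ (1 / r)` divides one of the `m + h i`. -/
def Good (h : Fin k → ℕ) (N r m : ℕ) : Prop :=
  ∀ p : ℕ, p.Prime → (p : ℝ) ≤ (N : ℝ) ^ (1 / (r : ℝ)) → ∀ i, ¬ p ∣ m + h i

open Classical in
/-- The `x` in `(u, u + Y]` for which `m = M x + b` is good and `m + h i` is PRIME. -/
noncomputable def P (h : Fin k → ℕ) (M b : ℕ) (i : Fin k) (N r u Y : ℕ) : Finset ℕ :=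
  (Ioc u (u + Y)).filter (fun x : ℕ => (M * x + b + h i).Prime ∧ Good h N r (M * x + b))

open Classical in
/-- The number of the `y` in `(x, x + T]` for which `M y + b` is good. -/
noncomputable def Next (h : Fin k → ℕ) (M b N r T x : ℕ) : ℕ :=
  ((Ioc x (x + T)).filter (fun y : ℕ => Good h N r (M * y + b))).card

open Classical in
/-- The number of the `x` modulo `p` for which `p` divides one of the `M x + b + h i`. -/
noncomputable def nu (h : Fin k → ℕ) (M b p : ℕ) : ℕ :=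
  ((range p).filter (fun x : ℕ => ∃ i, p ∣ M * x + b + h i)).card

/-- The density of the good integers. -/
noncomputable def V (h : Fin k → ℕ) (M b N r : ℕ) : ℝ :=
  ∏ p ∈ (Icc 1 ⌊(N : ℝ) ^ (1 / (r : ℝ))⌋₊).filter Nat.Prime, (1 - (nu h M b p : ℝ) / p)

/-- The product of `1 - 1 / p` over the primes `p ≤ N ^ (1 / r)`. -/
noncomputable def U (N r : ℕ) : ℝ :=
  ∏ p ∈ (Icc 1 ⌊(N : ℝ) ^ (1 / (r : ℝ))⌋₊).filter Nat.Prime, (1 - 1 / (p : ℝ))

open Pool.Agent.TH464.PO Pool.Agent.TH464.PW Pool.Agent.W123.RU.Poly Pool.Agent.W123.RP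
open Pool.Agent.H373R2.T7 Pool.Agent.Y879.GL Pool.Agent.Y879.PR Pool.Agent.Y879.AP

/-- the system -/
noncomputable def sg (h : Fin k → ℕ) (M b : ℕ) : Fin k → Polynomial ℤ :=
  sy (fun _ => (M : ℤ)) (fun i => ((b + h i : ℕ) : ℤ))

lemma sg_Q (h : Fin k → ℕ) (M b p m : ℕ) : Q (sg h M b) p m ↔ ∃ i, p ∣ M * m + b + h i := by
  unfold sg
  rw [sy_Q]
  constructor
  · rintro ⟨i, hi⟩
    refine ⟨i, ?_⟩
    have e : ((M : ℤ) * m + ((b + h i : ℕ) : ℤ)) = ((M * m + b + h i : ℕ) : ℤ) := by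
      push_cast
      ring
    simp only [e] at hi
    exact_mod_cast hi
  · rintro ⟨i, hi⟩
    refine ⟨i, ?_⟩
    have e : ((M : ℤ) * m + ((b + h i : ℕ) : ℤ)) = ((M * m + b + h i : ℕ) : ℤ) := by
      push_cast
      ring
    simp only [e]
    exact_mod_cast hi

lemma good_iff (h : Fin k → ℕ) (M b N r m : ℕ) :
    Sf (Q (sg h M b)) ⌊(N : ℝ) ^ (1 / (r : ℝ))⌋₊ m ↔ Good h N r (M * m + b) := by
  have h0 : (0 : ℝ) ≤ (N : ℝ) ^ (1 / (r : ℝ)) := by positivity
  constructor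
  · intro hh p hp hpX i hi
    have h1 := hh p (mem_pz.2 ⟨Nat.le_floor hpX, hp⟩)
    rw [sg_Q] at h1
    exact h1 ⟨i, hi⟩
  · intro hh p hp
    obtain ⟨h1, h2⟩ := mem_pz.1 hp
    rw [sg_Q]
    rintro ⟨i, hi⟩
    exact hh p h2 ((Nat.le_floor_iff h0).1 h1) i hi

lemma V_eq (h : Fin k → ℕ) (M b N r : ℕ) :
    Vq (Q (sg h M b)) ⌊(N : ℝ) ^ (1 / (r : ℝ))⌋₊ = V h M b N r := by
  classical
  unfold Vq V pz
  apply Finset.prod_congr rfl
  intro p _
  have : nuB (Q (sg h M b)) p = nu h M b p := by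
    unfold nuB nu
    apply card_iff
    intro m _
    exact sg_Q h M b p m
  rw [this]

lemma cop_iff (M b z n : ℕ) (hz : z ≡ b [MOD M]) : Nat.Coprime M (z + n) ↔ Nat.Coprime M (b + n) := by
  have h1 : (z + n) ≡ (b + n) [MOD M] := hz.add_right n
  unfold Nat.Coprime
  rw [Nat.gcd_comm M, Nat.gcd_comm M]
  rw [h1.gcd_eq]

/-- congruences for an admissible set -/
lemma crt (h : Fin k → ℕ) (hadm : ∀ p : ℕ, p.Prime → ∃ a : ℕ, ∀ i, ¬ p ∣ a + h i) (S : Finset ℕ)
    (hS : ∀ p ∈ S, p.Prime) : ∃ b : ℕ, ∀ p ∈ S, ∀ i, ¬ p ∣ b + h i := by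
  classical
  induction S using Finset.induction_on with
  | empty => exact ⟨0, by simp⟩
  | insert p S hp ih =>
    obtain ⟨b, hb⟩ := ih (fun q hq => hS q (mem_insert_of_mem hq))
    obtain ⟨a, ha⟩ := hadm p (hS p (mem_insert_self _ _))
    have hcop : Nat.Coprime (∏ q ∈ S, q) p := by
      apply Nat.Coprime.prod_left
      intro q hq
      have hqp := hS q (mem_insert_of_mem hq)
      apply (Nat.coprime_primes hqp (hS p (mem_insert_self _ _))).2
      rintro rfl
      exact hp hq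
    obtain ⟨z, hz1, hz2⟩ := Nat.chineseRemainder hcop b a
    refine ⟨z, ?_⟩
    intro q hq i hd
    rcases mem_insert.1 hq with rfl | hq
    · exact ha i ((Nat.ModEq.dvd_iff (hz2.add_right (h i)) dvd_rfl).1 hd)
    · have h1 : z ≡ b [MOD q] := hz1.of_dvd (Finset.dvd_prod_of_mem _ hq)
      exact hb q hq i ((Nat.ModEq.dvd_iff (h1.add_right (h i)) dvd_rfl).1 hd)

/-- excluding further places -/
lemma kill (h : Fin k → ℕ) (D : ℕ) (hD : ∀ i, h i ≤ D) (M₀ b₀ : ℕ) (hM₀ : Squarefree M₀)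
    (hc : ∀ i, Nat.Coprime M₀ (b₀ + h i)) (S : Finset ℕ) (hS : ∀ n ∈ S, ∀ i, h i ≠ n) :
    ∃ M b : ℕ, M₀ ∣ M ∧ Squarefree M ∧ (∀ i, Nat.Coprime M (b + h i)) ∧
      ∀ n ∈ S, ¬ Nat.Coprime M (b + n) := by
  classical
  induction S using Finset.induction_on with
  | empty => exact ⟨M₀, b₀, dvd_rfl, hM₀, hc, by simp⟩
  | insert n S hn ih =>
    obtain ⟨M, b, h1, h2, h3, h4⟩ := ih (fun m hm => hS m (mem_insert_of_mem hm))
    have hMpos : 0 < M := Nat.pos_of_ne_zero h2.ne_zero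
    obtain ⟨p, hp1, hp⟩ := Nat.exists_infinite_primes (M + D + n + 2)
    have hMp : Nat.Coprime M p := by
      rw [Nat.coprime_comm, Nat.Prime.coprime_iff_not_dvd hp]
      intro hd
      have := Nat.le_of_dvd hMpos hd
      omega
    obtain ⟨z, hz1, hz2⟩ := Nat.chineseRemainder hMp b ((p - 1) * n)
    have hzn : p ∣ z + n := by
      have e : (z + n) ≡ ((p - 1) * n + n) [MOD p] := hz2.add_right n
      rw [Nat.ModEq.dvd_iff e dvd_rfl]
      have : (p - 1) * n + n = p * n := by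
        obtain ⟨q, hq⟩ : ∃ q, p = q + 1 := ⟨p - 1, by omega⟩
        rw [hq, Nat.add_sub_cancel]
        ring
      rw [this]
      exact dvd_mul_right _ _
    refine ⟨M * p, z, h1.mul_right p, ?_, ?_, ?_⟩
    · rw [Nat.squarefree_mul_iff]
      exact ⟨hMp, h2, hp.prime.squarefree⟩
    · intro i
      apply Nat.Coprime.mul_left
      · exact (cop_iff M b z (h i) hz1).2 (h3 i)
      · rw [Nat.Prime.coprime_iff_not_dvd hp]
        intro hd
        have h5 : (p : ℤ) ∣ (h i : ℤ) - n := by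
          have a1 : (p : ℤ) ∣ (z + h i : ℕ) := by exact_mod_cast hd
          have a2 : (p : ℤ) ∣ (z + n : ℕ) := by exact_mod_cast hzn
          have := dvd_sub a1 a2
          push_cast at this
          rwa [add_sub_add_left_eq_sub] at this
        have h6 : ((h i : ℤ) - n) = 0 := by
          apply Int.eq_zero_of_abs_lt_dvd h5
          have := hD i
          rw [abs_lt]
          constructor <;> omega
        exact hS n (mem_insert_self _ _) i (by omega)
    · intro m hm hcop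
      rcases mem_insert.1 hm with rfl | hm
      · have h5 : Nat.Coprime p (z + m) := hcop.coprime_dvd_left (dvd_mul_left p M)
        rw [Nat.Prime.coprime_iff_not_dvd hp] at h5
        exact h5 hzn
      · exact h4 m hm ((cop_iff M b z m hz1).1 (hcop.coprime_dvd_left (dvd_mul_right M p)))

/-- exact classes exist -/
theorem exists_exact (h : Fin k → ℕ) (D : ℕ) (hD : ∀ i, h i ≤ D)
    (hadm : ∀ p : ℕ, p.Prime → ∃ a : ℕ, ∀ i, ¬ p ∣ a + h i) : ∃ M b : ℕ, Exact h D M b := by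
  classical
  obtain ⟨b₀, hb₀⟩ := crt h hadm ((range (D + k + 2)).filter Nat.Prime) (fun p hp => (mem_filter.1 hp).2)
  obtain ⟨M, b, h1, h2, h3, h4⟩ := kill h D hD (primorial (D + k + 1)) b₀ (Window.sq_primorial _) (by
      intro i
      apply Nat.Coprime.symm
      apply Nat.coprime_of_dvd
      intro p hp hpd hpM
      have := (Window.dvd_primorial hp).1 hpM
      exact hb₀ p (mem_filter.2 ⟨mem_range.2 (by omega), hp⟩) i hpd)
    ((range (D + 1)).filter (fun n => ∀ i, h i ≠ n)) (fun n hn => (mem_filter.1 hn).2)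
  have hMpos : 0 < M := Nat.pos_of_ne_zero h2.ne_zero
  refine ⟨M, b, h2, ?_, ?_, ?_⟩
  · intro p hp hpk
    exact ((Window.dvd_primorial hp).2 (by omega)).trans h1
  · have := Window.le_primorial (D + k + 1) (by omega)
    have := Nat.le_of_dvd hMpos h1
    omega
  · intro n hn
    constructor
    · intro hc
      by_contra hcon
      push Not at hcon
      exact h4 n (mem_filter.2 ⟨mem_range.2 (by omega), hcon⟩) hc
    · rintro ⟨i, rfl⟩
      exact h3 i

lemma us (h : Fin k → ℕ) (D M b : ℕ) (hD : ∀ i, h i ≤ D) (hinj : Function.Injective h)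
    (hE : Exact h D M b) (H W : ℝ) (hH : (M : ℝ) + b + D ≤ H) : US k 1 H W (sg h M b) := by
  obtain ⟨hsq, hkM, hDM, hex⟩ := hE
  have hMpos : 0 < M := by omega
  have hc : ∀ i, Nat.Coprime M (b + h i) := fun i => (hex (h i) (hD i)).2 ⟨i, rfl⟩
  unfold sg
  apply us_lf
  · intro i
    have : (0 : ℤ) < M := by exact_mod_cast hMpos
    exact this.ne'
  · intro i
    exact Nat.isCoprime_iff_coprime.2 (hc i)
  · intro i
    rw [Int.cast_natCast, abs_of_nonneg (Nat.cast_nonneg _)]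
    have h1 : (0 : ℝ) ≤ b := Nat.cast_nonneg _
    have h2 : (0 : ℝ) ≤ D := Nat.cast_nonneg _
    linarith
  · intro i
    rw [Int.cast_natCast, abs_of_nonneg (Nat.cast_nonneg _)]
    have h1 : (h i : ℝ) ≤ D := by exact_mod_cast hD i
    have h2 : (0 : ℝ) ≤ M := Nat.cast_nonneg _
    push_cast
    linarith
  · intro p hp
    by_cases hpM : p ∣ M
    · refine ⟨0, fun i hdv => ?_⟩
      have h1 : (p : ℤ) ∣ ((b + h i : ℕ) : ℤ) := by simpa using hdv
      have h2 : p ∣ b + h i := by exact_mod_cast h1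
      have h3 := Nat.dvd_gcd hpM h2
      rw [hc i] at h3
      exact hp.one_lt.ne' (Nat.dvd_one.1 h3)
    · apply Quad.place _ _ p hp
      · by_contra hcon
        exact hpM (hkM p hp (by omega))
      · intro i hdv
        exact hpM (by exact_mod_cast hdv)
  · intro i j t ht htU
    have hi := hD i
    have hj := hD j
    have hMt : (M : ℤ) ≤ M * t := by
      have : (1 : ℤ) ≤ t := by exact_mod_cast ht
      have h0 : (0 : ℤ) ≤ M := by positivity
      nlinarith
    constructor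
    · rintro ⟨-, h2⟩
      push_cast at h2
      have : (h i : ℤ) = h j + M * t := by linarith
      omega
    · rintro ⟨h1, -⟩
      omega

/-- **The law after primes for exact patterns.** -/
theorem law (h : Fin k → ℕ) (hk : 2 ≤ k) (D M b : ℕ) (hD : ∀ i, h i ≤ D)
    (hinj : Function.Injective h) (hE : Exact h D M b) (θ δ : ℝ) (hθ : 0 < θ)
    (hδ : 0 < δ) (hδ1 : δ ≤ 1) (x₀ ε : ℝ) (hε : 0 < ε) (hε1 : ε ≤ 1) :
    ∃ r₀ : ℕ, 2 ≤ r₀ ∧ ∀ r : ℕ, r₀ ≤ r → ∃ N₀ : ℕ, ∀ N : ℕ, N₀ ≤ N →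
      0 < V h M b N r ∧
      ∀ (i : Fin k) (X : ℕ), (N : ℝ) ^ θ ≤ X → ∀ u Y : ℕ, δ * X ≤ Y → u + Y ≤ X →
        |((P h M b i N r u Y).card : ℝ) * Real.log X - Y * (V h M b N r / U N r)| ≤
          ε * (Y * (V h M b N r / U N r)) ∧
        ∀ T : ℕ, T * V h M b N r ≤ x₀ → ∀ S : Finset ℕ,
        |(((P h M b i N r u Y).filter (fun x => Next h M b N r T x ∈ S)).card : ℝ) -
          (P h M b i N r u Y).card *
            ∑ j ∈ S, Real.exp (-(T * V h M b N r)) * (T * V h M b N r) ^ j / j.factorial| ≤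
          ε * (P h M b i N r u Y).card := by
  classical
  have hE' := hE
  obtain ⟨hsq, hkM, hDM, hex⟩ := hE'
  have hMpos : 0 < M := by omega
  have hc : ∀ i, Nat.Coprime M (b + h i) := fun i => (hex (h i) (hD i)).2 ⟨i, rfl⟩
  obtain ⟨r0, hr0, h0⟩ := prime_full M k 1 hsq 1 1 θ δ one_pos one_pos hθ hδ hδ1 x₀ ε hε hε1
  refine ⟨r0, hr0, ?_⟩
  intro r hr
  obtain ⟨K, hK, hV2⟩ := V2_up 1 one_pos r (hr0.trans hr)
  have hpw : ∀ a : ℝ, 0 < a → ∀ c : ℝ, ∀ᶠ N : ℕ in atTop, c ≤ (N : ℝ) ^ a := fun a ha c =>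
    ((tendsto_rpow_atTop ha).comp tendsto_natCast_atTop_atTop).eventually_ge_atTop _
  obtain ⟨N0, hN0⟩ := eventually_atTop.1 ((h0 r hr K).and (hV2.and ((hpw (θ / 4) (by positivity) (b + D)).and
    ((hpw 1 one_pos (M + b + D)).and (hpw 1 one_pos (M * (D + 1)))))))
  refine ⟨N0, ?_⟩
  intro N hN
  obtain ⟨c1, c2, c4, c5, c6⟩ := hN0 N hN
  have hus := us h D M b hD hinj hE ((N : ℝ) ^ (1 : ℝ)) ((N : ℝ) ^ (1 : ℝ)) c5
  have hVpos : 0 < V h M b N r := by
    rw [← V_eq]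
    unfold Vq
    apply Finset.prod_pos
    intro p hp
    have hpp : p.Prime := (mem_pz.1 hp).2
    have h1 := us_adm hus p hpp
    have h2 : (0 : ℝ) < p := by exact_mod_cast hpp.pos
    rw [sub_pos, div_lt_one h2]
    exact_mod_cast h1
  obtain ⟨i0, hi0⟩ : ∃ i0 : Fin k, i0 = ⟨0, by omega⟩ := ⟨_, rfl⟩
  obtain ⟨i1, hi1⟩ : ∃ i1 : Fin k, i1 = ⟨1, by omega⟩ := ⟨_, rfl⟩
  have hne01 : h i0 ≠ h i1 := by
    intro hh
    have := hinj hh
    rw [hi0, hi1, Fin.mk.injEq] at this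
    omega
  obtain ⟨w, hw⟩ : ∃ w : ℤ, w = (h i1 : ℤ) - h i0 := ⟨_, rfl⟩
  have hw0 : w ≠ 0 := by
    intro hh
    rw [hh] at hw
    omega
  have hwD : w.natAbs ≤ D := by
    have h1 := hD i0
    have h2 := hD i1
    omega
  have hw1 : 1 ≤ w.natAbs := Int.natAbs_pos.2 hw0
  have hVle : Vq (Q (sg h M b)) ⌊(N : ℝ) ^ (1 / (r : ℝ))⌋₊ ≤ K / Real.log N := by
    apply c2 (Q (sg h M b)) (M * w.natAbs) (fun p hp => us_adm hus p hp)
      (Nat.one_le_iff_ne_zero.2 (Nat.mul_ne_zero (by omega) (by omega)))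
    · refine le_trans ?_ c6
      push_cast
      have h1 : (w.natAbs : ℝ) ≤ D + 1 := by exact_mod_cast (by omega : w.natAbs ≤ D + 1)
      exact mul_le_mul_of_nonneg_left (by exact_mod_cast h1) (Nat.cast_nonneg _)
    · intro p hp hpD
      obtain ⟨x1, x2, l1, l2, hne, d1, d2⟩ := TAP.two_roots p hp M (b + h i0 : ℕ) w
        (fun hh => hpD ((by exact_mod_cast hh : p ∣ M).mul_right _))
        (fun hh => hpD ((Int.natCast_dvd.1 hh).mul_left _))
      unfold nuB
      have hsub : ({x1, x2} : Finset ℕ) ⊆ (range p).filter (fun m => Q (sg h M b) p m) := by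
        intro x hx
        rw [mem_insert, mem_singleton] at hx
        rw [mem_filter, mem_range]
        rcases hx with rfl | rfl
        · refine ⟨l1, (sg_Q h M b p _).2 ⟨i0, ?_⟩⟩
          have e : ((M : ℤ) * x + ((b + h i0 : ℕ) : ℤ)) = ((M * x + b + h i0 : ℕ) : ℤ) := by
            push_cast
            ring
          rw [e] at d1
          exact_mod_cast d1
        · refine ⟨l2, (sg_Q h M b p _).2 ⟨i1, ?_⟩⟩
          have e : ((M : ℤ) * x + ((b + h i0 : ℕ) : ℤ) + w) = ((M * x + b + h i1 : ℕ) : ℤ) := by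
            rw [hw]
            push_cast
            ring
          rw [e] at d2
          exact_mod_cast d2
      calc 2 = ({x1, x2} : Finset ℕ).card := (Finset.card_pair hne).symm
        _ ≤ _ := Finset.card_le_card hsub
  refine ⟨hVpos, ?_⟩
  intro i X hX u Y hY huY
  obtain ⟨g1, g2⟩ := c1 (sg h M b) (b + h i) hus (hc i) (by
      intro p n hp hpM hQ
      rw [sg_Q] at hQ
      obtain ⟨j, hj⟩ := hQ
      rw [add_assoc] at hj
      have h3 : p ∣ b + h j := (Nat.dvd_add_right (hpM.mul_right n)).1 hj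
      have h4 := Nat.dvd_gcd hpM h3
      rw [hc j] at h4
      exact hp.one_lt.ne' (Nat.dvd_one.1 h4))
    ⟨i, fun n => by
      unfold sg sy
      rw [lf_eval]⟩ hVle (by
      have : (h i : ℝ) ≤ D := by exact_mod_cast hD i
      push_cast
      linarith) X hX u Y hY huY
  have hOm : Om M (b + h i) (Q (sg h M b)) ⌊(N : ℝ) ^ (1 / (r : ℝ))⌋₊ u Y = P h M b i N r u Y := by
    unfold Om P
    simp only [good_iff, ← add_assoc]
  have hW : ∀ n, Wc (Sf (Q (sg h M b)) ⌊(N : ℝ) ^ (1 / (r : ℝ))⌋₊) n =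
      fun T => Next h M b N r T n := by
    intro n
    funext T
    unfold Wc Next
    simp only [good_iff]
  have hUz : Vz ⌊(N : ℝ) ^ (1 / (r : ℝ))⌋₊ = U N r := rfl
  rw [hOm, V_eq, hUz] at g1
  refine ⟨g1, fun T hT S => ?_⟩
  have g3 := g2 T (by rw [V_eq]; exact hT) S
  rw [hOm, V_eq] at g3
  simp only [hW] at g3
  exact g3

end Pool.Agent.V11237.LP.ExPat
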