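import Pool.Agent.Y879.GL.Pattern

set_option autoImplicit false

/-!
# Almost prime constellations between consecutive powers: their number and the laws of their gaps
-/

namespace Pool.Agent.V11237.LP.Pt

open Finset Filter

variable {k : ℕ}

/-- `n ≡ c` modulo `M` and none of the `n + h i` has a prime factor `p ≤ N ^ (1 / r)`. -/
def Good (M c : ℕ) (h : Fin k → ℕ) (N r n : ℕ) : Prop :=
  n % M = c ∧ ∀ p : ℕ, p.Prime → (p : ℝ) ≤ (N : ℝ) ^ (1 / (r : ℝ)) → ∀ i, ¬ p ∣ n + h i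

open Classical in
/-- The number of the good `n` in `(u, v)` with `n + w < v` and with fewer than `l` good integers in
`[n - T, n)`. -/
noncomputable def G (M c : ℕ) (h : Fin k → ℕ) (N r l T u v w : ℕ) : ℕ :=
  ((Ioo u (v - w)).filter (fun n => Good M c h N r n ∧
    ((Ico (n - T) n).filter (fun s => Good M c h N r s)).card < l)).card

/-- The density of the good integers: the product of `1 - k / p` over the primes `p₀ < p ≤ N ^ (1 / r)`,
divided by `M`. -/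
noncomputable def V (p₀ M k N r : ℕ) : ℝ :=
  (∏ p ∈ (Ioc p₀ ⌊(N : ℝ) ^ (1 / (r : ℝ))⌋₊).filter Nat.Prime, (1 - (k : ℝ) / p)) / M

open Pool.Agent.TH464.PO Pool.Agent.TH464.PW Pool.Agent.W123.RU.Poly Pool.Agent.W123.RP
open Pool.Agent.H373R2.T7 Pool.Agent.Y879.GL

lemma good_iff (M c : ℕ) (h : Fin k → ℕ) (N r n : ℕ) :
    Rg M c h ⌊(N : ℝ) ^ (1 / (r : ℝ))⌋₊ n ↔ Good M c h N r n := by
  have h0 : (0 : ℝ) ≤ (N : ℝ) ^ (1 / (r : ℝ)) := by positivity
  unfold Rg Good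
  refine and_congr_right fun _ => ?_
  constructor
  · intro H p hp hpX i
    exact H p hp (Nat.le_floor hpX) i
  · intro H p hp hpX i
    exact H p hp ((Nat.le_floor_iff h0).1 hpX) i

lemma V_eq (p₀ M k N r : ℕ) : VP p₀ M k ⌊(N : ℝ) ^ (1 / (r : ℝ))⌋₊ = V p₀ M k N r := rfl

lemma C_le_one (l : ℕ) (x : ℝ) (hx : 0 ≤ x) :
    0 ≤ ∑ j ∈ range l, Real.exp (-x) * x ^ j / j.factorial ∧
      ∑ j ∈ range l, Real.exp (-x) * x ^ j / j.factorial ≤ 1 := by
  constructor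
  · exact Finset.sum_nonneg fun j _ => by positivity
  · have h1 : ∑ j ∈ range l, x ^ j / (j.factorial : ℝ) ≤ Real.exp x := by
      have hs : HasSum (fun n : ℕ => x ^ n / (n.factorial : ℝ)) (Real.exp x) := by
        rw [Real.exp_eq_exp_ℝ]
        exact NormedSpace.expSeries_div_hasSum_exp x
      exact sum_le_hasSum (range l) (fun j _ => by positivity) hs
    have h2 : ∑ j ∈ range l, Real.exp (-x) * x ^ j / j.factorial =
        Real.exp (-x) * ∑ j ∈ range l, x ^ j / (j.factorial : ℝ) := by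
      rw [Finset.mul_sum]
      apply Finset.sum_congr rfl
      intro j _
      ring
    rw [h2]
    calc Real.exp (-x) * ∑ j ∈ range l, x ^ j / (j.factorial : ℝ) ≤ Real.exp (-x) * Real.exp x :=
          mul_le_mul_of_nonneg_left h1 (Real.exp_pos _).le
      _ = 1 := by rw [← Real.exp_add, neg_add_cancel, Real.exp_zero]

/-- few prime factors -/
lemma few (h : Fin k → ℕ) (r : ℕ) (hr : 1 ≤ r) : ∃ N₀ : ℕ, ∀ N : ℕ, N₀ ≤ N → ∀ M c n : ℕ, n ≤ N →
    Good M c h N r n → ∀ i, (n + h i).primeFactorsList.length ≤ r := by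
  have hr0 : (0 : ℝ) < r := by exact_mod_cast hr
  have h1 : ∀ᶠ N : ℕ in atTop, ((∑ i, h i : ℕ) : ℝ) + 2 ≤ (N : ℝ) ^ (1 / (r : ℝ)) :=
    ((tendsto_rpow_atTop (by positivity)).comp tendsto_natCast_atTop_atTop).eventually_ge_atTop _
  obtain ⟨N0, hN0⟩ := eventually_atTop.1 (h1.and (eventually_ge_atTop 1))
  refine ⟨N0, ?_⟩
  intro N hN M c n hn hg i
  obtain ⟨h2, h3⟩ := hN0 N hN
  have hN1 : (1 : ℝ) ≤ N := by exact_mod_cast h3
  have hhi : h i ≤ ∑ i, h i := Finset.single_le_sum (f := h) (fun _ _ => Nat.zero_le _) (mem_univ i)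
  have hs0 : (0 : ℝ) ≤ ((∑ i, h i : ℕ) : ℝ) := Nat.cast_nonneg _
  have hhi' : (h i : ℝ) ≤ ((∑ i, h i : ℕ) : ℝ) := by exact_mod_cast hhi
  have hz1 : (1 : ℝ) < (N : ℝ) ^ (1 / (r : ℝ)) := by linarith
  by_cases h0 : n + h i = 0
  · rw [h0]
    simp
  · have hpow : ((N : ℝ) ^ (1 / (r : ℝ))) ^ r = N := by
      rw [← Real.rpow_natCast, ← Real.rpow_mul (by linarith), one_div, inv_mul_cancel₀ hr0.ne',
        Real.rpow_one]
    have hlt : ((n + h i : ℕ) : ℝ) < ((N : ℝ) ^ (1 / (r : ℝ))) ^ (r + 1) := by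
      rw [pow_succ, hpow]
      have hnN : (n : ℝ) ≤ N := by exact_mod_cast hn
      push_cast
      calc (n : ℝ) + h i ≤ N + ((∑ i, h i : ℕ) : ℝ) * N := by
            have : ((∑ i, h i : ℕ) : ℝ) * 1 ≤ ((∑ i, h i : ℕ) : ℝ) * N :=
              mul_le_mul_of_nonneg_left hN1 hs0
            linarith
        _ < N * (((∑ i, h i : ℕ) : ℝ) + 2) := by nlinarith
        _ ≤ N * (N : ℝ) ^ (1 / (r : ℝ)) := mul_le_mul_of_nonneg_left h2 (by linarith)
    by_contra hcon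
    rw [not_le] at hcon
    have hprod : ∀ l : List ℕ, (∀ p ∈ l, (N : ℝ) ^ (1 / (r : ℝ)) ≤ p) →
        ((N : ℝ) ^ (1 / (r : ℝ))) ^ l.length ≤ ((l.prod : ℕ) : ℝ) := by
      intro l
      induction l with
      | nil => intro _; simp
      | cons a t ih =>
        intro hl
        rw [List.length_cons, pow_succ, List.prod_cons, Nat.cast_mul, mul_comm]
        exact mul_le_mul (hl a (by simp)) (ih (fun p hp => hl p (by simp [hp]))) (by positivity)
          (Nat.cast_nonneg _)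
    have h6 := hprod (n + h i).primeFactorsList (fun p hp => by
      by_contra hc'
      rw [not_le] at hc'
      exact hg.2 p (Nat.prime_of_mem_primeFactorsList hp) hc'.le i
        (Nat.dvd_of_mem_primeFactorsList hp))
    rw [Nat.prod_primeFactorsList h0] at h6
    have h7 : ((N : ℝ) ^ (1 / (r : ℝ))) ^ (r + 1) ≤
        ((N : ℝ) ^ (1 / (r : ℝ))) ^ (n + h i).primeFactorsList.length :=
      pow_le_pow_right₀ hz1.le hcon
    linarith

/-- **Almost prime constellations between consecutive powers.** -/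
theorem between {p₀ M c : ℕ} {h : Fin k → ℕ} (H : Pat p₀ M c h) (hlt : ∀ i, h i < M) (w : ℕ)
    (a : ℕ) (ha : 2 ≤ a) (l₀ : ℕ) (x₀ ε : ℝ) (hε : 0 < ε) :
    ∃ r₀ : ℕ, 2 ≤ r₀ ∧ ∀ r : ℕ, r₀ ≤ r → ∃ m₀ : ℕ, ∀ m : ℕ, m₀ ≤ m →
      ((∀ n : ℕ, n < (m + 1) ^ a → Good M c h ((m + 1) ^ a) r n →
          ∀ i, (n + h i).primeFactorsList.length ≤ r) ∧ 0 < V p₀ M k ((m + 1) ^ a) r) ∧
      ∀ l T : ℕ, (l ≤ l₀ ∨ T * V p₀ M k ((m + 1) ^ a) r ≤ x₀) →
        |(G M c h ((m + 1) ^ a) r l T (m ^ a) ((m + 1) ^ a) w : ℝ) -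
          ((m + 1) ^ a - m ^ a) * V p₀ M k ((m + 1) ^ a) r *
            ∑ j ∈ range l, Real.exp (-(T * V p₀ M k ((m + 1) ^ a) r)) *
              (T * V p₀ M k ((m + 1) ^ a) r) ^ j / j.factorial| ≤
        ε * (((m + 1) ^ a - m ^ a) * V p₀ M k ((m + 1) ^ a) r) := by
  classical
  obtain ⟨r0, h0⟩ := gap_pat H hlt (1 / 3) (by norm_num) l₀ x₀ (ε / 2) (by positivity)
  refine ⟨max r0 2, le_max_right _ _, ?_⟩
  intro r hr
  obtain ⟨N1, hN1⟩ := eventually_atTop.1 (h0 r ((le_max_left _ _).trans hr))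
  obtain ⟨N2, hN2⟩ := few h r (by have := (le_max_right r0 2).trans hr; omega)
  obtain ⟨m1, hm1⟩ := exists_nat_ge (2 * (w + 1) / ε)
  refine ⟨max (max N1 N2) (max (max m1 c) (2 * (w + 1) + 8)), ?_⟩
  intro m hm
  have hmN1 : N1 ≤ m := (le_max_left _ _).trans ((le_max_left _ _).trans hm)
  have hmN2 : N2 ≤ m := (le_max_right _ _).trans ((le_max_left _ _).trans hm)
  have hmm1 : m1 ≤ m := (le_max_left _ _).trans ((le_max_left _ _).trans ((le_max_right _ _).trans hm))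
  have hmc : c ≤ m := (le_max_right _ _).trans ((le_max_left _ _).trans ((le_max_right _ _).trans hm))
  have hmw : 2 * (w + 1) + 8 ≤ m := (le_max_right _ _).trans ((le_max_right _ _).trans hm)
  obtain ⟨N, hN⟩ : ∃ N : ℕ, N = (m + 1) ^ a := ⟨_, rfl⟩
  have hself : ∀ x : ℕ, x ≤ x ^ a := fun x => Nat.le_self_pow (by omega) x
  have hNm : m + 1 ≤ N := by rw [hN]; exact hself _
  have hma : m ≤ m ^ a := hself _
  -- the length of the interval
  have hlen : m ^ (a - 1) * a + m ^ a ≤ (m + 1) ^ a := by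
    have h1 := Commute.add_pow (Commute.one_right m) a
    rw [h1]
    obtain ⟨b, rfl⟩ : ∃ b, a = b + 1 := ⟨a - 1, by omega⟩
    rw [Finset.sum_range_succ, Finset.sum_range_succ]
    simp only [one_pow, mul_one, Nat.choose_self, Nat.cast_one, Nat.sub_self, pow_zero, Nat.cast_id,
      Nat.add_sub_cancel]
    have h2 : (b + 1).choose b = b + 1 := Nat.choose_succ_self_right b
    rw [h2]
    omega
  have hlen2 : 2 * m ^ (a - 1) ≤ (m + 1) ^ a - m ^ a := by
    have : m ^ (a - 1) * 2 ≤ m ^ (a - 1) * a := Nat.mul_le_mul_left _ ha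
    omega
  obtain ⟨L, hL⟩ : ∃ L : ℕ, L = (m + 1) ^ a - m ^ a := ⟨_, rfl⟩
  have hmpow : m ≤ m ^ (a - 1) := Nat.le_self_pow (by omega) m
  have hLm : 2 * m ≤ L := by rw [hL]; omega
  have hLR : (L : ℝ) = ((m : ℝ) + 1) ^ a - (m : ℝ) ^ a := by
    rw [hL, Nat.cast_sub (by omega)]
    push_cast
    rfl
  obtain ⟨Y, hY⟩ : ∃ Y : ℕ, Y = L - 1 - w := ⟨_, rfl⟩
  have hYL : Y + 1 + w = L := by omega
  have hYR : (Y : ℝ) + 1 + w = L := by exact_mod_cast hYL
  -- the interval is long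
  have hNθ : (N : ℝ) ^ (1 / 3 : ℝ) ≤ Y := by
    have hm0 : (0 : ℝ) ≤ m := Nat.cast_nonneg m
    have hNL : (N : ℝ) ≤ (Y : ℝ) ^ 3 := by
      -- N ≤ (2 m)^a, Y ≥ m^(a-1)
      have e1 : m ^ (a - 1) ≤ Y := by omega
      have e2 : N ≤ Y ^ 3 := by
        obtain ⟨b, rfl⟩ : ∃ b, a = b + 2 := ⟨a - 2, by omega⟩
        have e3 : m ^ (b + 1) ≤ Y := e1
        have e4 : (m + 1) ^ (b + 2) ≤ (m ^ (b + 1)) ^ 3 := by
          have e5 : m + 1 ≤ 2 * m := by omega
          have e6 : 2 ^ 2 ≤ m := by omega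
          calc (m + 1) ^ (b + 2) ≤ (2 * m) ^ (b + 2) := Nat.pow_le_pow_left e5 _
            _ = 2 ^ (b + 2) * m ^ (b + 2) := by rw [mul_pow]
            _ ≤ 2 ^ (2 * (b + 1)) * m ^ (b + 2) :=
                Nat.mul_le_mul_right _ (Nat.pow_le_pow_right (by norm_num) (by omega))
            _ = (2 ^ 2) ^ (b + 1) * m ^ (b + 2) := by rw [pow_mul]
            _ ≤ m ^ (b + 1) * m ^ (b + 2) := Nat.mul_le_mul_right _ (Nat.pow_le_pow_left e6 _)
            _ = m ^ (2 * b + 3) := by rw [← pow_add]; congr 1; omega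
            _ ≤ m ^ ((b + 1) * 3) := Nat.pow_le_pow_right (by omega) (by omega)
            _ = (m ^ (b + 1)) ^ 3 := by rw [pow_mul]
        rw [hN]
        exact e4.trans (Nat.pow_le_pow_left e3 3)
      exact_mod_cast e2
    have hY0 : (0 : ℝ) ≤ Y := Nat.cast_nonneg Y
    calc (N : ℝ) ^ (1 / 3 : ℝ) ≤ ((Y : ℝ) ^ 3) ^ (1 / 3 : ℝ) := by gcongr
      _ = Y := by
        rw [← Real.rpow_natCast, ← Real.rpow_mul hY0]
        norm_num
  have hgap := hN1 N (by omega) (m ^ a) Y (by omega) hNθ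
  have hVpos : 0 < V p₀ M k N r := by
    unfold V
    apply div_pos
    · apply Finset.prod_pos
      intro p hp
      rw [mem_filter, mem_Ioc] at hp
      have h1 : (k : ℝ) < p := by
        have := H.hkP
        exact_mod_cast (by omega : k < p)
      have h2 : (0 : ℝ) < p := lt_of_le_of_lt (Nat.cast_nonneg k) h1
      rw [sub_pos, div_lt_one h2]
      exact h1
    · exact_mod_cast H.hM
  rw [← hN]
  refine ⟨⟨fun n hn hg i => hN2 N (by omega) M c n hn.le hg i, hVpos⟩, ?_⟩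
  intro l T hlT
  have h2 := hgap l T (by rw [V_eq]; exact hlT)
  rw [V_eq] at h2
  have hG : (Pk (Rg M c h ⌊(N : ℝ) ^ (1 / (r : ℝ))⌋₊) l T (m ^ a) Y) =
      G M c h N r l T (m ^ a) N w := by
    unfold Pk G
    have hI : Ioc (m ^ a) (m ^ a + Y) = Ioo (m ^ a) (N - w) := by
      ext x
      rw [mem_Ioc, mem_Ioo]
      constructor
      · rintro ⟨h1, h2⟩
        exact ⟨h1, by omega⟩
      · rintro ⟨h1, h2⟩
        exact ⟨h1, by omega⟩
    rw [hI]
    simp only [good_iff]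
  rw [hG] at h2
  have hx : 0 ≤ T * V p₀ M k N r := by positivity
  obtain ⟨c0, c1⟩ := C_le_one l _ hx
  rw [show ((m : ℝ) + 1) ^ a - (m : ℝ) ^ a = L from hLR.symm]
  have hw1 : (w : ℝ) + 1 ≤ ε / 2 * L := by
    have e1 : 2 * ((w : ℝ) + 1) / ε ≤ m := hm1.trans (by exact_mod_cast hmm1)
    rw [div_le_iff₀ hε] at e1
    have e2 : (m : ℝ) ≤ L := by
      have : m ≤ L := by omega
      exact_mod_cast this
    nlinarith
  have hdef : Ck l (T * V p₀ M k N r) = ∑ j ∈ range l, Real.exp (-(T * V p₀ M k N r)) *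
      (T * V p₀ M k N r) ^ j / j.factorial := rfl
  rw [hdef] at h2
  obtain ⟨C, hC⟩ : ∃ C, C = ∑ j ∈ range l, Real.exp (-(T * V p₀ M k N r)) *
      (T * V p₀ M k N r) ^ j / j.factorial := ⟨_, rfl⟩
  rw [← hC] at h2 c0 c1 ⊢
  obtain ⟨v, hv⟩ : ∃ v, v = V p₀ M k N r := ⟨_, rfl⟩
  rw [← hv] at h2 hVpos ⊢
  have h3 : (Y : ℝ) * v ≤ L * v := by
    apply mul_le_mul_of_nonneg_right _ hVpos.le
    have : (0 : ℝ) ≤ w := Nat.cast_nonneg w
    linarith
  have h4 : |(Y : ℝ) * v * C - L * v * C| ≤ ε / 2 * (L * v) := by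
    have e1 : (Y : ℝ) * v * C - L * v * C = -((w + 1) * v * C) := by
      have : (Y : ℝ) = L - 1 - w := by linarith
      rw [this]
      ring
    rw [e1, abs_neg, abs_of_nonneg (by positivity)]
    calc ((w : ℝ) + 1) * v * C ≤ (w + 1) * v * 1 := by
          apply mul_le_mul_of_nonneg_left c1 (by positivity)
      _ = (w + 1) * v := by ring
      _ ≤ ε / 2 * L * v := mul_le_mul_of_nonneg_right hw1 hVpos.le
      _ = _ := by ring
  have h5 : ε / 2 * (Y * v) ≤ ε / 2 * (L * v) := mul_le_mul_of_nonneg_left h3 (by positivity)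
  calc |(G M c h N r l T (m ^ a) N w : ℝ) - L * v * C|
      = |((G M c h N r l T (m ^ a) N w : ℝ) - Y * v * C) + (Y * v * C - L * v * C)| := by
        congr 1
        ring
    _ ≤ |(G M c h N r l T (m ^ a) N w : ℝ) - Y * v * C| + |(Y : ℝ) * v * C - L * v * C| :=
        abs_add_le _ _
    _ ≤ ε / 2 * (L * v) + ε / 2 * (L * v) := by linarith
    _ = _ := by ring

end Pool.Agent.V11237.LP.Pt
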