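import Pool.Agent.V11237.LP.ExPat
import Pool.Agent.V11237.LP.Pt

set_option autoImplicit false

/-!
# Exact patterns of consecutive almost primes: the complete statement
-/

namespace Pool.Agent.V11237.LP.ExPat

open Finset Filter

variable {k : ℕ}

/-- No prime `p ≤ N ^ (1 / r)` divides `m`. -/
def Rough (N r m : ℕ) : Prop := ∀ p : ℕ, p.Prime → (p : ℝ) ≤ (N : ℝ) ^ (1 / (r : ℝ)) → ¬ p ∣ m

/-- the laws for the exact class `b` modulo `M` -/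
def Laws (h : Fin k → ℕ) (D M b : ℕ) (θ δ x₀ ε : ℝ) (r N : ℕ) : Prop :=
  (∀ x : ℕ, Good h N r (M * x + b) → ∀ n : ℕ, n ≤ D → (Rough N r (M * x + b + n) ↔ ∃ i, h i = n)) ∧
  (∀ m : ℕ, m ≤ N → Good h N r m → ∀ i, (m + h i).primeFactorsList.length ≤ r) ∧
  0 < V h M b N r ∧
  ∀ (i : Fin k) (X : ℕ), (N : ℝ) ^ θ ≤ X → ∀ u Y : ℕ, δ * X ≤ Y → u + Y ≤ X →
    |((P h M b i N r u Y).card : ℝ) * Real.log X - Y * (V h M b N r / U N r)| ≤
      ε * (Y * (V h M b N r / U N r)) ∧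
    ∀ T : ℕ, T * V h M b N r ≤ x₀ → ∀ S : Finset ℕ,
    |(((P h M b i N r u Y).filter (fun x => Next h M b N r T x ∈ S)).card : ℝ) -
      (P h M b i N r u Y).card *
        ∑ j ∈ S, Real.exp (-(T * V h M b N r)) * (T * V h M b N r) ^ j / j.factorial| ≤
      ε * (P h M b i N r u Y).card

theorem main (h : Fin k → ℕ) (hk : 2 ≤ k) (D : ℕ) (hD : ∀ i, h i ≤ D)
    (hinj : Function.Injective h) (hadm : ∀ p : ℕ, p.Prime → ∃ a : ℕ, ∀ i, ¬ p ∣ a + h i) :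
    (∃ M b : ℕ, Exact h D M b) ∧ ∀ M b : ℕ, Exact h D M b → ∀ θ δ : ℝ, 0 < θ → 0 < δ → δ ≤ 1 →
      ∀ x₀ ε : ℝ, 0 < ε → ε ≤ 1 →
      ∃ r₀ : ℕ, 2 ≤ r₀ ∧ ∀ r : ℕ, r₀ ≤ r → ∃ N₀ : ℕ, ∀ N : ℕ, N₀ ≤ N → Laws h D M b θ δ x₀ ε r N := by
  classical
  refine ⟨exists_exact h D hD hadm, ?_⟩
  intro M b hE θ δ hθ hδ hδ1 x₀ ε hε hε1
  obtain ⟨r0, hr0, h0⟩ := law h hk D M b hD hinj hE θ δ hθ hδ hδ1 x₀ ε hε hε1
  refine ⟨r0, hr0, ?_⟩
  intro r hr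
  obtain ⟨N1, hN1⟩ := h0 r hr
  obtain ⟨N2, hN2⟩ := Pt.few h r (by omega)
  have hr0' : (0 : ℝ) < r := by exact_mod_cast (by omega : 0 < r)
  obtain ⟨N3, hN3⟩ := eventually_atTop.1
    (((tendsto_rpow_atTop (by positivity : 0 < 1 / (r : ℝ))).comp
      tendsto_natCast_atTop_atTop).eventually_ge_atTop (M : ℝ))
  refine ⟨max N1 (max N2 N3), ?_⟩
  intro N hN
  have hMN : (M : ℝ) ≤ (N : ℝ) ^ (1 / (r : ℝ)) :=
    hN3 N (((le_max_right _ _).trans (le_max_right _ _)).trans hN)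
  obtain ⟨g1, g2⟩ := hN1 N ((le_max_left _ _).trans hN)
  refine ⟨?_, ?_, g1, g2⟩
  · intro x hg n hn
    constructor
    · intro hro
      rw [← hE.2.2.2 n hn]
      apply Nat.Coprime.symm
      apply Nat.coprime_of_dvd
      intro p hp hpd hpM
      have hMpos : 0 < M := Nat.pos_of_ne_zero hE.1.ne_zero
      have hle : (p : ℝ) ≤ M := by exact_mod_cast Nat.le_of_dvd hMpos hpM
      apply hro p hp (hle.trans hMN)
      rw [add_assoc]
      exact dvd_add (hpM.mul_right x) hpd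
    · rintro ⟨i, rfl⟩ p hp hpz
      exact hg p hp hpz i
  · intro m hm hg i
    exact hN2 N (((le_max_left _ _).trans (le_max_right _ _)).trans hN) 1 0 m hm
      ⟨Nat.mod_one _, hg⟩ i

/-- progressions whose difference is divisible by the primes `≤ k` are admissible -/
lemma adm_ap (k d : ℕ) (hd : ∀ p : ℕ, p.Prime → p ≤ k → p ∣ d) (p : ℕ) (hp : p.Prime) :
    ∃ a : ℕ, ∀ i : Fin k, ¬ p ∣ a + (i : ℕ) * d := by
  by_cases hpk : k < p
  · obtain ⟨m, hm⟩ := Quad.place (fun _ : Fin k => (1 : ℤ)) (fun i => (((i : ℕ) * d : ℕ) : ℤ)) p hp hpk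
      (fun _ h => by
        have h1 : p ∣ 1 := by exact_mod_cast h
        exact hp.one_lt.ne' (Nat.dvd_one.1 h1))
    refine ⟨m, fun i hdv => hm i ?_⟩
    rw [one_mul]
    exact_mod_cast hdv
  · refine ⟨1, fun i hdv => ?_⟩
    have h1 : p ∣ (i : ℕ) * d := (hd p hp (by omega)).mul_left _
    have h2 : p ∣ 1 := (Nat.dvd_add_left h1).1 hdv
    exact hp.one_lt.ne' (Nat.dvd_one.1 h2)

end Pool.Agent.V11237.LP.ExPat
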