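import Pool.Agent.V11237.LP.Chain

set_option autoImplicit false

/-!
# Almost prime Cunningham chains of exact length: the law after primes
-/

namespace Pool.Agent.V11237.LP.Chain

open Finset Filter
open Pool.Agent.V11237

/-- the terms before the `k`-th one are prime to `q` -/
lemma cop_before (e : ℤ) (he : e = 1 ∨ e = -1) (k q b : ℕ) (hq : q.Prime) (hkq : 2 ^ k < q)
    (hb : (q : ℤ) ∣ c e k b) (j : ℕ) (hj : j < k) : IsCoprime (c e j b) (q : ℤ) := by
  have hqi : Prime (q : ℤ) := Nat.prime_iff_prime_int.1 hq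
  apply IsCoprime.symm
  rw [hqi.coprime_iff_not_dvd]
  intro h
  have heu : IsUnit e := by
    rcases he with rfl | rfl
    · exact isUnit_one
    · exact isUnit_one.neg
  have h1 : (q : ℤ) ∣ e * (2 ^ (k - j) - 1) := by
    have h2 := dvd_sub hb (h.mul_left (2 ^ (k - j)))
    have h3 : c e k b - 2 ^ (k - j) * c e j b = e * (2 ^ (k - j) - 1) := by
      unfold c
      have : (2 : ℤ) ^ k = 2 ^ (k - j) * 2 ^ j := by
        rw [← pow_add]
        congr 1
        omega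
      rw [this]
      ring
    rwa [h3] at h2
  have h2 : (q : ℤ) ∣ 2 ^ (k - j) - 1 := by
    rcases hqi.dvd_or_dvd h1 with h3 | h3
    · exact absurd (isUnit_of_dvd_unit h3 heu) hqi.not_isUnit
    · exact h3
  have h3 : (2 : ℤ) ^ (k - j) ≤ 2 ^ k := pow_le_pow_right₀ (by norm_num) (by omega)
  have h4 : (2 : ℤ) ^ 1 ≤ 2 ^ (k - j) := pow_le_pow_right₀ (by norm_num) (by omega)
  have h5 : (2 : ℤ) ^ k < q := by exact_mod_cast hkq
  have h6 := Int.le_of_dvd (by linarith) h2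
  linarith

/-- the `k`-th term is composite -/
lemma comp_at (e : ℤ) (he : e = 1 ∨ e = -1) (k q b : ℕ) (hk : 2 ≤ k) (hq : q.Prime)
    (hb : (q : ℤ) ∣ c e k b) (n : ℕ) (hn : 1 ≤ n) :
    (q : ℤ) ∣ c e k (q * n + b) ∧ (q : ℤ) < c e k (q * n + b) ∧
      ¬ (c e k (q * n + b)).natAbs.Prime := by
  have h1 : (q : ℤ) ∣ c e k (q * n + b) := by
    have h2 : c e k (q * n + b) = c e k b + q * (2 ^ k * n) := by
      unfold c
      ring
    rw [h2]
    exact dvd_add hb (Dvd.intro _ rfl)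
  have hq2 : (2 : ℤ) ≤ q := by exact_mod_cast hq.two_le
  have hn1 : (1 : ℤ) ≤ n := by exact_mod_cast hn
  have hb0 : (0 : ℤ) ≤ b := Int.natCast_nonneg b
  have h4 : (4 : ℤ) ≤ 2 ^ k := by
    calc (4 : ℤ) = 2 ^ 2 := by norm_num
      _ ≤ 2 ^ k := pow_le_pow_right₀ (by norm_num) hk
  have h3 : (q : ℤ) < c e k (q * n + b) := by
    unfold c
    have h5 : (q : ℤ) ≤ q * n + b := by nlinarith
    rcases he with rfl | rfl
    · have h6 : 4 * ((q : ℤ) + 1) ≤ 2 ^ k * ((q : ℤ) * n + b + 1) := by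
        apply mul_le_mul h4 (by linarith) (by linarith) (by positivity)
      linarith
    · have h6 : 4 * ((q : ℤ) + -1) ≤ 2 ^ k * ((q : ℤ) * n + b + -1) := by
        apply mul_le_mul h4 (by linarith) (by linarith) (by positivity)
      linarith
  refine ⟨h1, h3, ?_⟩
  intro hp
  have h5 : q ∣ (c e k (q * n + b)).natAbs := Int.natCast_dvd.1 h1
  have h6 := (Nat.prime_dvd_prime_iff_eq hq hp).1 h5
  have h7 : ((c e k (q * n + b)).natAbs : ℤ) = c e k (q * n + b) :=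
    Int.natAbs_of_nonneg (by linarith)
  rw [← h6] at h7
  linarith

/-- **The law after primes for Cunningham chains of exact length `k`.** -/
theorem exact_law (e : ℤ) (he : e = 1 ∨ e = -1) (k q b : ℕ) (hk : 2 ≤ k) (hq : q.Prime)
    (hkq : 2 ^ k < q) (hb : (q : ℤ) ∣ c e k b) (θ δ : ℝ) (hθ : 0 < θ) (hδ : 0 < δ) (hδ1 : δ ≤ 1)
    (x₀ ε : ℝ) (hε : 0 < ε) (hε1 : ε ≤ 1) :
    (∀ n : ℕ, 1 ≤ n → (q : ℤ) ∣ c e k (q * n + b) ∧ ¬ (c e k (q * n + b)).natAbs.Prime) ∧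
    ∃ r₀ : ℕ, 2 ≤ r₀ ∧ ∀ r : ℕ, r₀ ≤ r → ∃ N₀ : ℕ, ∀ N : ℕ, N₀ ≤ N →
      ((∀ n : ℕ, n ≤ N → Good e k q b N r n →
          ∀ j < k, (c e j (q * n + b)).natAbs.primeFactorsList.length ≤ r) ∧
        0 < V e k q b N r) ∧
      ∀ X : ℕ, (N : ℝ) ^ θ ≤ X → ∀ u Y : ℕ, δ * X ≤ Y → u + Y ≤ X →
        |((P e k q b N r u Y).card : ℝ) * Real.log X - Y * (V e k q b N r / U N r)| ≤
          ε * (Y * (V e k q b N r / U N r)) ∧
        ∀ T : ℕ, T * V e k q b N r ≤ x₀ → ∀ S : Finset ℕ,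
        |(((P e k q b N r u Y).filter (fun n => Next e k q b N r T n ∈ S)).card : ℝ) -
          (P e k q b N r u Y).card *
            ∑ j ∈ S, Real.exp (-(T * V e k q b N r)) * (T * V e k q b N r) ^ j / j.factorial| ≤
          ε * (P e k q b N r u Y).card :=
  ⟨fun n hn => ⟨(comp_at e he k q b hk hq hb n hn).1, (comp_at e he k q b hk hq hb n hn).2.2⟩,
    law e he k q b hk hq.squarefree (cop_before e he k q b hq hkq hb) θ δ hθ hδ hδ1 x₀ ε hε hε1⟩

end Pool.Agent.V11237.LP.Chain
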