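import Pool.Agent.V11237.LP.Sgn
import Pool.Agent.V11237.LP.Window

set_option autoImplicit false

/-!
# Prime plus almost prime, for every even number: the number of the primes and the law after them
-/

namespace Pool.Agent.V11237.LP.GB

open Finset
open Pool.Agent.V11237.LP

/-- Neither `m` nor `n - m` has a prime factor `p ≤ n ^ (1 / r)`. -/
def Good (n r m : ℕ) : Prop :=
  ∀ p : ℕ, p.Prime → (p : ℝ) ≤ (n : ℝ) ^ (1 / (r : ℝ)) → ¬ p ∣ m ∧ ¬ (p : ℤ) ∣ (n : ℤ) - m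

open Classical in
/-- The good PRIMES in `(u, u + Y]`. -/
noncomputable def P (n r u Y : ℕ) : Finset ℕ :=
  (Ioc u (u + Y)).filter (fun p => p.Prime ∧ Good n r p)

open Classical in
/-- The number of the good `l` in `(m, m + T]`. -/
noncomputable def Next (n r T m : ℕ) : ℕ := ((Ioc m (m + T)).filter (fun l => Good n r l)).card

/-- The product over the primes `p ≤ n ^ (1 / r)` of `1 - 1 / p` if `p` divides `n` and of `1 - 2 / p`
otherwise. -/
noncomputable def V (n r : ℕ) : ℝ :=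
  ∏ p ∈ (Icc 1 ⌊(n : ℝ) ^ (1 / (r : ℝ))⌋₊).filter Nat.Prime, (1 - (if p ∣ n then 1 else 2) / (p : ℝ))

/-- The product of `1 - 1 / p` over the primes `p ≤ n ^ (1 / r)`. -/
noncomputable def U (n r : ℕ) : ℝ :=
  ∏ p ∈ (Icc 1 ⌊(n : ℝ) ^ (1 / (r : ℝ))⌋₊).filter Nat.Prime, (1 - 1 / (p : ℝ))

lemma good_eq (n r m : ℕ) : Sgn.Good (-1) (n : ℤ) n r m ↔ Good n r m := by
  unfold Sgn.Good Good
  refine forall_congr' fun p => forall_congr' fun _ => forall_congr' fun _ => ?_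
  rw [show (-1 : ℤ) * m + (n : ℤ) = n - m by ring]

lemma V_eq (n r : ℕ) : Sgn.V (n : ℤ) n r = V n r := by
  unfold Sgn.V V
  simp only [Int.natCast_dvd_natCast]

/-- **Prime plus almost prime for every large even number.** -/
theorem law (θ δ : ℝ) (hθ : 0 < θ) (hδ : 0 < δ) (hδ1 : δ ≤ 1) (x₀ ε : ℝ) (hε : 0 < ε) (hε1 : ε ≤ 1) :
    ∃ r₀ : ℕ, 2 ≤ r₀ ∧ ∀ r : ℕ, r₀ ≤ r → ∃ n₀ : ℕ, ∀ n : ℕ, n₀ ≤ n → Even n →
      (∀ m : ℕ, m ≤ n → Good n r m → (n - m).primeFactorsList.length ≤ r) ∧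
      0 < V n r ∧
      ∀ X : ℕ, (n : ℝ) ^ θ ≤ X → ∀ u Y : ℕ, δ * X ≤ Y → u + Y ≤ X →
      |((P n r u Y).card : ℝ) * Real.log X - Y * (V n r / U n r)| ≤ ε * (Y * (V n r / U n r)) ∧
      ∀ T : ℕ, T * V n r ≤ x₀ → ∀ S : Finset ℕ,
        |(((P n r u Y).filter (fun m => Next n r T m ∈ S)).card : ℝ) -
          (P n r u Y).card * ∑ j ∈ S, Real.exp (-(T * V n r)) * (T * V n r) ^ j / j.factorial| ≤
          ε * (P n r u Y).card := by
  classical
  obtain ⟨r0, hr0, h0⟩ := Sgn.law 1 (1 / 2) θ δ one_pos (by norm_num) hθ hδ hδ1 x₀ ε hε hε1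
  refine ⟨r0, hr0, ?_⟩
  intro r hr
  obtain ⟨N1, hN1⟩ := h0 r hr
  obtain ⟨N2, hN2⟩ := Window.few 1 r (hr0.trans hr)
  refine ⟨max (max N1 N2) 8, ?_⟩
  intro n hn hev
  have h1 : N1 ≤ n := (le_max_left N1 N2).trans ((le_max_left _ _).trans hn)
  have h2 : N2 ≤ n := (le_max_right N1 N2).trans ((le_max_left _ _).trans hn)
  have h8 : 8 ≤ n := (le_max_right _ _).trans hn
  have h8r : (8 : ℝ) ≤ n := by exact_mod_cast h8
  have hN0 : (1 : ℝ) < (n : ℝ) := by linarith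
  obtain ⟨g1, g2⟩ := hN1 n h1 (-1) (n : ℤ) (Or.inr rfl) ((Int.even_coe_nat n).2 hev) (by
      rw [Int.cast_natCast, abs_of_nonneg (Nat.cast_nonneg _)]
      calc (n : ℝ) ^ (1 / 2 : ℝ) < (n : ℝ) ^ (1 : ℝ) :=
            Real.rpow_lt_rpow_of_exponent_lt hN0 (by norm_num)
        _ = _ := Real.rpow_one _) (by
      rw [Int.cast_natCast, abs_of_nonneg (Nat.cast_nonneg _), Real.rpow_one])
  rw [V_eq] at g1
  refine ⟨?_, g1, ?_⟩
  · intro m hm hg
    apply hN2 n h2 (n - m) (by omega)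
    intro p hp hpz hd
    apply (hg p hp hpz).2
    have : ((n - m : ℕ) : ℤ) = n - m := Nat.cast_sub hm
    rw [← this]
    exact_mod_cast hd
  intro X hX u Y hY huY
  obtain ⟨g3, g4⟩ := g2 X hX u Y hY huY
  have hP : Sgn.P (-1) (n : ℤ) n r u Y = P n r u Y := by
    unfold Sgn.P P
    simp only [good_eq]
  have hW : ∀ T m, Sgn.Next (-1) (n : ℤ) n r T m = Next n r T m := by
    intro T m
    unfold Sgn.Next Next
    simp only [good_eq]
  have hU : Pool.Agent.V11237.LP.U n r = U n r := rfl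
  rw [hP, V_eq, hU] at g3
  refine ⟨g3, ?_⟩
  intro T hT S
  have g5 := g4 T (by rw [V_eq]; exact hT) S
  rw [hP, V_eq] at g5
  simp only [hW] at g5
  exact g5

end Pool.Agent.V11237.LP.GB
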