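import Pool.Agent.V11237.LP.Chain

set_option autoImplicit false

/-!
# Gap laws for linear systems and for chains
-/

namespace Pool.Agent.V11237.LP

open Finset Filter

variable {k : ℕ}

open Classical in
/-- The number of the good `m` in `(u, u + Y]` with fewer than `l` good integers in `[m - T, m)`. -/
noncomputable def G (A B : Fin k → ℤ) (N r l T u Y : ℕ) : ℕ :=
  ((Ioc u (u + Y)).filter (fun m => Good A B N r m ∧
    ((Ico (m - T) m).filter (fun s => Good A B N r s)).card < l)).card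

open Pool.Agent.TH464.PO Pool.Agent.TH464.PW Pool.Agent.W123.RU.Poly Pool.Agent.W123.RP
open Pool.Agent.H373R2.T7 Pool.Agent.Y879.GL Pool.Agent.Y879.PR

/-- **The gap laws for linear systems**, in all intervals `(u, u + Y]` with `Y ≥ N ^ θ`. -/
theorem gap_law (A B : Fin k → ℤ) (hk : 2 ≤ k) (hA : ∀ i, 0 < A i)
    (hcop : ∀ i, IsCoprime (A i) (B i)) (hinj : Function.Injective A)
    (hadm : ∀ p : ℕ, p.Prime → ∃ m : ℕ, ∀ i, ¬ (p : ℤ) ∣ A i * m + B i)
    (θ : ℝ) (hθ : 0 < θ) (l₀ : ℕ) (x₀ ε : ℝ) (hε : 0 < ε) :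
    ∃ r₀ : ℕ, 2 ≤ r₀ ∧ ∀ r : ℕ, r₀ ≤ r → ∃ N₀ : ℕ, ∀ N : ℕ, N₀ ≤ N →
      ∀ u Y : ℕ, (N : ℝ) ^ θ ≤ Y → ∀ l T : ℕ, (l ≤ l₀ ∨ T * V A B N r ≤ x₀) →
        |(G A B N r l T u Y : ℝ) - Y * V A B N r *
          ∑ j ∈ range l, Real.exp (-(T * V A B N r)) * (T * V A B N r) ^ j / j.factorial| ≤
        ε * (Y * V A B N r) := by
  classical
  obtain ⟨H, hH⟩ : ∃ H : ℝ, H = ∑ i, (|(A i : ℝ)| + |(B i : ℝ)|) + 1 := ⟨_, rfl⟩
  have hHA : ∀ i, |(A i : ℝ)| ≤ H ∧ |(B i : ℝ)| ≤ H := by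
    intro i
    have h1 : |(A i : ℝ)| + |(B i : ℝ)| ≤ ∑ i, (|(A i : ℝ)| + |(B i : ℝ)|) :=
      Finset.single_le_sum (f := fun i => |(A i : ℝ)| + |(B i : ℝ)|) (fun _ _ => by positivity)
        (mem_univ i)
    have h2 := abs_nonneg (A i : ℝ)
    have h3 := abs_nonneg (B i : ℝ)
    constructor <;> linarith
  obtain ⟨D, hD1, hD⟩ := two_classes A B ⟨0, by omega⟩ ⟨1, by omega⟩ hA hcop (by
    intro h
    have := hinj h
    simp at this)
  obtain ⟨r0, h0⟩ := gap_polys k 1 1 1 θ one_pos one_pos hθ l₀ x₀ ε hε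
  refine ⟨max r0 2, le_max_right _ _, ?_⟩
  intro r hr
  obtain ⟨M, hM, hV2⟩ := V2_up 1 one_pos r ((le_max_right _ _).trans hr)
  have hHN : ∀ᶠ N : ℕ in atTop, max H (max (D : ℝ) 1) ≤ (N : ℝ) ^ (1 : ℝ) :=
    ((tendsto_rpow_atTop one_pos).comp tendsto_natCast_atTop_atTop).eventually_ge_atTop _
  have hall := (h0 r ((le_max_left _ _).trans hr) M).and (hV2.and hHN)
  obtain ⟨N0, hN0⟩ := eventually_atTop.1 hall
  refine ⟨N0, ?_⟩
  intro N hN
  obtain ⟨c1, c2, c3⟩ := hN0 N hN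
  have hHN' : H ≤ (N : ℝ) ^ (1 : ℝ) := (le_max_left _ _).trans c3
  have hDN' : (D : ℝ) ≤ (N : ℝ) ^ (1 : ℝ) := (le_max_left _ _).trans ((le_max_right _ _).trans c3)
  have hus : US k 1 ((N : ℝ) ^ (1 : ℝ)) ((N : ℝ) ^ (1 : ℝ)) (sy A B) := by
    apply us_lf
    · exact fun i => (hA i).ne'
    · exact hcop
    · exact fun i => (hHA i).1.trans hHN'
    · exact fun i => (hHA i).2.trans hHN'
    · exact hadm
    · intro i j t ht _
      refine ⟨fun h => ?_, fun h => ?_⟩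
      · have h1 : i = j := hinj h.1
        subst h1
        have h2 := h.2
        have h3 : 0 < A i * t := mul_pos (hA i) (by exact_mod_cast ht)
        linarith
      · have h1 := h.1
        have := hA i
        have := hA j
        linarith
  intro u Y hY l T hlT
  have hVle : Vq (Q (sy A B)) ⌊(N : ℝ) ^ (1 / (r : ℝ))⌋₊ ≤ M / Real.log N := by
    apply c2 (Q (sy A B)) D
    · exact fun p hp => us_adm hus p hp
    · exact hD1
    · exact hDN'
    · intro p hp hpD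
      rw [nu_eq]
      exact hD p hp hpD
  have h := c1 (sy A B) hus hVle u Y hY l T (by rw [V_eq]; exact hlT)
  rw [V_eq] at h
  have hG : Pk (Sf (Q (sy A B)) ⌊(N : ℝ) ^ (1 / (r : ℝ))⌋₊) l T u Y = G A B N r l T u Y := by
    unfold Pk G
    simp only [good_iff]
  rw [hG] at h
  exact h

end Pool.Agent.V11237.LP

namespace Pool.Agent.V11237.LP.Chain

open Finset Filter
open Pool.Agent.V11237

open Classical in
/-- The number of the good `n` in `(u, u + Y]` with fewer than `l` good integers in `[n - T, n)`. -/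
noncomputable def G (e : ℤ) (k a b N r l T u Y : ℕ) : ℕ :=
  ((Ioc u (u + Y)).filter (fun n => Good e k a b N r n ∧
    ((Ico (n - T) n).filter (fun s => Good e k a b N r s)).card < l)).card

lemma G_eq (e : ℤ) (k a b N r l T u Y : ℕ) :
    LP.G (cA k a) (cB e k b) N r l T u Y = G e k a b N r l T u Y := by
  classical
  unfold LP.G G
  congr 1
  ext n
  simp only [mem_filter, good_iff]

/-- **The gap laws for Cunningham chains**, in all intervals `(u, u + Y]` with `Y ≥ N ^ θ`. -/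
theorem gaps (e : ℤ) (he : e = 1 ∨ e = -1) (k a b : ℕ) (hk : 2 ≤ k) (ha : 0 < a)
    (hb : ∀ j < k, IsCoprime (c e j b) (a : ℤ)) (θ : ℝ) (hθ : 0 < θ) (l₀ : ℕ) (x₀ ε : ℝ)
    (hε : 0 < ε) :
    ∃ r₀ : ℕ, 2 ≤ r₀ ∧ ∀ r : ℕ, r₀ ≤ r → ∃ N₀ : ℕ, ∀ N : ℕ, N₀ ≤ N →
      ∀ u Y : ℕ, (N : ℝ) ^ θ ≤ Y → ∀ l T : ℕ, (l ≤ l₀ ∨ T * V e k a b N r ≤ x₀) →
        |(G e k a b N r l T u Y : ℝ) - Y * V e k a b N r *
          ∑ j ∈ range l, Real.exp (-(T * V e k a b N r)) * (T * V e k a b N r) ^ j / j.factorial| ≤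
        ε * (Y * V e k a b N r) := by
  have haz : (0 : ℤ) < a := by exact_mod_cast ha
  have heu : IsUnit e := by
    rcases he with rfl | rfl
    · exact isUnit_one
    · exact isUnit_one.neg
  have he2 : ∀ j : ℕ, ∀ x : ℤ, IsCoprime ((2 : ℤ) ^ j) (2 ^ j * x - e) := by
    intro j x
    obtain ⟨y, hy⟩ := heu.exists_right_inv
    refine ⟨x * y, -y, ?_⟩
    have : x * y * 2 ^ j + -y * (2 ^ j * x - e) = e * y := by ring
    rw [this, hy]
  have h := LP.gap_law (cA k a) (cB e k b) hk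
    (fun j => by unfold cA; positivity)
    (fun j => by
      unfold cA
      apply IsCoprime.mul_left (he2 j _)
      exact (hb j j.2).symm)
    (fun i j hij => by
      unfold cA at hij
      have h1 : (2 : ℤ) ^ (i : ℕ) = 2 ^ (j : ℕ) := mul_right_cancel₀ haz.ne' hij
      have h2 : (2 : ℕ) ^ (i : ℕ) = 2 ^ (j : ℕ) := by exact_mod_cast h1
      exact Fin.ext (Nat.pow_right_injective (le_refl 2) h2))
    (fun p hp => by
      have hpi : Prime (p : ℤ) := Nat.prime_iff_prime_int.1 hp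
      by_cases hpa : (p : ℤ) ∣ a
      · refine ⟨0, fun j hj => ?_⟩
        rw [form] at hj
        simp only [Nat.cast_zero, mul_zero, zero_add] at hj
        exact hpi.not_isUnit ((hb j j.2).isUnit_of_dvd' hj hpa)
      · obtain ⟨x, y, hxy⟩ := (hpi.coprime_iff_not_dvd.2 hpa).symm
        have hp0 : (p : ℤ) ≠ 0 := by exact_mod_cast hp.ne_zero
        refine ⟨((-(x * (b + e))) % (p : ℤ)).toNat, fun j hj => ?_⟩
        rw [form, Int.toNat_of_nonneg (Int.emod_nonneg _ hp0)] at hj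
        have e3 := Int.emod_add_mul_ediv (-(x * (b + e))) (p : ℤ)
        have e4 : (-(x * (b + e))) % (p : ℤ) =
            -(x * (b + e)) - p * ((-(x * (b + e))) / (p : ℤ)) := by linarith
        rw [e4] at hj
        unfold c at hj
        have e5 : (p : ℤ) ∣ e := by
          obtain ⟨w, hw⟩ := hj
          refine ⟨-w + 2 ^ (j : ℕ) * (-(a * ((-(x * (b + e))) / (p : ℤ))) + y * (b + e)), ?_⟩
          linear_combination (-1 : ℤ) * hw + (-(2 : ℤ) ^ (j : ℕ) * (b + e)) * hxy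
        exact hpi.not_isUnit (isUnit_of_dvd_unit e5 heu))
    θ hθ l₀ x₀ ε hε
  simp only [V_eq, G_eq] at h
  exact h

end Pool.Agent.V11237.LP.Chain
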