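import Pool.Agent.Y879.GL.Prog2
import Pool.Agent.V11237.LP.Pt

set_option autoImplicit false

/-!
# Almost prime pairs `m`, `f - m` in short intervals: their number and the laws of their gaps
-/

namespace Pool.Agent.V11237.LP.Gold

open Finset Filter

/-- Neither `m` nor `f - m` has a prime factor `p ≤ X ^ (1 / r)`. -/
def Good (f X r m : ℕ) : Prop :=
  ∀ p : ℕ, p.Prime → (p : ℝ) ≤ (X : ℝ) ^ (1 / (r : ℝ)) → ¬ p ∣ m ∧ ¬ (p : ℤ) ∣ (f : ℤ) - m

open Classical in
/-- The number of the good `m` in `(u, u + Y]` with fewer than `l` good integers in `[m - T, m)`. -/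
noncomputable def G (f X r l T u Y : ℕ) : ℕ :=
  ((Ioc u (u + Y)).filter (fun m => Good f X r m ∧
    ((Ico (m - T) m).filter (fun s => Good f X r s)).card < l)).card

open Classical in
/-- The density of the good integers: the product over the primes `p ≤ X ^ (1 / r)` of `1 - 1 / p` if
`p` divides `f` and of `1 - 2 / p` otherwise. -/
noncomputable def V (f X r : ℕ) : ℝ :=
  ∏ p ∈ (Icc 1 ⌊(X : ℝ) ^ (1 / (r : ℝ))⌋₊).filter Nat.Prime,
    (1 - (if p ∣ f then 1 else 2) / (p : ℝ))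

open Pool.Agent.TH464.PO Pool.Agent.W123.RU.Poly Pool.Agent.W123.RP Pool.Agent.H373R2.T7
open Pool.Agent.Y879.AP Pool.Agent.Y879.GL

lemma good_iff (f X r m : ℕ) :
    Sf (Q (pf (-1) f 1 0)) ⌊(X : ℝ) ^ (1 / (r : ℝ))⌋₊ m ↔ Good f X r m := by
  have h0 : (0 : ℝ) ≤ (X : ℝ) ^ (1 / (r : ℝ)) := by positivity
  have key : ∀ p : ℕ, p.Prime → (Q (pf (-1) f 1 0) p m ↔
      (p ∣ m ∨ (p : ℤ) ∣ (f : ℤ) - m)) := by
    intro p hp
    have hpi : Prime (p : ℤ) := Nat.prime_iff_prime_int.1 hp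
    rw [pf_Q (-1) f 1 0 p m hp]
    unfold Q2
    rw [hpi.dvd_mul]
    apply or_congr
    · rw [Int.natCast_dvd_natCast, add_zero, one_mul]
    · push_cast
      rw [show (-1 : ℤ) * (1 * (m : ℤ) + 0) + f = f - m by ring]
  constructor
  · intro h p hp hpX
    have h1 := h p (mem_pz.2 ⟨Nat.le_floor hpX, hp⟩)
    rw [key p hp, not_or] at h1
    exact h1
  · intro h p hp
    obtain ⟨h1, h2⟩ := mem_pz.1 hp
    rw [key p h2, not_or]
    exact h p h2 ((Nat.le_floor_iff h0).1 h1)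

lemma V_eq (f X r : ℕ) :
    Vq (Qn (Q2 (-1) f) 1) ⌊(X : ℝ) ^ (1 / (r : ℝ))⌋₊ = V f X r := by
  classical
  unfold Vq V pz
  apply Finset.prod_congr rfl
  intro p hp
  have hpp : p.Prime := (mem_filter.1 hp).2
  rw [nuB_Qn_not _ _ _ (by intro h; exact hpp.one_lt.ne' (Nat.dvd_one.1 h)),
    nuB_Q2 (-1) f (by norm_num) p hpp]
  unfold nu2
  simp only [Int.natCast_dvd_natCast]
  split_ifs <;> norm_num

lemma few {f X r m : ℕ} (hr : 1 ≤ r) (hX : 1 < X) (hg : Good f X r m) (hm : m ≤ X)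
    (hfm : |(f : ℤ) - m| ≤ X) :
    m.primeFactorsList.length ≤ r ∧ ((f : ℤ) - m).natAbs.primeFactorsList.length ≤ r := by
  have hX1 : (1 : ℝ) < X := by exact_mod_cast hX
  have hr0 : (0 : ℝ) < r := by exact_mod_cast hr
  have hz1 : (1 : ℝ) < (X : ℝ) ^ (1 / (r : ℝ)) := Real.one_lt_rpow hX1 (by positivity)
  have hpow : ((X : ℝ) ^ (1 / (r : ℝ))) ^ r = X := by
    rw [← Real.rpow_natCast, ← Real.rpow_mul (by linarith), one_div, inv_mul_cancel₀ hr0.ne',
      Real.rpow_one]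
  constructor
  · rcases Nat.eq_zero_or_pos m with rfl | hm0
    · simp
    · apply few_of_rough _ hz1 m r (by omega)
      · rw [hpow]
        exact_mod_cast hm
      · intro q hq hqm
        by_contra hcon
        rw [not_lt] at hcon
        exact (hg q hq hcon).1 hqm
  · rcases eq_or_ne ((f : ℤ) - m) 0 with h0 | h0
    · rw [h0]
      simp
    · apply few_of_rough _ hz1 _ r (by rwa [Ne, Int.natAbs_eq_zero])
      · rw [hpow]
        have : (((f : ℤ) - m).natAbs : ℤ) ≤ X := by rwa [Int.natCast_natAbs]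
        exact_mod_cast this
      · intro q hq hqm
        by_contra hcon
        rw [not_lt] at hcon
        exact (hg q hq hcon).2 (Int.natCast_dvd.2 hqm)

/-- **The gap laws for the pairs `m`, `f - m`**, `f` between `X` and `X ^ 2`. -/
theorem gaps (θ : ℝ) (hθ : 0 < θ) (l₀ : ℕ) (x₀ ε : ℝ) (hε : 0 < ε) :
    ∃ r₀ : ℕ, 2 ≤ r₀ ∧ ∀ r : ℕ, r₀ ≤ r → ∃ X₀ : ℕ, ∀ X : ℕ, X₀ ≤ X → ∀ f : ℕ, Even f →
      X ≤ f → f ≤ X ^ 2 → ∀ u Y : ℕ, (X : ℝ) ^ θ ≤ Y → ∀ l T : ℕ, (l ≤ l₀ ∨ T * V f X r ≤ x₀) →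
        |(G f X r l T u Y : ℝ) - Y * V f X r *
          ∑ j ∈ range l, Real.exp (-(T * V f X r)) * (T * V f X r) ^ j / j.factorial| ≤
        ε * (Y * V f X r) := by
  classical
  obtain ⟨r0, h0⟩ := prog2_gap 2 (1 / 2) θ (by norm_num) (by norm_num) hθ l₀ x₀ ε hε
  refine ⟨max r0 2, le_max_right _ _, ?_⟩
  intro r hr
  obtain ⟨X0, hX0⟩ := eventually_atTop.1 (h0 r ((le_max_left _ _).trans hr))
  refine ⟨max X0 4, ?_⟩
  intro X hX f hf hXf hfX u Y hY l T hlT
  have hX4 : 4 ≤ X := (le_max_right _ _).trans hX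
  have hXr : (4 : ℝ) ≤ X := by exact_mod_cast hX4
  have hfR : (X : ℝ) ≤ f := by exact_mod_cast hXf
  have h := hX0 X ((le_max_left _ _).trans hX) (-1) f 1 0 (by norm_num) (by exact_mod_cast hf)
    (by exact_mod_cast (by omega : f ≠ 0))
    (by
      rw [Int.cast_natCast, abs_of_nonneg (by positivity)]
      have : (f : ℝ) ≤ (X : ℝ) ^ 2 := by exact_mod_cast hfX
      rw [← Real.rpow_natCast] at this
      exact_mod_cast this)
    le_rfl
    (by
      rw [Nat.cast_one]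
      exact Real.one_le_rpow (by linarith) (by norm_num))
    (by
      rw [Nat.cast_zero]
      positivity)
    (by norm_num) (by simpa using isCoprime_one_left)
    (by
      intro t ht htX heq
      have h1 : (f : ℤ) = t ∨ (f : ℤ) = -t := by
        rcases sq_eq_sq_iff_eq_or_eq_neg.1 heq with h3 | h3
        · left; simpa using h3
        · right; simpa using h3
      have h2 : (f : ℝ) = t := by
        rcases h1 with h1 | h1
        · exact_mod_cast h1
        · have : (0 : ℤ) < f := by exact_mod_cast (by omega : 0 < f)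
          omega
      have h3 : (X : ℝ) ^ (1 / 2 : ℝ) < X := by
        calc (X : ℝ) ^ (1 / 2 : ℝ) < (X : ℝ) ^ (1 : ℝ) :=
              Real.rpow_lt_rpow_of_exponent_lt (by linarith) (by norm_num)
          _ = X := Real.rpow_one _
      linarith)
    u Y hY l T (by rw [V_eq]; exact hlT)
  rw [V_eq] at h
  have hG : Pk (Sf (Q (pf (-1) f 1 0)) ⌊(X : ℝ) ^ (1 / (r : ℝ))⌋₊) l T u Y = G f X r l T u Y := by
    unfold Pk G
    simp only [good_iff]
  rw [hG] at h
  exact h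

end Pool.Agent.V11237.LP.Gold
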