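import Pool.Agent.Y879.PR.Full
import Pool.Agent.Y879.GL.Linear
import Pool.Agent.Y879.GL.Pattern

set_option autoImplicit false

/-!
# The law after primes for systems of linear forms with different leading coefficients
-/

namespace Pool.Agent.V11237.LP

open Finset Filter

variable {k : ℕ}

/-- `m` is good: none of the numbers `A i m + B i` has a prime factor `p ≤ N ^ (1 / r)`. -/
def Good (A B : Fin k → ℤ) (N r m : ℕ) : Prop :=
  ∀ p : ℕ, p.Prime → (p : ℝ) ≤ (N : ℝ) ^ (1 / (r : ℝ)) → ∀ i, ¬ (p : ℤ) ∣ A i * m + B i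

open Classical in
/-- The good `m` in `(u, u + Y]` for which `a m + b` is PRIME. -/
noncomputable def P (A B : Fin k → ℤ) (a b N r u Y : ℕ) : Finset ℕ :=
  (Ioc u (u + Y)).filter (fun m => (a * m + b).Prime ∧ Good A B N r m)

open Classical in
/-- The number of the good `l` in `(m, m + T]`. -/
noncomputable def Next (A B : Fin k → ℤ) (N r T m : ℕ) : ℕ :=
  ((Ioc m (m + T)).filter (fun l => Good A B N r l)).card

open Classical in
/-- The number of the residues `m` modulo `p` for which `p` divides one of the `A i m + B i`. -/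
noncomputable def nu (A B : Fin k → ℤ) (p : ℕ) : ℕ :=
  ((range p).filter (fun m : ℕ => ∃ i, (p : ℤ) ∣ A i * m + B i)).card

/-- The density of the good integers: the product of `1 - nu p / p` over the primes
`p ≤ N ^ (1 / r)`. -/
noncomputable def V (A B : Fin k → ℤ) (N r : ℕ) : ℝ :=
  ∏ p ∈ (Icc 1 ⌊(N : ℝ) ^ (1 / (r : ℝ))⌋₊).filter Nat.Prime, (1 - (nu A B p : ℝ) / p)

/-- The product of `1 - 1 / p` over the primes `p ≤ N ^ (1 / r)`. -/
noncomputable def U (N r : ℕ) : ℝ :=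
  ∏ p ∈ (Icc 1 ⌊(N : ℝ) ^ (1 / (r : ℝ))⌋₊).filter Nat.Prime, (1 - 1 / (p : ℝ))

open Pool.Agent.TH464.PO Pool.Agent.TH464.PW Pool.Agent.W123.RU.Poly Pool.Agent.W123.RP
open Pool.Agent.H373R2.T7 Pool.Agent.Y879.GL Pool.Agent.Y879.PR

/-- the system -/
noncomputable def sy (A B : Fin k → ℤ) : Fin k → Polynomial ℤ := fun i => lf (A i) (B i)

lemma sy_Q (A B : Fin k → ℤ) (p m : ℕ) : Q (sy A B) p m ↔ ∃ i, (p : ℤ) ∣ A i * m + B i := by
  unfold Q sy
  simp only [lf_eval]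

lemma good_iff (A B : Fin k → ℤ) (N r m : ℕ) :
    Sf (Q (sy A B)) ⌊(N : ℝ) ^ (1 / (r : ℝ))⌋₊ m ↔ Good A B N r m := by
  have h0 : (0 : ℝ) ≤ (N : ℝ) ^ (1 / (r : ℝ)) := by positivity
  constructor
  · intro h p hp hpX i hi
    exact h p (mem_pz.2 ⟨Nat.le_floor hpX, hp⟩) ((sy_Q A B p m).2 ⟨i, hi⟩)
  · intro h p hp hq
    obtain ⟨h1, h2⟩ := mem_pz.1 hp
    obtain ⟨i, hi⟩ := (sy_Q A B p m).1 hq
    exact h p h2 ((Nat.le_floor_iff h0).1 h1) i hi

lemma nu_eq (A B : Fin k → ℤ) (p : ℕ) : nuB (Q (sy A B)) p = nu A B p := by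
  classical
  unfold nuB nu
  congr 1
  apply Finset.filter_congr
  intro m _
  exact sy_Q A B p m

lemma V_eq (A B : Fin k → ℤ) (N r : ℕ) :
    Vq (Q (sy A B)) ⌊(N : ℝ) ^ (1 / (r : ℝ))⌋₊ = V A B N r := by
  unfold Vq V pz
  simp only [nu_eq]

lemma U_eq (N r : ℕ) : Vz ⌊(N : ℝ) ^ (1 / (r : ℝ))⌋₊ = U N r := rfl

/-- few prime factors -/
lemma few (c d : ℤ) (hc : 0 < c) (r : ℕ) (hr : 1 ≤ r) : ∃ N₀ : ℕ, ∀ N : ℕ, N₀ ≤ N → ∀ m : ℕ, m ≤ N →
    (∀ p : ℕ, p.Prime → (p : ℝ) ≤ (N : ℝ) ^ (1 / (r : ℝ)) → ¬ (p : ℤ) ∣ c * m + d) →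
    (c * m + d).natAbs.primeFactorsList.length ≤ r := by
  have hr0 : (0 : ℝ) < r := by exact_mod_cast hr
  have h1 : ∀ᶠ N : ℕ in atTop, (c : ℝ) + |(d : ℝ)| + 2 ≤ (N : ℝ) ^ (1 / (r : ℝ)) :=
    ((tendsto_rpow_atTop (by positivity)).comp tendsto_natCast_atTop_atTop).eventually_ge_atTop _
  obtain ⟨N0, hN0⟩ := eventually_atTop.1 (h1.and (eventually_ge_atTop 1))
  refine ⟨N0, ?_⟩
  intro N hN m hm hg
  obtain ⟨h2, h3⟩ := hN0 N hN
  have hcR : (1 : ℝ) ≤ c := by exact_mod_cast hc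
  have hdR : (0 : ℝ) ≤ |(d : ℝ)| := abs_nonneg _
  have hN1 : (1 : ℝ) ≤ N := by exact_mod_cast h3
  have hz1 : (1 : ℝ) < (N : ℝ) ^ (1 / (r : ℝ)) := by linarith
  by_cases h0 : c * m + d = 0
  · rw [h0]
    simp
  · have hpow : ((N : ℝ) ^ (1 / (r : ℝ))) ^ r = N := by
      rw [← Real.rpow_natCast, ← Real.rpow_mul (by linarith), one_div, inv_mul_cancel₀ hr0.ne',
        Real.rpow_one]
    have hlt : (((c * m + d).natAbs : ℕ) : ℝ) < ((N : ℝ) ^ (1 / (r : ℝ))) ^ (r + 1) := by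
      rw [pow_succ, hpow]
      have e1 : (((c * m + d).natAbs : ℕ) : ℝ) = |(c : ℝ) * m + d| := by
        rw [Nat.cast_natAbs]
        push_cast
        rfl
      rw [e1]
      have hmN : (m : ℝ) ≤ N := by exact_mod_cast hm
      have hm0 : (0 : ℝ) ≤ m := Nat.cast_nonneg _
      have e2 : |(c : ℝ) * m + d| ≤ c * m + |(d : ℝ)| := by
        refine (abs_add_le _ _).trans ?_
        rw [abs_of_nonneg (by positivity : (0 : ℝ) ≤ c * m)]
      calc |(c : ℝ) * m + d| ≤ c * m + |(d : ℝ)| := e2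
        _ ≤ c * N + |(d : ℝ)| * N := by
            have h5 : (c : ℝ) * m ≤ c * N := mul_le_mul_of_nonneg_left hmN (by linarith)
            have h6 : |(d : ℝ)| * 1 ≤ |(d : ℝ)| * N := mul_le_mul_of_nonneg_left hN1 hdR
            linarith
        _ < N * (c + |(d : ℝ)| + 2) := by nlinarith
        _ ≤ N * (N : ℝ) ^ (1 / (r : ℝ)) := mul_le_mul_of_nonneg_left h2 (by linarith)
    by_contra hcon
    rw [not_le] at hcon
    have hprod : ∀ l : List ℕ, (∀ p ∈ l, (N : ℝ) ^ (1 / (r : ℝ)) ≤ p) →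
        ((N : ℝ) ^ (1 / (r : ℝ))) ^ l.length ≤ ((l.prod : ℕ) : ℝ) := by
      intro l
      induction l with
      | nil => intro _; simp
      | cons a t ih =>
        intro hl
        rw [List.length_cons, pow_succ, List.prod_cons, Nat.cast_mul, mul_comm]
        exact mul_le_mul (hl a (by simp)) (ih (fun p hp => hl p (by simp [hp]))) (by positivity)
          (Nat.cast_nonneg _)
    have h6 := hprod (c * m + d).natAbs.primeFactorsList (fun p hp => by
      by_contra hc'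
      rw [not_le] at hc'
      refine hg p (Nat.prime_of_mem_primeFactorsList hp) hc'.le ?_
      exact Int.natCast_dvd.2 (Nat.dvd_of_mem_primeFactorsList hp))
    rw [Nat.prod_primeFactorsList (by rwa [Ne, Int.natAbs_eq_zero])] at h6
    have h7 : ((N : ℝ) ^ (1 / (r : ℝ))) ^ (r + 1) ≤
        ((N : ℝ) ^ (1 / (r : ℝ))) ^ (c * m + d).natAbs.primeFactorsList.length :=
      pow_le_pow_right₀ hz1.le hcon
    linarith

/-- two forms with different leading coefficients have different roots modulo most primes -/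
lemma two_classes (A B : Fin k → ℤ) (i j : Fin k) (hA : ∀ i, 0 < A i) (hcop : ∀ i, IsCoprime (A i) (B i))
    (hij : A i ≠ A j) : ∃ D : ℕ, 1 ≤ D ∧ ∀ p : ℕ, p.Prime → ¬ p ∣ D → 2 ≤ nu A B p := by
  classical
  have hR : A i * B j - A j * B i ≠ 0 := by
    intro h
    have h1 : A i * B j = A j * B i := by linarith
    have h2 : A i ∣ A j := (hcop i).dvd_of_dvd_mul_right (Dvd.intro _ h1)
    have h3 : A j ∣ A i := (hcop j).dvd_of_dvd_mul_right (Dvd.intro _ h1.symm)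
    exact hij (Int.dvd_antisymm (hA i).le (hA j).le h2 h3)
  refine ⟨(A i * A j * (A i * B j - A j * B i)).natAbs, ?_, ?_⟩
  · exact Nat.one_le_iff_ne_zero.2 (by
      rw [Ne, Int.natAbs_eq_zero]
      exact mul_ne_zero (mul_ne_zero (hA i).ne' (hA j).ne') hR)
  · intro p hp hpD
    have hpD' : ¬ (p : ℤ) ∣ A i * A j * (A i * B j - A j * B i) := fun h => hpD (Int.natCast_dvd.1 h)
    have hpi : Prime (p : ℤ) := Nat.prime_iff_prime_int.1 hp
    have h1 : ¬ (p : ℤ) ∣ A i := fun h => hpD' ((h.mul_right _).mul_right _)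
    have h2 : ¬ (p : ℤ) ∣ A j := fun h => hpD' ((h.mul_left _).mul_right _)
    have h3 : ¬ (p : ℤ) ∣ A i * B j - A j * B i := fun h => hpD' (h.mul_left _)
    have root : ∀ s : Fin k, ¬ (p : ℤ) ∣ A s → ∃ c ∈ Finset.range p, (p : ℤ) ∣ A s * (c : ℕ) + B s := by
      intro s hs
      obtain ⟨x, y, hxy⟩ := (hpi.coprime_iff_not_dvd.2 hs).symm
      -- x * A s + y * p = 1
      have hp0 : (p : ℤ) ≠ 0 := by exact_mod_cast hp.ne_zero
      have hppos : (0 : ℤ) < p := by exact_mod_cast hp.pos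
      refine ⟨((-(x * B s)) % (p : ℤ)).toNat, ?_, ?_⟩
      · rw [Finset.mem_range]
        have e1 := Int.emod_lt_of_pos (-(x * B s)) hppos
        have e2 := Int.emod_nonneg (-(x * B s)) hp0
        omega
      · rw [Int.toNat_of_nonneg (Int.emod_nonneg _ hp0)]
        have e3 := Int.emod_add_mul_ediv (-(x * B s)) (p : ℤ)
        refine ⟨-(A s * ((-(x * B s)) / (p : ℤ))) + y * B s, ?_⟩
        have e4 : (-(x * B s)) % (p : ℤ) = -(x * B s) - p * ((-(x * B s)) / (p : ℤ)) := by linarith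
        rw [e4]
        linear_combination (-(B s)) * hxy
    obtain ⟨c, hc, hcd⟩ := root i h1
    obtain ⟨c', hc', hcd'⟩ := root j h2
    have hne : c ≠ c' := by
      rintro rfl
      apply h3
      have e1 := (hcd.mul_left (A j))
      have e2 := (hcd'.mul_left (A i))
      have e3 := dvd_sub e2 e1
      have e4 : A i * (A j * (c : ℤ) + B j) - A j * (A i * (c : ℤ) + B i) =
          A i * B j - A j * B i := by ring
      rwa [e4] at e3
    unfold nu
    calc 2 = ({c, c'} : Finset ℕ).card := (card_pair hne).symm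
      _ ≤ _ := by
        apply card_le_card
        intro x hx
        rw [mem_insert, mem_singleton] at hx
        rw [mem_filter]
        rcases hx with rfl | rfl
        · exact ⟨hc, i, hcd⟩
        · exact ⟨hc', j, hcd'⟩

/-- **The law after primes for linear systems.** Let `A i m + B i`, `i < k`, `k ≥ 2`, be linear forms
with different positive leading coefficients, `gcd (A i, B i) = 1`, without fixed prime divisor, and let
one of them be `a m + b` with `a` squarefree, `a ∣ A i` for all `i`. -/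
theorem law (A B : Fin k → ℤ) (a b : ℕ) (hk : 2 ≤ k) (hA : ∀ i, 0 < A i)
    (hcop : ∀ i, IsCoprime (A i) (B i)) (hinj : Function.Injective A) (ha : Squarefree a)
    (hbase : ∃ i, A i = a ∧ B i = b) (hdvd : ∀ i, (a : ℤ) ∣ A i)
    (hadm : ∀ p : ℕ, p.Prime → ∃ m : ℕ, ∀ i, ¬ (p : ℤ) ∣ A i * m + B i)
    (θ δ : ℝ) (hθ : 0 < θ) (hδ : 0 < δ) (hδ1 : δ ≤ 1) (x₀ ε : ℝ) (hε : 0 < ε) (hε1 : ε ≤ 1) :
    ∃ r₀ : ℕ, 2 ≤ r₀ ∧ ∀ r : ℕ, r₀ ≤ r → ∃ N₀ : ℕ, ∀ N : ℕ, N₀ ≤ N →
      ((∀ m : ℕ, m ≤ N → Good A B N r m → ∀ i, (A i * m + B i).natAbs.primeFactorsList.length ≤ r) ∧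
        0 < V A B N r) ∧
      ∀ X : ℕ, (N : ℝ) ^ θ ≤ X → ∀ u Y : ℕ, δ * X ≤ Y → u + Y ≤ X →
        |((P A B a b N r u Y).card : ℝ) * Real.log X - Y * (V A B N r / U N r)| ≤
          ε * (Y * (V A B N r / U N r)) ∧
        ∀ T : ℕ, T * V A B N r ≤ x₀ → ∀ S : Finset ℕ,
        |(((P A B a b N r u Y).filter (fun m => Next A B N r T m ∈ S)).card : ℝ) -
          (P A B a b N r u Y).card *
            ∑ j ∈ S, Real.exp (-(T * V A B N r)) * (T * V A B N r) ^ j / j.factorial| ≤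
          ε * (P A B a b N r u Y).card := by
  classical
  -- heights
  obtain ⟨H, hH⟩ : ∃ H : ℝ, H = ∑ i, (|(A i : ℝ)| + |(B i : ℝ)|) + 1 := ⟨_, rfl⟩
  have hHA : ∀ i, |(A i : ℝ)| ≤ H ∧ |(B i : ℝ)| ≤ H := by
    intro i
    have h1 : |(A i : ℝ)| + |(B i : ℝ)| ≤ ∑ i, (|(A i : ℝ)| + |(B i : ℝ)|) :=
      Finset.single_le_sum (f := fun i => |(A i : ℝ)| + |(B i : ℝ)|) (fun _ _ => by positivity)
        (mem_univ i)
    have h2 := abs_nonneg (A i : ℝ)
    have h3 := abs_nonneg (B i : ℝ)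
    constructor <;> linarith
  obtain ⟨i0, hi0a, hi0b⟩ := hbase
  have hapos : 0 < a := Nat.pos_of_ne_zero ha.ne_zero
  have hab : Nat.Coprime a b := by
    have h1 := hcop i0
    rw [hi0a, hi0b] at h1
    exact Nat.isCoprime_iff_coprime.1 h1
  obtain ⟨D, hD1, hD⟩ := two_classes A B ⟨0, by omega⟩ ⟨1, by omega⟩ hA hcop (by
    intro h
    have := hinj h
    simp at this)
  obtain ⟨r0, hr0, h0⟩ := prime_full a k 1 ha 1 1 θ δ one_pos one_pos hθ hδ hδ1 x₀ ε hε hε1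
  refine ⟨r0, hr0, ?_⟩
  intro r hr
  obtain ⟨M, hM, hV2⟩ := V2_up 1 one_pos r (hr0.trans hr)
  have hfew : ∃ N₁ : ℕ, ∀ N : ℕ, N₁ ≤ N → ∀ m : ℕ, m ≤ N → Good A B N r m →
      ∀ i, (A i * m + B i).natAbs.primeFactorsList.length ≤ r := by
    have h1 : ∀ i, ∃ N₀ : ℕ, ∀ N : ℕ, N₀ ≤ N → ∀ m : ℕ, m ≤ N → Good A B N r m →
        (A i * m + B i).natAbs.primeFactorsList.length ≤ r := by
      intro i
      obtain ⟨N0, hN0⟩ := few (A i) (B i) (hA i) r (by omega)
      exact ⟨N0, fun N hN m hm hg => hN0 N hN m hm (fun p hp hpz => hg p hp hpz i)⟩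
    choose F hF using h1
    refine ⟨∑ i, F i, fun N hN m hm hg i => hF i N ?_ m hm hg⟩
    exact (Finset.single_le_sum (f := F) (fun _ _ => Nat.zero_le _) (mem_univ i)).trans hN
  obtain ⟨N1, hN1⟩ := hfew
  have hHN : ∀ᶠ N : ℕ in atTop, max H (max (D : ℝ) 1) ≤ (N : ℝ) ^ (1 : ℝ) :=
    ((tendsto_rpow_atTop one_pos).comp tendsto_natCast_atTop_atTop).eventually_ge_atTop _
  have hbN : ∀ᶠ N : ℕ in atTop, (b : ℝ) ≤ (N : ℝ) ^ (θ / 4) :=
    ((tendsto_rpow_atTop (by positivity)).comp tendsto_natCast_atTop_atTop).eventually_ge_atTop _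
  have hall := (h0 r hr M).and (hV2.and (hHN.and (hbN.and (eventually_ge_atTop N1))))
  obtain ⟨N0, hN0⟩ := eventually_atTop.1 hall
  refine ⟨N0, ?_⟩
  intro N hN
  obtain ⟨c1, c2, c3, c4, c5⟩ := hN0 N hN
  have hHN' : H ≤ (N : ℝ) ^ (1 : ℝ) := (le_max_left _ _).trans c3
  have hDN' : (D : ℝ) ≤ (N : ℝ) ^ (1 : ℝ) := (le_max_left _ _).trans ((le_max_right _ _).trans c3)
  have hus : US k 1 ((N : ℝ) ^ (1 : ℝ)) ((N : ℝ) ^ (1 : ℝ)) (sy A B) := by
    apply us_lf
    · exact fun i => (hA i).ne'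
    · exact hcop
    · exact fun i => (hHA i).1.trans hHN'
    · exact fun i => (hHA i).2.trans hHN'
    · exact hadm
    · intro i j t ht _
      refine ⟨fun h => ?_, fun h => ?_⟩
      · have h1 : i = j := hinj h.1
        subst h1
        have h2 := h.2
        have h3 : 0 < A i * t := mul_pos (hA i) (by exact_mod_cast ht)
        linarith
      · have h1 := h.1
        have := hA i
        have := hA j
        linarith
  have hVpos : 0 < V A B N r := by
    rw [← V_eq]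
    unfold Vq
    apply Finset.prod_pos
    intro p hp
    have hpp : p.Prime := (mem_pz.1 hp).2
    have h1 := us_adm hus p hpp
    have h2 : (0 : ℝ) < p := by exact_mod_cast hpp.pos
    rw [sub_pos, div_lt_one h2]
    exact_mod_cast h1
  refine ⟨⟨hN1 N c5, hVpos⟩, ?_⟩
  intro X hX u Y hY huY
  have hVle : Vq (Q (sy A B)) ⌊(N : ℝ) ^ (1 / (r : ℝ))⌋₊ ≤ M / Real.log N := by
    apply c2 (Q (sy A B)) D
    · exact fun p hp => us_adm hus p hp
    · exact hD1
    · exact hDN'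
    · intro p hp hpD
      rw [nu_eq]
      exact hD p hp hpD
  obtain ⟨g1, g2⟩ := c1 (sy A B) b hus hab (by
      intro p n hp hpa hq
      obtain ⟨i, hi⟩ := (sy_Q A B p n).1 hq
      have h1 : (p : ℤ) ∣ A i := (Int.natCast_dvd_natCast.2 hpa).trans (hdvd i)
      have h2 : (p : ℤ) ∣ B i := by
        have := dvd_sub hi (h1.mul_right (n : ℤ))
        simpa using this
      exact (Nat.prime_iff_prime_int.1 hp).not_isUnit ((hcop i).isUnit_of_dvd' h1 h2))
    ⟨i0, fun n => by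
      unfold sy
      rw [lf_eval, hi0a, hi0b]⟩ hVle c4 X hX u Y hY huY
  have hOm : Om a b (Q (sy A B)) ⌊(N : ℝ) ^ (1 / (r : ℝ))⌋₊ u Y = P A B a b N r u Y := by
    unfold Om P
    simp only [good_iff]
  have hW : ∀ n, Wc (Sf (Q (sy A B)) ⌊(N : ℝ) ^ (1 / (r : ℝ))⌋₊) n = fun T => Next A B N r T n := by
    intro n
    funext T
    unfold Wc Next
    simp only [good_iff]
  rw [hOm, V_eq, U_eq] at g1
  refine ⟨g1, fun T hT S => ?_⟩
  have g3 := g2 T (by rw [V_eq]; exact hT) S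
  rw [hOm, V_eq] at g3
  simp only [hW] at g3
  exact g3

end Pool.Agent.V11237.LP
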