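import Pool.Agent.V11237.LP.Unif
import Pool.Agent.Y879.GL.QuadU

set_option autoImplicit false

/-!
# One progression `q k + a`, uniformly in the modulus: the gap laws
-/

namespace Pool.Agent.V11237.LP.One

open Finset Filter

/-- No prime `p ≤ N ^ (1 / r)` divides `q k + a`. -/
def Good (q a N r k : ℕ) : Prop :=
  ∀ p : ℕ, p.Prime → (p : ℝ) ≤ (N : ℝ) ^ (1 / (r : ℝ)) → ¬ p ∣ q * k + a

open Classical in
/-- The number of the good `k` in `(u, u + Y]` with fewer than `l` good integers in `[k - T, k)`. -/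
noncomputable def G (q a N r l T u Y : ℕ) : ℕ :=
  ((Ioc u (u + Y)).filter (fun k => Good q a N r k ∧
    ((Ico (k - T) k).filter (fun t => Good q a N r t)).card < l)).card

/-- The product of `1 - 1 / p` over the primes `p ≤ N ^ (1 / r)` not dividing `q`. -/
noncomputable def V (q N r : ℕ) : ℝ :=
  ∏ p ∈ (Icc 1 ⌊(N : ℝ) ^ (1 / (r : ℝ))⌋₊).filter (fun p => p.Prime ∧ ¬ p ∣ q), (1 - 1 / (p : ℝ))

open Pool.Agent.TH464.PO Pool.Agent.TH464.PW Pool.Agent.W123.RU.Poly Pool.Agent.W123.RP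
open Pool.Agent.H373R2.T7 Pool.Agent.Y879.GL

/-- the system -/
noncomputable def sy (q a : ℕ) : Fin 1 → Polynomial ℤ := fun _ => lf q a

lemma sy_Q (q a p k : ℕ) : Q (sy q a) p k ↔ p ∣ q * k + a := by
  unfold Q sy
  rw [exists_const, lf_eval]
  have : ((q : ℤ) * (k : ℤ) + (a : ℤ)) = ((q * k + a : ℕ) : ℤ) := by push_cast; ring
  rw [this, Int.natCast_dvd_natCast]

lemma good_iff (q a N r k : ℕ) :
    Sf (Q (sy q a)) ⌊(N : ℝ) ^ (1 / (r : ℝ))⌋₊ k ↔ Good q a N r k := by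
  have h0 : (0 : ℝ) ≤ (N : ℝ) ^ (1 / (r : ℝ)) := by positivity
  constructor
  · intro h p hp hpX hd
    exact h p (mem_pz.2 ⟨Nat.le_floor hpX, hp⟩) ((sy_Q q a p k).2 hd)
  · intro h p hp hd
    obtain ⟨h1, h2⟩ := mem_pz.1 hp
    exact h p h2 ((Nat.le_floor_iff h0).1 h1) ((sy_Q q a p k).1 hd)

lemma nu_one (q a p : ℕ) (hp : p.Prime) (hq : ¬ p ∣ q) : nuB (Q (sy q a)) p = 1 := by
  classical
  have : Fact p.Prime := ⟨hp⟩
  have hq0 : (q : ZMod p) ≠ 0 := fun h => hq ((ZMod.natCast_eq_zero_iff q p).1 h)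
  unfold nuB
  rw [Finset.card_eq_one]
  refine ⟨(-(a : ZMod p) / q).val, ?_⟩
  ext k
  rw [mem_filter, mem_range, mem_singleton, sy_Q, ← ZMod.natCast_eq_zero_iff]
  push_cast
  constructor
  · rintro ⟨h1, h2⟩
    have h3 : (k : ZMod p) = -(a : ZMod p) / q := by
      rw [eq_div_iff hq0]
      linear_combination h2
    rw [← h3, ZMod.val_natCast, Nat.mod_eq_of_lt h1]
  · intro h1
    refine ⟨by rw [h1]; exact ZMod.val_lt _, ?_⟩
    rw [h1, ZMod.natCast_val, ZMod.cast_id]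
    field_simp
    ring

lemma nu_zero (q a p : ℕ) (hp : p.Prime) (hq : p ∣ q) (hc : Nat.Coprime q a) :
    nuB (Q (sy q a)) p = 0 := by
  classical
  unfold nuB
  rw [Finset.card_eq_zero, Finset.filter_eq_empty_iff]
  intro k _ h
  rw [sy_Q] at h
  have h1 : p ∣ a := (Nat.dvd_add_right (hq.mul_right k)).1 h
  exact hp.one_lt.ne' (Nat.dvd_one.1 (hc ▸ Nat.dvd_gcd hq h1))

lemma V_eq (q a N r : ℕ) (hc : Nat.Coprime q a) :
    Vq (Q (sy q a)) ⌊(N : ℝ) ^ (1 / (r : ℝ))⌋₊ = V q N r := by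
  classical
  unfold Vq V pz
  rw [← Finset.filter_filter, Finset.prod_filter (fun p => ¬ p ∣ q)]
  apply Finset.prod_congr rfl
  intro p hp
  have hpp : p.Prime := (mem_filter.1 hp).2
  by_cases hq : p ∣ q
  · rw [nu_zero q a p hpp hq hc, if_neg (not_not.2 hq)]
    simp
  · rw [nu_one q a p hpp hq, if_pos hq]
    simp

lemma Vpos (q N r : ℕ) : 0 < V q N r := by
  unfold V
  apply Finset.prod_pos
  intro p hp
  have h1 := (mem_filter.1 hp).2.1.one_lt
  have h2 : (1 : ℝ) < p := by exact_mod_cast h1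
  rw [sub_pos, div_lt_one (by linarith)]
  exact h2

/-- `V` is at most `(q / φ(q))` times the product over all primes -/
lemma V_le (q N r : ℕ) (hq : 1 ≤ q) :
    V q N r * ((q.totient : ℝ) / q) ≤ Vz ⌊(N : ℝ) ^ (1 / (r : ℝ))⌋₊ := by
  classical
  obtain ⟨y, hy⟩ : ∃ y, y = ⌊(N : ℝ) ^ (1 / (r : ℝ))⌋₊ := ⟨_, rfl⟩
  have hq0 : (q : ℝ) ≠ 0 := by exact_mod_cast (by omega : q ≠ 0)
  have htot : ((q.totient : ℝ) / q) = ∏ p ∈ q.primeFactors, (1 - 1 / (p : ℝ)) := by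
    have h := Nat.totient_eq_mul_prod_factors q
    have h2 : ((q.totient : ℚ) : ℝ) = ((q * ∏ p ∈ q.primeFactors, (1 - (p : ℚ)⁻¹) : ℚ) : ℝ) := by
      rw [h]
    push_cast at h2
    rw [h2, mul_div_cancel_left₀ _ hq0]
    simp only [one_div]
  have hfac : ∀ p : ℕ, p.Prime → 0 < 1 - 1 / (p : ℝ) ∧ 1 - 1 / (p : ℝ) ≤ 1 := by
    intro p hp
    have h2 : (1 : ℝ) < p := by exact_mod_cast hp.one_lt
    constructor
    · rw [sub_pos, div_lt_one (by linarith)]
      exact h2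
    · have : 0 ≤ 1 / (p : ℝ) := by positivity
      linarith
  rw [htot]
  unfold V Vz
  rw [← hy]
  have hsplit : ∏ p ∈ pz y, (1 - 1 / (p : ℝ)) =
      (∏ p ∈ (Icc 1 y).filter (fun p => p.Prime ∧ ¬ p ∣ q), (1 - 1 / (p : ℝ))) *
        ∏ p ∈ (Icc 1 y).filter (fun p => p.Prime ∧ p ∣ q), (1 - 1 / (p : ℝ)) := by
    rw [← Finset.prod_union]
    · apply Finset.prod_congr _ (fun _ _ => rfl)
      unfold pz
      ext p
      simp only [mem_filter, mem_union]
      tauto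
    · rw [Finset.disjoint_left]
      intro p hp1 hp2
      exact (mem_filter.1 hp1).2.2 (mem_filter.1 hp2).2.2
  rw [hsplit]
  apply mul_le_mul_of_nonneg_left _ (Finset.prod_nonneg fun p hp => (hfac p (mem_filter.1 hp).2.1).1.le)
  have hsub : (Icc 1 y).filter (fun p => p.Prime ∧ p ∣ q) ⊆ q.primeFactors := by
    intro p hp
    obtain ⟨_, h1, h2⟩ := mem_filter.1 hp
    exact Nat.mem_primeFactors.2 ⟨h1, h2, by omega⟩
  rw [← Finset.prod_sdiff hsub]
  apply mul_le_of_le_one_left (Finset.prod_nonneg fun p hp => (hfac p (mem_filter.1 hp).2.1).1.le)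
  apply Finset.prod_le_one
  · intro p hp
    exact (hfac p (Nat.prime_of_mem_primeFactors (mem_sdiff.1 hp).1)).1.le
  · intro p hp
    exact (hfac p (Nat.prime_of_mem_primeFactors (mem_sdiff.1 hp).1)).2

/-- **The gap laws in progressions, uniformly in the modulus and the class.** -/
theorem gaps (A θ : ℝ) (hA : 0 < A) (hθ : 0 < θ) (l₀ : ℕ) (x₀ ε : ℝ) (hε : 0 < ε) :
    ∃ r₀ : ℕ, 2 ≤ r₀ ∧ ∀ r : ℕ, r₀ ≤ r → ∀ B : ℝ, ∃ N₀ : ℕ, ∀ N : ℕ, N₀ ≤ N → ∀ q a : ℕ,
      1 ≤ q → (q : ℝ) ≤ (N : ℝ) ^ A → (a : ℝ) ≤ (N : ℝ) ^ A → Nat.Coprime q a →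
      (q : ℝ) ≤ B * q.totient → ∀ u Y : ℕ, (N : ℝ) ^ θ ≤ Y →
      ∀ l T : ℕ, (l ≤ l₀ ∨ T * V q N r ≤ x₀) →
        |(G q a N r l T u Y : ℝ) - Y * V q N r *
          ∑ j ∈ range l, Real.exp (-(T * V q N r)) * (T * V q N r) ^ j / j.factorial| ≤
        ε * (Y * V q N r) := by
  classical
  obtain ⟨r0, h0⟩ := gap_polys 1 1 A 1 θ hA one_pos hθ l₀ x₀ ε hε
  refine ⟨max r0 2, le_max_right _ _, ?_⟩
  intro r hr B
  obtain ⟨C, hC, hVz⟩ := Vz_up r ((le_max_right _ _).trans hr)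
  obtain ⟨N0, hN0⟩ := eventually_atTop.1 ((h0 r ((le_max_left _ _).trans hr) (|B| * C)).and
    (hVz.and (eventually_ge_atTop 2)))
  refine ⟨N0, ?_⟩
  intro N hN q a hq hqN haN hc hB u Y hY l T hT
  obtain ⟨c1, ⟨_, c2⟩, c3⟩ := hN0 N hN
  have hN1 : (1 : ℝ) ≤ N := by exact_mod_cast (by omega : 1 ≤ N)
  have hus : US 1 1 ((N : ℝ) ^ A) ((N : ℝ) ^ (1 : ℝ)) (sy q a) := by
    refine us_single (lf q a) ?_ ?_ 1 ?_ _ _ ?_ ?_
    · exact lf_irr _ _ (by exact_mod_cast (by omega : q ≠ 0)) (Nat.isCoprime_iff_coprime.2 hc)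
    · rw [lf_deg _ _ (by exact_mod_cast (by omega : q ≠ 0))]
      norm_num
    · rw [lf_deg _ _ (by exact_mod_cast (by omega : q ≠ 0))]
    · intro n
      rw [lf_coeff]
      split_ifs
      · simpa using haN
      · simpa using hqN
      · simpa using (by positivity : (0 : ℝ) ≤ (N : ℝ) ^ A)
    · intro p hp
      by_cases hpa : p ∣ a
      · refine ⟨1, fun h => ?_⟩
        rw [lf_eval] at h
        have h1 : p ∣ q * 1 + a := by exact_mod_cast h
        have h2 : p ∣ q := by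
          have := (Nat.dvd_add_left hpa).1 h1
          rwa [mul_one] at this
        exact hp.one_lt.ne' (Nat.dvd_one.1 (hc ▸ Nat.dvd_gcd h2 hpa))
      · refine ⟨0, fun h => hpa ?_⟩
        rw [lf_eval] at h
        have h1 : p ∣ q * 0 + a := by exact_mod_cast h
        rwa [mul_zero, zero_add] at h1
  have hV := V_eq q a N r hc
  have hq1 : (0 : ℝ) < q := by exact_mod_cast hq
  have htot : (0 : ℝ) < q.totient := by exact_mod_cast Nat.totient_pos.2 (by omega)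
  have hlog : 0 < Real.log N := Real.log_pos (by exact_mod_cast (by omega : 1 < N))
  have hVle : Vq (Q (sy q a)) ⌊(N : ℝ) ^ (1 / (r : ℝ))⌋₊ ≤ |B| * C / Real.log N := by
    rw [hV]
    have h1 := V_le q N r hq
    have h2 : V q N r = V q N r * ((q.totient : ℝ) / q) * (q / q.totient) := by
      field_simp
    have h3 : (q : ℝ) / q.totient ≤ |B| := by
      rw [div_le_iff₀ htot]
      exact hB.trans (mul_le_mul_of_nonneg_right (le_abs_self B) htot.le)
    rw [h2]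
    calc V q N r * ((q.totient : ℝ) / q) * (q / q.totient) ≤ (C / Real.log N) * |B| := by
          apply mul_le_mul (h1.trans c2) h3 (by positivity) (by positivity)
      _ = |B| * C / Real.log N := by ring
  have key := c1 (sy q a) hus hVle u Y hY l T (by rw [hV]; exact hT)
  rw [hV] at key
  have hG : Pk (Sf (Q (sy q a)) ⌊(N : ℝ) ^ (1 / (r : ℝ))⌋₊) l T u Y = G q a N r l T u Y := by
    unfold Pk G
    simp only [good_iff]
  rw [hG] at key
  exact key

end Pool.Agent.V11237.LP.One
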