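import Pool.Agent.Y879.PR.Inst

set_option autoImplicit false

/-!
# Almost prime triples and quadruples: the primes in them, and the law after these primes
-/

namespace Pool.Agent.V11237.LP.PP

open Finset

variable {k : ℕ}

/-- No `m + h i` has a prime factor `p ≤ N ^ (1 / r)`. -/
def Good (h : Fin k → ℕ) (N r m : ℕ) : Prop :=
  ∀ p : ℕ, p.Prime → (p : ℝ) ≤ (N : ℝ) ^ (1 / (r : ℝ)) → ∀ i, ¬ p ∣ m + h i

/-- The product of `1 - k / p` over the primes `5 < p ≤ N ^ (1 / r)`. -/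
noncomputable def V (k N r : ℕ) : ℝ :=
  ∏ p ∈ (Ioc 5 ⌊(N : ℝ) ^ (1 / (r : ℝ))⌋₊).filter Nat.Prime, (1 - (k : ℝ) / p)

/-- The product of `1 - 1 / p` over the primes `p ≤ N ^ (1 / r)`. -/
noncomputable def U (N r : ℕ) : ℝ :=
  ∏ p ∈ (Icc 1 ⌊(N : ℝ) ^ (1 / (r : ℝ))⌋₊).filter Nat.Prime, (1 - 1 / (p : ℝ))

open Classical in
/-- The good `m` in `(A, A + L]` for which `m + h i` is PRIME. -/
noncomputable def P (h : Fin k → ℕ) (N r : ℕ) (i : Fin k) (A L : ℕ) : Finset ℕ :=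
  (Ioc A (A + L)).filter (fun m => (m + h i).Prime ∧ Good h N r m)

open Classical in
/-- The number of the good `l` in `(m, m + 30 T]` in the residue class of `m` modulo `30`. -/
noncomputable def Next (h : Fin k → ℕ) (N r T m : ℕ) : ℕ :=
  ((Ioc m (m + 30 * T)).filter (fun l => l % 30 = m % 30 ∧ Good h N r l)).card

lemma dvd30 (p : ℕ) (hp : p.Prime) : p ∣ 30 ↔ p ≤ 5 := by
  constructor
  · intro h
    have h4 := Nat.le_of_dvd (by norm_num) h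
    interval_cases p <;> revert hp h <;> norm_num
  · intro h
    have h2 := hp.two_le
    interval_cases p <;> revert hp <;> norm_num

lemma prod_pnu (k z : ℕ) :
    ∏ p ∈ (Icc 1 z).filter Nat.Prime, (1 - (Pool.Agent.Y879.PR.pnu 30 k p : ℝ) / p) =
      ∏ p ∈ (Ioc 5 z).filter Nat.Prime, (1 - (k : ℝ) / p) := by
  symm
  have hsub : (Ioc 5 z).filter Nat.Prime ⊆ (Icc 1 z).filter Nat.Prime := by
    intro p hp
    rw [mem_filter, mem_Ioc] at hp
    rw [mem_filter, mem_Icc]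
    exact ⟨⟨hp.2.one_lt.le, hp.1.2⟩, hp.2⟩
  rw [← Finset.prod_subset hsub]
  · apply Finset.prod_congr rfl
    intro p hp
    rw [mem_filter, mem_Ioc] at hp
    unfold Pool.Agent.Y879.PR.pnu
    rw [if_neg]
    rw [dvd30 p hp.2]
    omega
  · intro p hp hp2
    rw [mem_filter, mem_Icc] at hp
    rw [mem_filter, mem_Ioc] at hp2
    have hpy : p ≤ 5 := by
      by_contra hcon
      exact hp2 ⟨⟨by omega, hp.1.2⟩, hp.2⟩
    unfold Pool.Agent.Y879.PR.pnu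
    rw [if_pos ((dvd30 p hp.2).2 hpy)]
    simp

lemma V_eq (k N r : ℕ) : Pool.Agent.Y879.PR.PV 30 k N r = V k N r := prod_pnu k _

lemma W_eq (k N r : ℕ) : Pool.Agent.Y879.PR.PW 30 k N r = V k N r / U N r := by
  unfold Pool.Agent.Y879.PR.PW U
  rw [Finset.prod_div_distrib, prod_pnu]
  rfl

/-- **The law after primes for one shape.** -/
theorem law {h : Fin k → ℕ} {C : Finset ℕ} (hP : Pool.Agent.Y879.PR.Pat2 30 h C) (hC : C.Nonempty)
    (θ δ : ℝ) (hθ : 0 < θ) (hδ : 0 < δ) (hδ1 : δ ≤ 1) (x₀ ε : ℝ) (hε : 0 < ε) (hε1 : ε ≤ 1) :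
    ∃ r₀ : ℕ, 2 ≤ r₀ ∧ ∀ r : ℕ, r₀ ≤ r → ∃ N₀ : ℕ, ∀ N : ℕ, N₀ ≤ N →
      ((∀ m : ℕ, m ≤ N → Good h N r m → ∀ i, (m + h i).primeFactorsList.length ≤ r) ∧
        (∀ m : ℕ, (N : ℝ) ^ (1 / (r : ℝ)) < m → (∀ i, (m + h i).Prime) → Good h N r m) ∧
        0 < V k N r / U N r) ∧
      ∀ (i : Fin k) (X : ℕ), (N : ℝ) ^ θ ≤ X → ∀ A L : ℕ, δ * X ≤ L → A + L ≤ X →
        |((P h N r i A L).card : ℝ) * Real.log X - C.card / 30 * (L * (V k N r / U N r))| ≤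
          ε * (C.card / 30 * (L * (V k N r / U N r))) ∧
        ∀ T : ℕ, T * V k N r ≤ x₀ → ∀ B : Finset ℕ,
        |(((P h N r i A L).filter (fun m => Next h N r T m ∈ B)).card : ℝ) -
          (P h N r i A L).card *
            ∑ j ∈ B, Real.exp (-(T * V k N r)) * (T * V k N r) ^ j / j.factorial| ≤
          ε * (P h N r i A L).card := by
  obtain ⟨r0, hr0, H⟩ := Pool.Agent.Y879.PR.pat_main hP hC θ δ hθ hδ hδ1 x₀ ε hε hε1
  refine ⟨r0, hr0, ?_⟩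
  intro r hr
  obtain ⟨N0, hN0⟩ := H r hr
  refine ⟨N0, ?_⟩
  intro N hN
  obtain ⟨a1, a2, a3, -, -, a6⟩ := hN0 N hN
  rw [W_eq] at a3
  refine ⟨⟨a1, a2, a3⟩, ?_⟩
  intro i X hX A L hL hAL
  obtain ⟨b1, b2⟩ := a6 i X hX A L hL hAL
  have e : (C.card : ℝ) * (L / ((30 : ℕ) : ℝ) * Pool.Agent.Y879.PR.PW 30 k N r) =
      C.card / 30 * (L * (V k N r / U N r)) := by
    rw [W_eq]
    push_cast
    ring
  rw [e] at b1
  refine ⟨b1, fun T hT B => ?_⟩
  have b3 := b2 T (by rw [V_eq]; exact hT) B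
  rw [V_eq] at b3
  exact b3

lemma ratio {a b l S t ε : ℝ} (hl : 0 < l) (hS : 0 < S) (ht : 0 ≤ t) (hε : 0 < ε) (hε1 : ε ≤ 1)
    (ht2 : t ≤ 2) (h1 : |a * l - S| ≤ ε / 8 * S) (h2 : |b * l - t * S| ≤ ε / 8 * (t * S)) :
    |b - t * a| ≤ ε * a := by
  obtain ⟨c1, c2⟩ := abs_le.1 h1
  obtain ⟨d1, d2⟩ := abs_le.1 h2
  have e1 : S ≤ 2 * (a * l) := by nlinarith
  have e2 : |(b - t * a) * l| ≤ ε / 2 * S := by
    have h3 : (b - t * a) * l = (b * l - t * S) - t * (a * l - S) := by ring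
    rw [h3]
    calc |(b * l - t * S) - t * (a * l - S)| ≤ |b * l - t * S| + |t * (a * l - S)| := abs_sub _ _
      _ ≤ ε / 8 * (t * S) + t * (ε / 8 * S) := by
        rw [abs_mul, abs_of_nonneg ht]
        exact add_le_add h2 (mul_le_mul_of_nonneg_left h1 ht)
      _ = t * (ε / 4 * S) := by ring
      _ ≤ 2 * (ε / 4 * S) := mul_le_mul_of_nonneg_right ht2 (by positivity)
      _ = ε / 2 * S := by ring
  rw [abs_mul, abs_of_pos hl] at e2
  have e3 : |b - t * a| * l ≤ ε * a * l := by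
    calc |b - t * a| * l ≤ ε / 2 * S := e2
      _ ≤ ε / 2 * (2 * (a * l)) := mul_le_mul_of_nonneg_left e1 (by positivity)
      _ = ε * a * l := by ring
  exact le_of_mul_le_mul_right e3 hl

end Pool.Agent.V11237.LP.PP
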