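import Pool.Agent.V11237.LP.PP

set_option autoImplicit false

/-!
# Two shapes at once
-/

namespace Pool.Agent.V11237.LP.PP

open Finset Filter

variable {k : ℕ}

/-- **The laws of two shapes.** -/
theorem two {h : Fin 2 → Fin k → ℕ} {C : Fin 2 → Finset ℕ}
    (hP : ∀ s, Pool.Agent.Y879.PR.Pat2 30 (h s) (C s)) (hC : ∀ s, (C s).Nonempty) {c : Fin 2 → ℝ}
    (hc : ∀ s, ((C s).card : ℝ) = c s) (hc2 : c 1 ≤ 2 * c 0)
    (θ δ : ℝ) (hθ : 0 < θ) (hδ : 0 < δ) (hδ1 : δ ≤ 1) (x₀ ε : ℝ) (hε : 0 < ε) (hε1 : ε ≤ 1) :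
    ∃ r₀ : ℕ, 2 ≤ r₀ ∧ ∀ r : ℕ, r₀ ≤ r → ∃ N₀ : ℕ, ∀ N : ℕ, N₀ ≤ N →
      (∀ s, (∀ m : ℕ, m ≤ N → Good (h s) N r m → ∀ i, (m + h s i).primeFactorsList.length ≤ r) ∧
        (∀ m : ℕ, (N : ℝ) ^ (1 / (r : ℝ)) < m → (∀ i, (m + h s i).Prime) → Good (h s) N r m)) ∧
      0 < V k N r / U N r ∧
      ∀ X : ℕ, (N : ℝ) ^ θ ≤ X → ∀ A L : ℕ, δ * X ≤ L → A + L ≤ X →
        (∀ s i, |((P (h s) N r i A L).card : ℝ) * Real.log X - c s / 30 * (L * (V k N r / U N r))| ≤
          ε * (c s / 30 * (L * (V k N r / U N r)))) ∧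
        (∀ i j, |((P (h 1) N r j A L).card : ℝ) - c 1 / c 0 * (P (h 0) N r i A L).card| ≤
          ε * (P (h 0) N r i A L).card) ∧
        ∀ s i, ∀ T : ℕ, T * V k N r ≤ x₀ → ∀ B : Finset ℕ,
        |(((P (h s) N r i A L).filter (fun m => Next (h s) N r T m ∈ B)).card : ℝ) -
          (P (h s) N r i A L).card *
            ∑ j ∈ B, Real.exp (-(T * V k N r)) * (T * V k N r) ^ j / j.factorial| ≤
          ε * (P (h s) N r i A L).card := by
  have H := fun s => law (hP s) (hC s) θ δ hθ hδ hδ1 x₀ (ε / 8) (by positivity) (by linarith)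
  choose r0 hr0 H using H
  refine ⟨r0 0 + r0 1, by have := hr0 0; omega, ?_⟩
  intro r hr
  have hrs : ∀ s, r0 s ≤ r := by
    intro s
    fin_cases s
    · exact (Nat.le_add_right _ _).trans hr
    · exact (Nat.le_add_left _ _).trans hr
  have H' := fun s => H s r (hrs s)
  choose N0 H' using H'
  obtain ⟨N2, hN2⟩ := eventually_atTop.1
    (((tendsto_rpow_atTop hθ).comp tendsto_natCast_atTop_atTop).eventually_ge_atTop (3 : ℝ))
  refine ⟨N0 0 + N0 1 + N2, ?_⟩
  intro N hN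
  have hNs : ∀ s, N0 s ≤ N := by
    intro s
    fin_cases s
    · simp only [Fin.zero_eta]; omega
    · simp only [Fin.mk_one]; omega
  have K := fun s => H' s N (hNs s)
  have hcpos : ∀ s, 0 < c s := by
    intro s
    rw [← hc s]
    exact_mod_cast Finset.card_pos.2 (hC s)
  refine ⟨fun s => ⟨(K s).1.1, (K s).1.2.1⟩, (K 0).1.2.2, ?_⟩
  intro X hX A L hL hAL
  have hVU := (K 0).1.2.2
  have hX3 : (3 : ℝ) ≤ X := (hN2 N (by omega)).trans hX
  have hlog : 0 < Real.log X := Real.log_pos (by linarith)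
  have hL0 : (0 : ℝ) < L := lt_of_lt_of_le (by positivity) hL
  have hcount : ∀ s i, |((P (h s) N r i A L).card : ℝ) * Real.log X -
      c s / 30 * (L * (V k N r / U N r))| ≤ ε / 8 * (c s / 30 * (L * (V k N r / U N r))) := by
    intro s i
    have h1 := ((K s).2 i X hX A L hL hAL).1
    rw [hc s] at h1
    exact h1
  refine ⟨?_, ?_, ?_⟩
  · intro s i
    refine (hcount s i).trans ?_
    apply mul_le_mul_of_nonneg_right (by linarith)
    have := hcpos s
    positivity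
  · intro i j
    have h0 := hcount 0 i
    have h1 := hcount 1 j
    have hc0 := hcpos 0
    have hc1 := hcpos 1
    have e1 : c 1 / 30 * (L * (V k N r / U N r)) =
        c 1 / c 0 * (c 0 / 30 * (L * (V k N r / U N r))) := by
      field_simp
    rw [e1] at h1
    exact ratio hlog (by positivity) (by positivity) hε hε1 (by rw [div_le_iff₀ hc0]; exact hc2) h0 h1
  · intro s i T hT B
    refine (((K s).2 i X hX A L hL hAL).2 T hT B).trans ?_
    apply mul_le_mul_of_nonneg_right (by linarith) (Nat.cast_nonneg _)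

end Pool.Agent.V11237.LP.PP
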