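import Pool.Agent.Y879.PR.Full
import Pool.Agent.Y879.PR.VBase
import Pool.Agent.Y879.GL.Pattern

set_option autoImplicit false

/-!
# Primes `q` with `F(q)` almost prime: their number and the law after them, uniformly in `F`
-/

namespace Pool.Agent.V11237.LP.PolyPair

open Polynomial Finset Filter

/-- No prime `p ≤ N ^ (1 / r)` divides `m` or `F(m)`. -/
def Good (F : ℤ[X]) (N r m : ℕ) : Prop :=
  ∀ p : ℕ, p.Prime → (p : ℝ) ≤ (N : ℝ) ^ (1 / (r : ℝ)) → ¬ p ∣ m ∧ ¬ (p : ℤ) ∣ F.eval (m : ℤ)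

open Classical in
/-- The good PRIMES in `(u, u + Y]`. -/
noncomputable def P (F : ℤ[X]) (N r u Y : ℕ) : Finset ℕ :=
  (Ioc u (u + Y)).filter (fun q => q.Prime ∧ Good F N r q)

open Classical in
/-- The number of the good integers in `(q, q + T]`. -/
noncomputable def Next (F : ℤ[X]) (N r T q : ℕ) : ℕ :=
  ((Ioc q (q + T)).filter (fun m => Good F N r m)).card

open Classical in
/-- The density of the good integers: the product over the primes `p ≤ N ^ (1 / r)` of `1 - ν(p) / p`,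
with `ν(p)` the number of the residues `m` modulo `p` for which `p` divides `m` or `F(m)`. -/
noncomputable def V (F : ℤ[X]) (N r : ℕ) : ℝ :=
  ∏ p ∈ (Icc 1 ⌊(N : ℝ) ^ (1 / (r : ℝ))⌋₊).filter Nat.Prime,
    (1 - (((range p).filter (fun m : ℕ => p ∣ m ∨ (p : ℤ) ∣ F.eval (m : ℤ))).card : ℝ) / p)

/-- The product of `1 - 1 / p` over the primes `p ≤ N ^ (1 / r)`. -/
noncomputable def U (N r : ℕ) : ℝ :=
  ∏ p ∈ (Icc 1 ⌊(N : ℝ) ^ (1 / (r : ℝ))⌋₊).filter Nat.Prime, (1 - 1 / (p : ℝ))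

open Pool.Agent.TH464.PO Pool.Agent.TH464.PW Pool.Agent.W123.RU.Poly Pool.Agent.W123.RP
open Pool.Agent.H373R2.T7 Pool.Agent.Y879.GL Pool.Agent.Y879.PR

/-- the system -/
noncomputable def sy (F : ℤ[X]) : Fin 2 → ℤ[X] := ![X, F]

lemma sy_Q (F : ℤ[X]) (p m : ℕ) : Q (sy F) p m ↔ (p ∣ m ∨ (p : ℤ) ∣ F.eval (m : ℤ)) := by
  unfold Q sy
  rw [Fin.exists_fin_two]
  simp only [Matrix.cons_val_zero, Matrix.cons_val_one, Matrix.cons_val_fin_one, eval_X]
  rw [Int.natCast_dvd_natCast]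

lemma good_iff (F : ℤ[X]) (N r m : ℕ) :
    Sf (Q (sy F)) ⌊(N : ℝ) ^ (1 / (r : ℝ))⌋₊ m ↔ Good F N r m := by
  have h0 : (0 : ℝ) ≤ (N : ℝ) ^ (1 / (r : ℝ)) := by positivity
  constructor
  · intro h p hp hpX
    have h1 := h p (mem_pz.2 ⟨Nat.le_floor hpX, hp⟩)
    rw [sy_Q, not_or] at h1
    exact h1
  · intro h p hp
    obtain ⟨h1, h2⟩ := mem_pz.1 hp
    rw [sy_Q, not_or]
    exact h p h2 ((Nat.le_floor_iff h0).1 h1)

lemma V_eq (F : ℤ[X]) (N r : ℕ) : Vq (Q (sy F)) ⌊(N : ℝ) ^ (1 / (r : ℝ))⌋₊ = V F N r := by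
  classical
  unfold Vq V pz
  apply Finset.prod_congr rfl
  intro p _
  have : nuB (Q (sy F)) p =
      ((range p).filter (fun m : ℕ => p ∣ m ∨ (p : ℤ) ∣ F.eval (m : ℤ))).card := by
    unfold nuB
    congr 1
    apply Finset.filter_congr
    intro m _
    exact sy_Q F p m
  rw [this]

lemma U_eq (N r : ℕ) : Vz ⌊(N : ℝ) ^ (1 / (r : ℝ))⌋₊ = U N r := rfl

/-- admissible polynomials: irreducible, of degree between `2` and `D`, with coefficients at most `H`,
and `x F(x)` has no fixed prime divisor -/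
structure Adm (D : ℕ) (H : ℝ) (F : ℤ[X]) : Prop where
  irr : Irreducible F
  two : 2 ≤ F.natDegree
  deg : F.natDegree ≤ D
  hgt : ∀ n, |((F.coeff n : ℤ) : ℝ)| ≤ H
  adm : ∀ p : ℕ, p.Prime → ∃ m : ℕ, ¬ p ∣ m ∧ ¬ (p : ℤ) ∣ F.eval (m : ℤ)

lemma Adm.us {D : ℕ} {H U : ℝ} {F : ℤ[X]} (h : Adm D H F) (hD : 1 ≤ D) (hH : 1 ≤ H) :
    US 2 D H U (sy F) where
  irr i := by
    fin_cases i
    · exact irreducible_X
    · exact h.irr
  deg i := by
    fin_cases i
    · change (X : ℤ[X]).natDegree ≠ 0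
      rw [natDegree_X]
      norm_num
    · change F.natDegree ≠ 0
      have := h.two
      omega
  degD i := by
    fin_cases i
    · change (X : ℤ[X]).natDegree ≤ D
      rw [natDegree_X]
      exact hD
    · exact h.deg
  hgt i n := by
    fin_cases i
    · change |(((X : ℤ[X]).coeff n : ℤ) : ℝ)| ≤ H
      rw [coeff_X]
      split_ifs
      · simpa using hH
      · simp only [Int.cast_zero, abs_zero]
        linarith
    · exact h.hgt n
  adm p hp := by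
    obtain ⟨m, hm1, hm2⟩ := h.adm p hp
    refine ⟨m, fun i => ?_⟩
    fin_cases i
    · change ¬ (p : ℤ) ∣ (X : ℤ[X]).eval (m : ℤ)
      rw [eval_X, Int.natCast_dvd_natCast]
      exact hm1
    · exact hm2
  tr i j t ht _ hass := by
    have ht0 : (t : ℤ) ≠ 0 := by exact_mod_cast (by omega : t ≠ 0)
    have hdeg : ∀ f g : ℤ[X], Associated f (g.comp (X + C (t : ℤ))) → f.natDegree = g.natDegree := by
      intro f g hfg
      rcases assoc_cases hfg with h1 | h1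
      · rw [h1, natDegree_comp, natDegree_X_add_C, mul_one]
      · rw [h1, natDegree_neg, natDegree_comp, natDegree_X_add_C, mul_one]
    have h2 := h.two
    fin_cases i <;> fin_cases j
    · exact no_self X (by rw [natDegree_X]; norm_num) t ht0 hass
    · have h1 : (X : ℤ[X]).natDegree = F.natDegree := hdeg _ _ hass
      rw [natDegree_X] at h1
      omega
    · have h1 : F.natDegree = (X : ℤ[X]).natDegree := hdeg _ _ hass
      rw [natDegree_X] at h1
      omega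
    · exact no_self F (by omega) t ht0 hass

/-- few prime factors -/
lemma few {D E N r m : ℕ} {F : ℤ[X]} (h : Adm D ((N : ℝ) ^ E) F) (hr : 1 ≤ r) (hN : D + 2 ≤ N)
    (hm : m ≤ N) (hg : Good F N r m) :
    (F.eval (m : ℤ)).natAbs.primeFactorsList.length ≤ (D + E + 1) * r := by
  rcases eq_or_ne (F.eval (m : ℤ)) 0 with h0 | h0
  · rw [h0]
    simp
  have hr0 : (0 : ℝ) < r := by exact_mod_cast hr
  have hN2 : (2 : ℝ) ≤ N := by exact_mod_cast (by omega : 2 ≤ N)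
  have hN0 : (0 : ℝ) < N := by linarith
  have hN1 : (1 : ℝ) ≤ N := by linarith
  have hpow : ((N : ℝ) ^ (1 / (r : ℝ))) ^ r = N := by
    rw [← Real.rpow_natCast, ← Real.rpow_mul hN0.le, one_div, inv_mul_cancel₀ hr0.ne', Real.rpow_one]
  apply few_of_rough ((N : ℝ) ^ (1 / (r : ℝ))) (Real.one_lt_rpow (by linarith) (by positivity)) _ _
    (by rwa [Ne, Int.natAbs_eq_zero])
  · rw [mul_comm (D + E + 1) r, pow_mul, hpow]
    have e1 : (((F.eval (m : ℤ)).natAbs : ℕ) : ℝ) = |((F.eval (m : ℤ) : ℤ) : ℝ)| := by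
      rw [Nat.cast_natAbs]
      push_cast
      rfl
    rw [e1, eval_eq_sum_range]
    push_cast
    calc |∑ i ∈ range (F.natDegree + 1), (F.coeff i : ℝ) * (m : ℝ) ^ i|
        ≤ ∑ i ∈ range (F.natDegree + 1), |(F.coeff i : ℝ) * (m : ℝ) ^ i| :=
          Finset.abs_sum_le_sum_abs _ _
      _ ≤ ∑ _i ∈ range (F.natDegree + 1), (N : ℝ) ^ E * (N : ℝ) ^ D := by
        apply Finset.sum_le_sum
        intro i hi
        rw [mem_range] at hi
        rw [abs_mul, abs_of_nonneg (show (0 : ℝ) ≤ (m : ℝ) ^ i by positivity)]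
        apply mul_le_mul (h.hgt i) _ (by positivity) (by positivity)
        calc (m : ℝ) ^ i ≤ (N : ℝ) ^ i := pow_le_pow_left₀ (Nat.cast_nonneg _) (by exact_mod_cast hm) i
          _ ≤ (N : ℝ) ^ D := pow_le_pow_right₀ hN1 (by have := h.deg; omega)
      _ = ((F.natDegree + 1 : ℕ) : ℝ) * ((N : ℝ) ^ E * (N : ℝ) ^ D) := by
        rw [sum_const, card_range, nsmul_eq_mul]
      _ ≤ N * ((N : ℝ) ^ E * (N : ℝ) ^ D) := by
        apply mul_le_mul_of_nonneg_right _ (by positivity)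
        exact_mod_cast (by have := h.deg; omega : F.natDegree + 1 ≤ N)
      _ = (N : ℝ) ^ (D + E + 1) := by ring
  · intro q hq hqd
    by_contra hcon
    rw [not_lt] at hcon
    exact (hg q hq hcon).2 (Int.natCast_dvd.2 hqd)

/-- **Primes `q` with `F(q)` almost prime.** -/
theorem law (D E : ℕ) (hD : 1 ≤ D) (hE : 1 ≤ E) (θ δ : ℝ) (hθ : 0 < θ) (hδ : 0 < δ)
    (hδ1 : δ ≤ 1) (x₀ ε : ℝ) (hε : 0 < ε) (hε1 : ε ≤ 1) :
    ∃ r₀ : ℕ, 2 ≤ r₀ ∧ ∀ r : ℕ, r₀ ≤ r → ∃ N₀ : ℕ, ∀ N : ℕ, N₀ ≤ N → ∀ F : ℤ[X],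
      Adm D ((N : ℝ) ^ E) F →
      (∀ m : ℕ, m ≤ N → Good F N r m →
        (F.eval (m : ℤ)).natAbs.primeFactorsList.length ≤ (D + E + 1) * r) ∧
      0 < V F N r ∧
      ∀ Y' : ℕ, (N : ℝ) ^ θ ≤ Y' → ∀ u Y : ℕ, δ * Y' ≤ Y → u + Y ≤ Y' →
        |((P F N r u Y).card : ℝ) * Real.log Y' - Y * (V F N r / U N r)| ≤
          ε * (Y * (V F N r / U N r)) ∧
        ∀ T : ℕ, T * V F N r ≤ x₀ → ∀ S : Finset ℕ,
        |(((P F N r u Y).filter (fun q => Next F N r T q ∈ S)).card : ℝ) -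
          (P F N r u Y).card *
            ∑ j ∈ S, Real.exp (-(T * V F N r)) * (T * V F N r) ^ j / j.factorial| ≤
          ε * (P F N r u Y).card := by
  classical
  obtain ⟨r0, hr0, h0⟩ := prime_full 1 2 D squarefree_one E 1 θ δ (by exact_mod_cast hE) one_pos hθ hδ
    hδ1 x₀ ε hε hε1
  refine ⟨r0, hr0, ?_⟩
  intro r hr
  obtain ⟨M, hM, hVu⟩ := V_up_base 1 one_pos r (hr0.trans hr)
  obtain ⟨N0, hN0⟩ := eventually_atTop.1 ((h0 r hr M).and (hVu.and (eventually_ge_atTop (D + 2))))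
  refine ⟨N0, ?_⟩
  intro N hN F hF
  obtain ⟨c1, c2, c3⟩ := hN0 N hN
  have hN1 : (1 : ℝ) ≤ N := by exact_mod_cast (by omega : 1 ≤ N)
  have hus := hF.us (U := (N : ℝ) ^ (1 : ℝ)) hD (one_le_pow₀ hN1)
  have hEe : (N : ℝ) ^ (E : ℝ) = (N : ℝ) ^ E := Real.rpow_natCast _ _
  refine ⟨fun m hm hg => few hF (by omega) c3 hm hg, ?_, ?_⟩
  · rw [← V_eq]
    unfold Vq
    apply Finset.prod_pos
    intro p hp
    have hpp : p.Prime := (mem_pz.1 hp).2
    have h1 := us_adm hus p hpp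
    have h2 : (0 : ℝ) < p := by exact_mod_cast hpp.pos
    rw [sub_pos, div_lt_one h2]
    exact_mod_cast h1
  · intro Y' hX u Y hY huY
    have hVle : Vq (Q (sy F)) ⌊(N : ℝ) ^ (1 / (r : ℝ))⌋₊ ≤ M / Real.log N := by
      apply c2
      intro p hp _
      unfold nuB
      rw [Nat.one_le_iff_ne_zero, ← Nat.pos_iff_ne_zero, Finset.card_pos]
      exact ⟨0, mem_filter.2 ⟨mem_range.2 hp.pos, (sy_Q F p 0).2 (Or.inl (dvd_zero _))⟩⟩
    obtain ⟨g1, g2⟩ := c1 (sy F) 0 (by rw [hEe]; exact hus) (by norm_num)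
      (fun p n hp hp1 => by
        have := hp.one_lt
        have := Nat.le_of_dvd one_pos hp1
        omega)
      ⟨0, fun n => by
        change (X : ℤ[X]).eval (n : ℤ) = _
        rw [eval_X]
        simp⟩ hVle (by
        rw [Nat.cast_zero]
        positivity) Y' hX u Y hY huY
    have hOm : Om 1 0 (Q (sy F)) ⌊(N : ℝ) ^ (1 / (r : ℝ))⌋₊ u Y = P F N r u Y := by
      unfold Om P
      simp only [good_iff, one_mul, add_zero]
    have hW : ∀ n, Wc (Sf (Q (sy F)) ⌊(N : ℝ) ^ (1 / (r : ℝ))⌋₊) n = fun T => Next F N r T n := by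
      intro n
      funext T
      unfold Wc Next
      simp only [good_iff]
    rw [hOm, V_eq, U_eq] at g1
    refine ⟨g1, fun T hT S => ?_⟩
    have g3 := g2 T (by rw [V_eq]; exact hT) S
    rw [hOm, V_eq] at g3
    simp only [hW] at g3
    exact g3

end Pool.Agent.V11237.LP.PolyPair
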