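import Pool.Agent.V11237.LP.Lin
import Pool.Agent.Y879.AP.Pair2
import Pool.Agent.Y879.PR.Full
import Pool.Agent.Y879.GL.Linear

set_option autoImplicit false

/-!
# Sums of two almost twin primes, one of the four numbers prime: their number and the law after them
-/

namespace Pool.Agent.V11237.LP.Quad

open Finset Filter

/-- No prime `q ≤ N ^ (1 / r)` divides one of `m`, `m + s`, `N - m`, `N - m + s'`. -/
def Good (s s' : ℤ) (N r : ℕ) (m : ℤ) : Prop :=
  ∀ q : ℕ, q.Prime → (q : ℝ) ≤ (N : ℝ) ^ (1 / (r : ℝ)) →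
    ¬ (q : ℤ) ∣ m ∧ ¬ (q : ℤ) ∣ m + s ∧ ¬ (q : ℤ) ∣ N - m ∧ ¬ (q : ℤ) ∣ N - m + s'

open Classical in
/-- The `x` in `(u, u + Y]` for which `m = 6 x + 3 + s` is PRIME and good. -/
noncomputable def P (s s' : ℤ) (N r u Y : ℕ) : Finset ℕ :=
  (Ioc u (u + Y)).filter (fun x : ℕ => (6 * x + (3 + s).toNat).Prime ∧
    Good s s' N r (6 * (x : ℤ) + 3 + s))

open Classical in
/-- The number of the `y` in `(x, x + T]` for which `6 y + 3 + s` is good. -/
noncomputable def Next (s s' : ℤ) (N r T x : ℕ) : ℕ :=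
  ((Ioc x (x + T)).filter (fun y : ℕ => Good s s' N r (6 * (y : ℤ) + 3 + s))).card

open Classical in
/-- The number of the `x` modulo `q` for which `q` divides one of the four numbers. -/
noncomputable def nu (s s' : ℤ) (N q : ℕ) : ℕ :=
  ((range q).filter (fun x : ℕ => (q : ℤ) ∣ 6 * x + 3 + s ∨ (q : ℤ) ∣ 6 * x + 3 + s + s ∨
    (q : ℤ) ∣ N - (6 * x + 3 + s) ∨ (q : ℤ) ∣ N - (6 * x + 3 + s) + s')).card

/-- The density of the good integers: the product of `1 - nu(q) / q` over the primes `q ≤ N ^ (1 / r)`. -/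
noncomputable def V (s s' : ℤ) (N r : ℕ) : ℝ :=
  ∏ q ∈ (Icc 1 ⌊(N : ℝ) ^ (1 / (r : ℝ))⌋₊).filter Nat.Prime, (1 - (nu s s' N q : ℝ) / q)

/-- The product of `1 - 1 / q` over the primes `q ≤ N ^ (1 / r)`. -/
noncomputable def U (N r : ℕ) : ℝ :=
  ∏ q ∈ (Icc 1 ⌊(N : ℝ) ^ (1 / (r : ℝ))⌋₊).filter Nat.Prime, (1 - 1 / (q : ℝ))

open Pool.Agent.TH464.PO Pool.Agent.TH464.PW Pool.Agent.W123.RU.Poly Pool.Agent.W123.RP
open Pool.Agent.H373R2.T7 Pool.Agent.Y879.GL Pool.Agent.Y879.PR Pool.Agent.Y879.AP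

/-- coefficients -/
def cA : Fin 4 → ℤ := ![6, 6, -6, -6]

/-- coefficients -/
def cB (s s' f : ℤ) : Fin 4 → ℤ := ![3 + s, 3 + 2 * s, f - (3 + s), f - (3 + s) + s']

/-- the system -/
noncomputable def sg (s s' f : ℤ) : Fin 4 → Polynomial ℤ := sy cA (cB s s' f)

lemma ex4 (G : Fin 4 → Prop) : (∃ i, G i) ↔ G 0 ∨ G 1 ∨ G 2 ∨ G 3 := by
  constructor
  · rintro ⟨i, hi⟩
    fin_cases i
    · exact Or.inl hi
    · exact Or.inr (Or.inl hi)
    · exact Or.inr (Or.inr (Or.inl hi))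
    · exact Or.inr (Or.inr (Or.inr hi))
  · rintro (h | h | h | h)
    exacts [⟨0, h⟩, ⟨1, h⟩, ⟨2, h⟩, ⟨3, h⟩]

lemma sg_Q (s s' f : ℤ) (p m : ℕ) : Q (sg s s' f) p m ↔
    ((p : ℤ) ∣ 6 * m + 3 + s ∨ (p : ℤ) ∣ 6 * m + 3 + s + s ∨
    (p : ℤ) ∣ f - (6 * m + 3 + s) ∨ (p : ℤ) ∣ f - (6 * m + 3 + s) + s') := by
  unfold sg
  rw [sy_Q, ex4]
  have e0 : cA 0 * (m : ℤ) + cB s s' f 0 = 6 * m + 3 + s := by
    change 6 * (m : ℤ) + (3 + s) = _
    ring
  have e1 : cA 1 * (m : ℤ) + cB s s' f 1 = 6 * m + 3 + s + s := by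
    change 6 * (m : ℤ) + (3 + 2 * s) = _
    ring
  have e2 : cA 2 * (m : ℤ) + cB s s' f 2 = f - (6 * m + 3 + s) := by
    change -6 * (m : ℤ) + (f - (3 + s)) = _
    ring
  have e3 : cA 3 * (m : ℤ) + cB s s' f 3 = f - (6 * m + 3 + s) + s' := by
    change -6 * (m : ℤ) + (f - (3 + s) + s') = _
    ring
  rw [e0, e1, e2, e3]

lemma good_iff (s s' : ℤ) (N r m : ℕ) :
    Sf (Q (sg s s' N)) ⌊(N : ℝ) ^ (1 / (r : ℝ))⌋₊ m ↔ Good s s' N r (6 * m + 3 + s) := by
  have h0 : (0 : ℝ) ≤ (N : ℝ) ^ (1 / (r : ℝ)) := by positivity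
  constructor
  · intro h p hp hpX
    have h1 := h p (mem_pz.2 ⟨Nat.le_floor hpX, hp⟩)
    rw [sg_Q] at h1
    push Not at h1
    exact h1
  · intro h p hp
    obtain ⟨h1, h2⟩ := mem_pz.1 hp
    rw [sg_Q]
    push Not
    exact h p h2 ((Nat.le_floor_iff h0).1 h1)

lemma nu_eq (s s' : ℤ) (N p : ℕ) : nuB (Q (sg s s' N)) p = nu s s' N p := by
  classical
  unfold nuB nu
  apply card_iff
  intro m _
  exact sg_Q s s' N p m

lemma V_eq (s s' : ℤ) (N r : ℕ) :
    Vq (Q (sg s s' N)) ⌊(N : ℝ) ^ (1 / (r : ℝ))⌋₊ = V s s' N r := by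
  classical
  unfold Vq V pz
  apply Finset.prod_congr rfl
  intro p _
  rw [nu_eq]

/-- fewer than `p` linear forms have a common non-zero place modulo `p` -/
lemma place {k : ℕ} (A B : Fin k → ℤ) (p : ℕ) (hp : p.Prime) (hk : k < p) (hA : ∀ i, ¬ (p : ℤ) ∣ A i) :
    ∃ m : ℕ, ∀ i, ¬ (p : ℤ) ∣ A i * m + B i := by
  classical
  by_contra hcon
  push Not at hcon
  choose g hg using hcon
  have hinj : ∀ m ∈ range p, ∀ m' ∈ range p, g m = g m' → m = m' := by
    intro m hm m' hm' h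
    rw [mem_range] at hm hm'
    have h1 := hg m
    have h2 := hg m'
    rw [h] at h1
    have h3 : (p : ℤ) ∣ A (g m') * ((m : ℤ) - m') := by
      have e : A (g m') * ((m : ℤ) - m') =
          (A (g m') * m + B (g m')) - (A (g m') * m' + B (g m')) := by ring
      rw [e]
      exact dvd_sub h1 h2
    rcases (Nat.prime_iff_prime_int.1 hp).dvd_or_dvd h3 with h4 | h4
    · exact absurd h4 (hA _)
    · have h5 : ((m : ℤ) - m') = 0 := by
        apply Int.eq_zero_of_abs_lt_dvd h4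
        rw [abs_lt]
        constructor <;> omega
      omega
  have h1 := Finset.card_le_card_of_injOn (s := range p) (t := (univ : Finset (Fin k))) g
    (fun m _ => by simp) (fun m hm m' hm' h => hinj m (by simpa using hm) m' (by simpa using hm') h)
  rw [card_range, card_univ, Fintype.card_fin] at h1
  omega

lemma us (s s' : ℤ) (f : ℕ) (hs : s = 2 ∨ s = -2) (hs' : s' = 2 ∨ s' = -2) (hf : (6 : ℤ) ∣ f - s - s')
    (H W : ℝ) (hH : (f : ℝ) + 10 ≤ H) (hfU : 6 * W + 10 < (f : ℝ)) : US 4 1 H W (sg s s' f) := by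
  have hf0 : (0 : ℝ) ≤ f := by positivity
  have hsr : |(s : ℝ)| = 2 := by rcases hs with rfl | rfl <;> norm_num
  have hsr' : |(s' : ℝ)| = 2 := by rcases hs' with rfl | rfl <;> norm_num
  unfold sg
  apply us_lf
  · intro i
    fin_cases i <;> simp [cA]
  · intro i
    have key : ∀ b : ℤ, (∃ c, b = 6 * c + 1) ∨ (∃ c, b = 6 * c - 1) → IsCoprime (6 : ℤ) b := by
      rintro b (⟨c, rfl⟩ | ⟨c, rfl⟩)
      · exact ⟨-c, 1, by ring⟩
      · exact ⟨c, -1, by ring⟩
    obtain ⟨c, hc⟩ := hf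
    fin_cases i
    · apply key
      rcases hs with rfl | rfl
      · exact Or.inr ⟨1, rfl⟩
      · exact Or.inl ⟨0, rfl⟩
    · apply key
      rcases hs with rfl | rfl
      · exact Or.inl ⟨1, rfl⟩
      · exact Or.inr ⟨0, rfl⟩
    · apply IsCoprime.neg_left
      apply key
      change (∃ c, (f : ℤ) - (3 + s) = 6 * c + 1) ∨ (∃ c, (f : ℤ) - (3 + s) = 6 * c - 1)
      rcases hs with rfl | rfl <;> rcases hs' with rfl | rfl
      · exact Or.inr ⟨c, by linarith⟩
      · exact Or.inl ⟨c - 1, by linarith⟩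
      · exact Or.inr ⟨c, by linarith⟩
      · exact Or.inl ⟨c - 1, by linarith⟩
    · apply IsCoprime.neg_left
      apply key
      change (∃ c, (f : ℤ) - (3 + s) + s' = 6 * c + 1) ∨ (∃ c, (f : ℤ) - (3 + s) + s' = 6 * c - 1)
      rcases hs with rfl | rfl <;> rcases hs' with rfl | rfl
      · exact Or.inl ⟨c, by linarith⟩
      · exact Or.inr ⟨c - 1, by linarith⟩
      · exact Or.inl ⟨c, by linarith⟩
      · exact Or.inr ⟨c - 1, by linarith⟩
  · intro i
    fin_cases i <;> simp [cA] <;> linarith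
  · intro i
    have t1 : |(3 : ℝ) + s| ≤ 5 := by
      calc |(3 : ℝ) + s| ≤ |(3 : ℝ)| + |(s : ℝ)| := abs_add_le _ _
        _ = 5 := by rw [hsr]; norm_num
    have t2 : |(3 : ℝ) + 2 * s| ≤ 7 := by
      calc |(3 : ℝ) + 2 * s| ≤ |(3 : ℝ)| + |2 * (s : ℝ)| := abs_add_le _ _
        _ = 7 := by rw [abs_mul, hsr]; norm_num
    have t3 : |(f : ℝ) - (3 + s)| ≤ f + 5 := by
      calc |(f : ℝ) - (3 + s)| ≤ |(f : ℝ)| + |3 + (s : ℝ)| := abs_sub _ _
        _ ≤ f + 5 := by rw [abs_of_nonneg hf0]; linarith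
    have t4 : |(f : ℝ) - (3 + s) + s'| ≤ f + 7 := by
      calc |(f : ℝ) - (3 + s) + s'| ≤ |(f : ℝ) - (3 + s)| + |(s' : ℝ)| := abs_add_le _ _
        _ ≤ f + 7 := by rw [hsr']; linarith
    fin_cases i
    · change |(((3 + s : ℤ)) : ℝ)| ≤ H
      push_cast
      linarith
    · change |(((3 + 2 * s : ℤ)) : ℝ)| ≤ H
      push_cast
      linarith
    · change |((((f : ℤ) - (3 + s) : ℤ)) : ℝ)| ≤ H
      push_cast
      linarith
    · change |((((f : ℤ) - (3 + s) + s' : ℤ)) : ℝ)| ≤ H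
      push_cast
      linarith
  · intro p hp
    by_cases hp5 : 4 < p
    · apply place _ _ p hp hp5
      intro i hd
      have h6 : (p : ℤ) ∣ 6 := by
        fin_cases i
        · exact hd
        · exact hd
        · exact (dvd_neg.1 hd)
        · exact (dvd_neg.1 hd)
      have h7 : p ∣ 6 := by exact_mod_cast h6
      have h8 := Nat.le_of_dvd (by norm_num) h7
      interval_cases p <;> revert h7 hp <;> decide
    · refine ⟨0, fun i hd => ?_⟩
      have h23 : p = 2 ∨ p = 3 := by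
        have := hp.two_le
        interval_cases p
        · exact Or.inl rfl
        · exact Or.inr rfl
        · exact absurd hp (by decide)
      have hd' : (p : ℤ) ∣ cB s s' f i := by simpa using hd
      have h1 : cB s s' f 0 = 3 + s := rfl
      have h2 : cB s s' f 1 = 3 + 2 * s := rfl
      have h3 : cB s s' f 2 = f - (3 + s) := rfl
      have h4 : cB s s' f 3 = f - (3 + s) + s' := rfl
      rcases h23 with rfl | rfl <;> rcases hs with rfl | rfl <;> rcases hs' with rfl | rfl <;>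
        fin_cases i <;>
        simp only [Fin.zero_eta, Fin.mk_one, Fin.reduceFinMk, h1, h2, h3, h4] at hd' <;>
        norm_num at hd' <;> omega
  · intro i j t ht htU
    have ht6 : (6 : ℤ) * t + 10 < f := by
      have : (6 : ℝ) * t + 10 < f := by linarith
      exact_mod_cast this
    have ht0 : (1 : ℤ) ≤ t := by exact_mod_cast ht
    have h1 : cB s s' f 0 = 3 + s := rfl
    have h2 : cB s s' f 1 = 3 + 2 * s := rfl
    have h3 : cB s s' f 2 = f - (3 + s) := rfl
    have h4 : cB s s' f 3 = f - (3 + s) + s' := rfl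
    have a1 : cA 0 = 6 := rfl
    have a2 : cA 1 = 6 := rfl
    have a3 : cA 2 = -6 := rfl
    have a4 : cA 3 = -6 := rfl
    rcases hs with rfl | rfl <;> rcases hs' with rfl | rfl <;>
      fin_cases i <;> fin_cases j <;>
      simp only [Fin.zero_eta, Fin.mk_one, Fin.reduceFinMk, h1, h2, h3, h4, a1, a2, a3, a4] <;>
      constructor <;> rintro ⟨_, _⟩ <;> omega

/-- **The law after primes for sums of two almost twin primes.** -/
theorem law (θ δ : ℝ) (hθ : 0 < θ) (hδ : 0 < δ) (hδ1 : δ ≤ 1) (x₀ ε : ℝ) (hε : 0 < ε)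
    (hε1 : ε ≤ 1) :
    ∃ r₀ : ℕ, 2 ≤ r₀ ∧ ∀ r : ℕ, r₀ ≤ r → ∃ N₀ : ℕ, ∀ N : ℕ, N₀ ≤ N → ∀ s s' : ℤ,
      (s = 2 ∨ s = -2) → (s' = 2 ∨ s' = -2) → (6 : ℤ) ∣ N - s - s' →
      0 < V s s' N r ∧
      ∀ X : ℕ, (N : ℝ) ^ θ ≤ X → ∀ u Y : ℕ, δ * X ≤ Y → u + Y ≤ X →
        |((P s s' N r u Y).card : ℝ) * Real.log X - Y * (V s s' N r / U N r)| ≤
          ε * (Y * (V s s' N r / U N r)) ∧
        ∀ T : ℕ, T * V s s' N r ≤ x₀ → ∀ S : Finset ℕ,
        |(((P s s' N r u Y).filter (fun x => Next s s' N r T x ∈ S)).card : ℝ) -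
          (P s s' N r u Y).card *
            ∑ j ∈ S, Real.exp (-(T * V s s' N r)) * (T * V s s' N r) ^ j / j.factorial| ≤
          ε * (P s s' N r u Y).card := by
  classical
  have h6 : Squarefree (6 : ℕ) := by
    rw [Nat.squarefree_iff_prime_squarefree]
    intro p hp hd
    have := hp.two_le
    have h2 := Nat.le_of_dvd (by norm_num) hd
    have h3 : p ≤ 2 := by nlinarith
    have h4 : p = 2 := by omega
    subst h4
    norm_num at hd
  obtain ⟨r0, hr0, h0⟩ := prime_full 6 4 1 h6 2 (1 / 2) θ δ two_pos (by norm_num) hθ hδ hδ1 x₀ ε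
    hε hε1
  refine ⟨r0, hr0, ?_⟩
  intro r hr
  obtain ⟨M, hM, hV2⟩ := V2_up 1 one_pos r (hr0.trans hr)
  have hpw : ∀ᶠ N : ℕ in atTop, (5 : ℝ) ≤ (N : ℝ) ^ (θ / 4) :=
    ((tendsto_rpow_atTop (by positivity)).comp tendsto_natCast_atTop_atTop).eventually_ge_atTop _
  obtain ⟨N0, hN0⟩ := eventually_atTop.1 ((h0 r hr M).and (hV2.and (hpw.and
    (eventually_ge_atTop 100))))
  refine ⟨N0, ?_⟩
  intro N hN s s' hs hs' hf
  obtain ⟨c1, c2, c4, c3⟩ := hN0 N hN
  have hNr : (100 : ℝ) ≤ N := by exact_mod_cast c3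
  have hus := us s s' N hs hs' hf ((N : ℝ) ^ (2 : ℝ)) ((N : ℝ) ^ (1 / 2 : ℝ))
    (by
      rw [Real.rpow_two]
      nlinarith)
    (by
      rw [← Real.sqrt_eq_rpow]
      have h1 := Real.sq_sqrt (by linarith : (0 : ℝ) ≤ N)
      have h2 : (10 : ℝ) ≤ Real.sqrt N := by
        rw [show (10 : ℝ) = Real.sqrt 100 by
          rw [show (100 : ℝ) = 10 ^ 2 by norm_num, Real.sqrt_sq (by norm_num)]]
        exact Real.sqrt_le_sqrt hNr
      nlinarith)
  have hb : ((3 + s).toNat : ℤ) = 3 + s := Int.toNat_of_nonneg (by rcases hs with rfl | rfl <;> norm_num)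
  have hb5 : (3 + s).toNat = 5 ∨ (3 + s).toNat = 1 := by
    rcases hs with rfl | rfl
    · exact Or.inl rfl
    · exact Or.inr rfl
  have hVpos : 0 < V s s' N r := by
    rw [← V_eq]
    unfold Vq
    apply Finset.prod_pos
    intro p hp
    have hpp : p.Prime := (mem_pz.1 hp).2
    have h1 := us_adm hus p hpp
    have h2 : (0 : ℝ) < p := by exact_mod_cast hpp.pos
    rw [sub_pos, div_lt_one h2]
    exact_mod_cast h1
  have hVle : Vq (Q (sg s s' N)) ⌊(N : ℝ) ^ (1 / (r : ℝ))⌋₊ ≤ M / Real.log N := by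
    apply c2 (Q (sg s s' N)) 6 (fun p hp => us_adm hus p hp) (by norm_num)
    · rw [Real.rpow_one]
      push_cast
      linarith
    · intro p hp hpD
      have hA : ∀ i : Fin 2, ¬ (p : ℤ) ∣ ((![6, 6] : Fin 2 → ℤ) i) := by
        intro i hd
        have : (p : ℤ) ∣ 6 := by
          fin_cases i <;> simpa using hd
        exact hpD (by exact_mod_cast this)
      have hinv : ∃ v : ℤ, (p : ℤ) ∣ 6 * v - 1 := by
        have hc : IsCoprime (6 : ℤ) (p : ℤ) := by
          rw [Int.isCoprime_iff_gcd_eq_one]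
          have : Nat.Coprime 6 p := by
            rw [Nat.coprime_comm]
            exact (Nat.Prime.coprime_iff_not_dvd hp).2 hpD
          exact_mod_cast this
        obtain ⟨a, b, hab⟩ := hc
        exact ⟨a, ⟨-b, by linarith⟩⟩
      obtain ⟨v, hv⟩ := hinv
      have hp0 : (0 : ℤ) < p := by exact_mod_cast hp.pos
      obtain ⟨x1, hx1⟩ : ∃ x1, x1 = ((-(3 + s) * v) % (p : ℤ)).toNat := ⟨_, rfl⟩
      obtain ⟨x2, hx2⟩ : ∃ x2, x2 = ((-(3 + s + s) * v) % (p : ℤ)).toNat := ⟨_, rfl⟩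
      have e1 : (x1 : ℤ) = (-(3 + s) * v) % (p : ℤ) := by
        rw [hx1]
        exact Int.toNat_of_nonneg (Int.emod_nonneg _ hp0.ne')
      have e2 : (x2 : ℤ) = (-(3 + s + s) * v) % (p : ℤ) := by
        rw [hx2]
        exact Int.toNat_of_nonneg (Int.emod_nonneg _ hp0.ne')
      have l1 : x1 < p := by
        have := Int.emod_lt_of_pos (-(3 + s) * v) hp0
        omega
      have l2 : x2 < p := by
        have := Int.emod_lt_of_pos (-(3 + s + s) * v) hp0
        omega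
      have d1 : (p : ℤ) ∣ 6 * x1 + 3 + s := by
        rw [e1]
        obtain ⟨c, hc⟩ := hv
        have h3 := Int.mul_ediv_add_emod (-(3 + s) * v) p
        refine ⟨-(6 * ((-(3 + s) * v) / (p : ℤ))) - (3 + s) * c, ?_⟩
        have : (-(3 + s) * v) % (p : ℤ) = -(3 + s) * v - p * ((-(3 + s) * v) / (p : ℤ)) := by linarith
        rw [this]
        linear_combination (-(3 + s)) * hc
      have d2 : (p : ℤ) ∣ 6 * x2 + 3 + s + s := by
        rw [e2]
        obtain ⟨c, hc⟩ := hv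
        have h3 := Int.mul_ediv_add_emod (-(3 + s + s) * v) p
        refine ⟨-(6 * ((-(3 + s + s) * v) / (p : ℤ))) - (3 + s + s) * c, ?_⟩
        have : (-(3 + s + s) * v) % (p : ℤ) =
          -(3 + s + s) * v - p * ((-(3 + s + s) * v) / (p : ℤ)) := by linarith
        rw [this]
        linear_combination (-(3 + s + s)) * hc
      have hne : x1 ≠ x2 := by
        intro h
        rw [← h] at d2
        have h5 : (p : ℤ) ∣ s := by
          have := dvd_sub d2 d1
          rwa [add_sub_cancel_left] at this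
        have h7 : (p : ℤ) ∣ 6 := by
          rcases hs with rfl | rfl
          · exact h5.trans (by norm_num)
          · exact h5.trans (by norm_num)
        exact hpD (by exact_mod_cast h7)
      unfold nuB
      have hsub : ({x1, x2} : Finset ℕ) ⊆ (range p).filter (fun m => Q (sg s s' N) p m) := by
        intro x hx
        rw [mem_insert, mem_singleton] at hx
        rw [mem_filter, mem_range]
        rcases hx with rfl | rfl
        · exact ⟨l1, (sg_Q s s' N p _).2 (Or.inl d1)⟩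
        · exact ⟨l2, (sg_Q s s' N p _).2 (Or.inr (Or.inl d2))⟩
      calc 2 = ({x1, x2} : Finset ℕ).card := (Finset.card_pair hne).symm
        _ ≤ _ := Finset.card_le_card hsub
  refine ⟨hVpos, ?_⟩
  intro X hX u Y hY huY
  obtain ⟨g1, g2⟩ := c1 (sg s s' N) (3 + s).toNat hus (by
      rcases hb5 with h | h <;> rw [h] <;> decide) (by
      intro p n hp hp6 hQ
      rw [sg_Q] at hQ
      have h23 : p = 2 ∨ p = 3 := by
        have := hp.two_le
        have h2 := Nat.le_of_dvd (by norm_num) hp6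
        interval_cases p
        · exact Or.inl rfl
        · exact Or.inr rfl
        · exact absurd hp (by decide)
        · exact absurd hp6 (by decide)
        · exact absurd hp (by decide)
      rcases h23 with rfl | rfl <;> rcases hs with rfl | rfl <;> rcases hs' with rfl | rfl <;>
        push_cast at hQ <;> omega)
    ⟨0, fun n => by
      unfold sg sy
      rw [lf_eval, hb]
      change 6 * (n : ℤ) + (3 + s) = _
      push_cast
      ring⟩ hVle (by
      have : ((3 + s).toNat : ℝ) ≤ 5 := by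
        rcases hb5 with h | h <;> rw [h] <;> norm_num
      linarith) X hX u Y hY huY
  have hOm : Om 6 (3 + s).toNat (Q (sg s s' N)) ⌊(N : ℝ) ^ (1 / (r : ℝ))⌋₊ u Y = P s s' N r u Y := by
    unfold Om P
    simp only [good_iff]
  have hW : ∀ n, Wc (Sf (Q (sg s s' N)) ⌊(N : ℝ) ^ (1 / (r : ℝ))⌋₊) n =
      fun T => Next s s' N r T n := by
    intro n
    funext T
    unfold Wc Next
    simp only [good_iff]
  have hUz : Vz ⌊(N : ℝ) ^ (1 / (r : ℝ))⌋₊ = U N r := rfl
  rw [hOm, V_eq, hUz] at g1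
  refine ⟨g1, fun T hT S => ?_⟩
  have g3 := g2 T (by rw [V_eq]; exact hT) S
  rw [hOm, V_eq] at g3
  simp only [hW] at g3
  exact g3

end Pool.Agent.V11237.LP.Quad
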