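import Pool.Agent.V11237.LP.Lin
import Pool.Agent.Y879.AP.Pair2

set_option autoImplicit false

/-!
# The law after primes for the pairs `m`, `e m + f`, `e = ± 1`, uniformly in `f`
-/

namespace Pool.Agent.V11237.LP.Sgn

open Finset Filter

/-- Neither `m` nor `e m + f` has a prime factor `p ≤ N ^ (1 / r)`. -/
def Good (e f : ℤ) (N r m : ℕ) : Prop :=
  ∀ p : ℕ, p.Prime → (p : ℝ) ≤ (N : ℝ) ^ (1 / (r : ℝ)) → ¬ p ∣ m ∧ ¬ (p : ℤ) ∣ e * m + f

open Classical in
/-- The good PRIMES in `(u, u + Y]`. -/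
noncomputable def P (e f : ℤ) (N r u Y : ℕ) : Finset ℕ :=
  (Ioc u (u + Y)).filter (fun m => m.Prime ∧ Good e f N r m)

open Classical in
/-- The number of the good `l` in `(m, m + T]`. -/
noncomputable def Next (e f : ℤ) (N r T m : ℕ) : ℕ :=
  ((Ioc m (m + T)).filter (fun l => Good e f N r l)).card

open Classical in
/-- The density of the good integers: the product over the primes `p ≤ N ^ (1 / r)` of `1 - 1 / p` if
`p` divides `f` and of `1 - 2 / p` otherwise. -/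
noncomputable def V (f : ℤ) (N r : ℕ) : ℝ :=
  ∏ p ∈ (Icc 1 ⌊(N : ℝ) ^ (1 / (r : ℝ))⌋₊).filter Nat.Prime,
    (1 - (if (p : ℤ) ∣ f then 1 else 2) / (p : ℝ))

open Pool.Agent.TH464.PO Pool.Agent.TH464.PW Pool.Agent.W123.RU.Poly Pool.Agent.W123.RP
open Pool.Agent.H373R2.T7 Pool.Agent.Y879.GL Pool.Agent.Y879.PR Pool.Agent.Y879.AP

/-- the system -/
noncomputable def sg (e f : ℤ) : Fin 2 → Polynomial ℤ := sy ![1, e] ![0, f]

lemma sg_Q (e f : ℤ) (p m : ℕ) : Q (sg e f) p m ↔ (p ∣ m ∨ (p : ℤ) ∣ e * m + f) := by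
  unfold sg
  rw [sy_Q, Fin.exists_fin_two]
  simp [Int.natCast_dvd_natCast]

lemma good_iff (e f : ℤ) (N r m : ℕ) :
    Sf (Q (sg e f)) ⌊(N : ℝ) ^ (1 / (r : ℝ))⌋₊ m ↔ Good e f N r m := by
  have h0 : (0 : ℝ) ≤ (N : ℝ) ^ (1 / (r : ℝ)) := by positivity
  constructor
  · intro h p hp hpX
    have h1 := h p (mem_pz.2 ⟨Nat.le_floor hpX, hp⟩)
    rwa [sg_Q, not_or] at h1
  · intro h p hp
    obtain ⟨h1, h2⟩ := mem_pz.1 hp
    rw [sg_Q, not_or]
    exact h p h2 ((Nat.le_floor_iff h0).1 h1)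

lemma nu_eq (e f : ℤ) (he : e = 1 ∨ e = -1) (p : ℕ) (hp : p.Prime) :
    nuB (Q (sg e f)) p = nu2 f p := by
  rw [← nuB_Q2 e f (by rcases he with rfl | rfl <;> norm_num) p hp]
  unfold nuB
  apply card_iff
  intro m _
  rw [sg_Q]
  unfold Q2
  have hpi : Prime (p : ℤ) := Nat.prime_iff_prime_int.1 hp
  rw [hpi.dvd_mul, Int.natCast_dvd_natCast]

lemma V_eq (e f : ℤ) (he : e = 1 ∨ e = -1) (N r : ℕ) :
    Vq (Q (sg e f)) ⌊(N : ℝ) ^ (1 / (r : ℝ))⌋₊ = V f N r := by
  classical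
  unfold Vq V pz
  apply Finset.prod_congr rfl
  intro p hp
  rw [nu_eq e f he p (mem_filter.1 hp).2]
  unfold nu2
  split_ifs <;> norm_num

lemma us (e f : ℤ) (he : e = 1 ∨ e = -1) (hf : Even f) (H U : ℝ) (hH : 1 ≤ H) (hfH : |(f : ℝ)| ≤ H)
    (hfU : U < |(f : ℝ)|) : US 2 1 H U (sg e f) := by
  unfold sg
  apply us_lf
  · intro i
    fin_cases i
    · simp
    · rcases he with rfl | rfl <;> simp
  · intro i
    fin_cases i
    · simp [isCoprime_one_left]
    · rcases he with rfl | rfl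
      · simpa using isCoprime_one_left
      · simpa using isCoprime_one_left.neg_left
  · intro i
    fin_cases i
    · simpa using hH
    · rcases he with rfl | rfl <;> simpa using hH
  · intro i
    fin_cases i
    · simpa using (zero_le_one.trans hH)
    · simpa using hfH
  · intro p hp
    have h1 : nuB (Q (sg e f)) p < p := by
      rw [nu_eq e f he p hp]
      unfold nu2
      split_ifs with h
      · exact hp.one_lt
      · have : p ≠ 2 := by
          rintro rfl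
          apply h
          exact_mod_cast hf.two_dvd
        have := hp.two_le
        omega
    by_contra hcon
    push Not at hcon
    have h2 : nuB (Q (sg e f)) p = p := by
      classical
      unfold nuB
      rw [Finset.filter_true_of_mem, card_range]
      intro m _
      obtain ⟨i, hi⟩ := hcon m
      unfold sg
      exact (sy_Q _ _ p m).2 ⟨i, hi⟩
    omega
  · intro i j t ht htU
    have hft : ∀ s : ℤ, |s| = t → f ≠ s := by
      intro s hs hfs
      rw [hfs] at hfU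
      have : |(s : ℝ)| = t := by
        rw [← Int.cast_abs, hs]
        simp
      linarith
    have hft1 := hft t (by simp)
    have hft2 := hft (-t) (by simp)
    have ht0 : (1 : ℤ) ≤ t := by exact_mod_cast ht
    rcases he with rfl | rfl <;> fin_cases i <;> fin_cases j <;> simp <;> omega

/-- **The law after primes for `m`, `e m + f`, uniformly in `f`.** -/
theorem law (E δ' θ δ : ℝ) (hE : 0 < E) (hδ' : 0 < δ') (hθ : 0 < θ)
    (hδ : 0 < δ) (hδ1 : δ ≤ 1) (x₀ ε : ℝ) (hε : 0 < ε) (hε1 : ε ≤ 1) :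
    ∃ r₀ : ℕ, 2 ≤ r₀ ∧ ∀ r : ℕ, r₀ ≤ r → ∃ N₀ : ℕ, ∀ N : ℕ, N₀ ≤ N → ∀ e f : ℤ, (e = 1 ∨ e = -1) →
      Even f → (N : ℝ) ^ δ' < |(f : ℝ)| → |(f : ℝ)| ≤ (N : ℝ) ^ E →
      0 < V f N r ∧
      ∀ X : ℕ, (N : ℝ) ^ θ ≤ X → ∀ u Y : ℕ, δ * X ≤ Y → u + Y ≤ X →
        |((P e f N r u Y).card : ℝ) * Real.log X - Y * (V f N r / U N r)| ≤
          ε * (Y * (V f N r / U N r)) ∧
        ∀ T : ℕ, T * V f N r ≤ x₀ → ∀ S : Finset ℕ,
        |(((P e f N r u Y).filter (fun m => Next e f N r T m ∈ S)).card : ℝ) -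
          (P e f N r u Y).card *
            ∑ j ∈ S, Real.exp (-(T * V f N r)) * (T * V f N r) ^ j / j.factorial| ≤
          ε * (P e f N r u Y).card := by
  classical
  obtain ⟨r0, hr0, h0⟩ := prime_full 1 2 1 squarefree_one E δ' θ δ hE hδ' hθ hδ hδ1 x₀ ε hε hε1
  refine ⟨r0, hr0, ?_⟩
  intro r hr
  obtain ⟨M, hM, hV2⟩ := V2_up E hE r (hr0.trans hr)
  have hall := (h0 r hr M).and (hV2.and (eventually_ge_atTop 2))
  obtain ⟨N0, hN0⟩ := eventually_atTop.1 hall
  refine ⟨N0, ?_⟩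
  intro N hN e f he hf hfU hfH
  obtain ⟨c1, c2, c3⟩ := hN0 N hN
  have hN1 : (1 : ℝ) ≤ N := by exact_mod_cast (by omega : 1 ≤ N)
  have hH : (1 : ℝ) ≤ (N : ℝ) ^ E := Real.one_le_rpow hN1 hE.le
  have hus := us e f he hf _ _ hH hfH hfU
  have hf0 : f ≠ 0 := by
    rintro rfl
    have : (0 : ℝ) ≤ (N : ℝ) ^ δ' := by positivity
    simp at hfU
    linarith
  have hVpos : 0 < V f N r := by
    rw [← V_eq e f he]
    unfold Vq
    apply Finset.prod_pos
    intro p hp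
    have hpp : p.Prime := (mem_pz.1 hp).2
    have h1 := us_adm hus p hpp
    have h2 : (0 : ℝ) < p := by exact_mod_cast hpp.pos
    rw [sub_pos, div_lt_one h2]
    exact_mod_cast h1
  have hVle : Vq (Q (sg e f)) ⌊(N : ℝ) ^ (1 / (r : ℝ))⌋₊ ≤ M / Real.log N := by
    apply c2 (Q (sg e f)) f.natAbs (fun p hp => us_adm hus p hp)
    · have := Int.natAbs_pos.2 hf0
      omega
    · rw [Nat.cast_natAbs, Int.cast_abs]
      exact hfH
    · intro p hp hpD
      rw [nu_eq e f he p hp]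
      unfold nu2
      rw [if_neg]
      intro hd
      exact hpD (Int.natCast_dvd.1 hd)
  refine ⟨hVpos, ?_⟩
  intro X hX u Y hY huY
  obtain ⟨g1, g2⟩ := c1 (sg e f) 0 hus (by norm_num) (by
      intro p n hp hpa
      exact absurd (Nat.dvd_one.1 hpa) hp.one_lt.ne')
    ⟨0, fun n => by
      unfold sg sy
      rw [lf_eval]
      simp⟩ hVle (by
      rw [Nat.cast_zero]
      positivity) X hX u Y hY huY
  have hOm : Om 1 0 (Q (sg e f)) ⌊(N : ℝ) ^ (1 / (r : ℝ))⌋₊ u Y = P e f N r u Y := by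
    unfold Om P
    simp only [good_iff, one_mul, add_zero]
  have hW : ∀ n, Wc (Sf (Q (sg e f)) ⌊(N : ℝ) ^ (1 / (r : ℝ))⌋₊) n = fun T => Next e f N r T n := by
    intro n
    funext T
    unfold Wc Next
    simp only [good_iff]
  have hUz : Vz ⌊(N : ℝ) ^ (1 / (r : ℝ))⌋₊ = U N r := rfl
  rw [hOm, V_eq e f he, hUz] at g1
  refine ⟨g1, fun T hT S => ?_⟩
  have g3 := g2 T (by rw [V_eq e f he]; exact hT) S
  rw [hOm, V_eq e f he] at g3
  simp only [hW] at g3
  exact g3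

end Pool.Agent.V11237.LP.Sgn
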