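import Pool.Agent.V11237.LP.Quad
import Pool.Agent.V11237.LP.Short

set_option autoImplicit false

/-!
# Progressions of almost twin primes with one prime: the law after them, uniformly in the difference
-/

namespace Pool.Agent.V11237.LP.TAP

open Finset Filter

/-- No prime `p ≤ N ^ (1 / r)` divides one of the numbers `q + (i - j) d`, `q + (i - j) d + s`, `i < k`. -/
def Good (k j d : ℕ) (s : ℤ) (N r q : ℕ) : Prop :=
  ∀ p : ℕ, p.Prime → (p : ℝ) ≤ (N : ℝ) ^ (1 / (r : ℝ)) → ∀ i < k,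
    ¬ (p : ℤ) ∣ q + ((i : ℤ) - j) * d ∧ ¬ (p : ℤ) ∣ q + ((i : ℤ) - j) * d + s

/-- The product of the primes up to `2 k + 1`. -/
def M (k : ℕ) : ℕ := primorial (2 * k + 1)

open Classical in
/-- The `x` in `(u, u + Y]` for which `q = M x + b` is PRIME and good. -/
noncomputable def P (k j d : ℕ) (s : ℤ) (b N r u Y : ℕ) : Finset ℕ :=
  (Ioc u (u + Y)).filter (fun x : ℕ => (M k * x + b).Prime ∧ Good k j d s N r (M k * x + b))

open Classical in
/-- The number of the `y` in `(x, x + T]` for which `M y + b` is good. -/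
noncomputable def Next (k j d : ℕ) (s : ℤ) (b N r T x : ℕ) : ℕ :=
  ((Ioc x (x + T)).filter (fun y : ℕ => Good k j d s N r (M k * y + b))).card

open Classical in
/-- The number of the `x` modulo `p` for which `p` divides one of the `2 k` numbers. -/
noncomputable def nu (k j d : ℕ) (s : ℤ) (b p : ℕ) : ℕ :=
  ((range p).filter (fun x : ℕ => ∃ i < k,
    (p : ℤ) ∣ (M k * x + b : ℕ) + ((i : ℤ) - j) * d ∨
    (p : ℤ) ∣ (M k * x + b : ℕ) + ((i : ℤ) - j) * d + s)).card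

/-- The density of the good integers. -/
noncomputable def V (k j d : ℕ) (s : ℤ) (b N r : ℕ) : ℝ :=
  ∏ p ∈ (Icc 1 ⌊(N : ℝ) ^ (1 / (r : ℝ))⌋₊).filter Nat.Prime, (1 - (nu k j d s b p : ℝ) / p)

/-- The product of `1 - 1 / p` over the primes `p ≤ N ^ (1 / r)`. -/
noncomputable def U (N r : ℕ) : ℝ :=
  ∏ p ∈ (Icc 1 ⌊(N : ℝ) ^ (1 / (r : ℝ))⌋₊).filter Nat.Prime, (1 - 1 / (p : ℝ))

open Pool.Agent.TH464.PO Pool.Agent.TH464.PW Pool.Agent.W123.RU.Poly Pool.Agent.W123.RP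
open Pool.Agent.H373R2.T7 Pool.Agent.Y879.GL Pool.Agent.Y879.PR Pool.Agent.Y879.AP

/-- coefficients -/
def cB (k j d : ℕ) (s : ℤ) (b : ℕ) : Fin (2 * k) → ℤ := fun i =>
  b + (((i : ℕ) / 2 : ℕ) - (j : ℤ)) * d + (((i : ℕ) % 2 : ℕ) : ℤ) * s

/-- the system -/
noncomputable def sg (k j d : ℕ) (s : ℤ) (b : ℕ) : Fin (2 * k) → Polynomial ℤ :=
  sy (fun _ => (M k : ℤ)) (cB k j d s b)

lemma sg_Q (k j d : ℕ) (s : ℤ) (b p m : ℕ) : Q (sg k j d s b) p m ↔ ∃ i < k,
    ((p : ℤ) ∣ (M k * m + b : ℕ) + ((i : ℤ) - j) * d ∨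
    (p : ℤ) ∣ (M k * m + b : ℕ) + ((i : ℤ) - j) * d + s) := by
  unfold sg
  rw [sy_Q]
  constructor
  · rintro ⟨i, hi⟩
    refine ⟨(i : ℕ) / 2, by omega, ?_⟩
    unfold cB at hi
    rcases Nat.mod_two_eq_zero_or_one (i : ℕ) with h | h
    · left
      rw [h] at hi
      convert hi using 1
      push_cast
      ring
    · right
      rw [h] at hi
      convert hi using 1
      push_cast
      ring
  · rintro ⟨i, hi, h | h⟩
    · refine ⟨⟨2 * i, by omega⟩, ?_⟩
      unfold cB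
      have e1 : (2 * i) / 2 = i := by omega
      have e2 : (2 * i) % 2 = 0 := by omega
      simp only [e1, e2]
      convert h using 1
      push_cast
      ring
    · refine ⟨⟨2 * i + 1, by omega⟩, ?_⟩
      unfold cB
      have e1 : (2 * i + 1) / 2 = i := by omega
      have e2 : (2 * i + 1) % 2 = 1 := by omega
      simp only [e1, e2]
      convert h using 1
      push_cast
      ring

lemma good_iff (k j d : ℕ) (s : ℤ) (b N r m : ℕ) :
    Sf (Q (sg k j d s b)) ⌊(N : ℝ) ^ (1 / (r : ℝ))⌋₊ m ↔ Good k j d s N r (M k * m + b) := by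
  have h0 : (0 : ℝ) ≤ (N : ℝ) ^ (1 / (r : ℝ)) := by positivity
  constructor
  · intro h p hp hpX i hi
    have h1 := h p (mem_pz.2 ⟨Nat.le_floor hpX, hp⟩)
    rw [sg_Q] at h1
    push Not at h1
    exact h1 i hi
  · intro h p hp
    obtain ⟨h1, h2⟩ := mem_pz.1 hp
    rw [sg_Q]
    push Not
    exact h p h2 ((Nat.le_floor_iff h0).1 h1)

lemma nu_eq (k j d : ℕ) (s : ℤ) (b p : ℕ) : nuB (Q (sg k j d s b)) p = nu k j d s b p := by
  classical
  unfold nuB nu
  apply card_iff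
  intro m _
  exact sg_Q k j d s b p m

lemma V_eq (k j d : ℕ) (s : ℤ) (b N r : ℕ) :
    Vq (Q (sg k j d s b)) ⌊(N : ℝ) ^ (1 / (r : ℝ))⌋₊ = V k j d s b N r := by
  classical
  unfold Vq V pz
  apply Finset.prod_congr rfl
  intro p _
  rw [nu_eq]

lemma dvd_M {k p : ℕ} (hp : p.Prime) (h : p ≤ 2 * k + 1) : p ∣ M k := by
  unfold M primorial
  exact Finset.dvd_prod_of_mem _ (mem_filter.2 ⟨mem_range.2 (by omega), hp⟩)

lemma sqf_M (k : ℕ) : Squarefree (M k) := by
  unfold M primorial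
  apply Finset.squarefree_prod_of_pairwise_isCoprime
  · intro a ha b hb hab
    rw [Finset.mem_coe, mem_filter] at ha hb
    rw [Function.onFun, ← Nat.coprime_iff_isRelPrime]
    exact (Nat.coprime_primes ha.2 hb.2).2 hab
  · intro a ha
    exact (mem_filter.1 ha).2.prime.squarefree

lemma six_le {k : ℕ} (hk : 1 ≤ k) : 6 ≤ M k := by
  have h2 : 2 ∣ M k := dvd_M Nat.prime_two (by omega)
  have h3 : 3 ∣ M k := dvd_M Nat.prime_three (by omega)
  have h6 : 6 ∣ M k := by omega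
  exact Nat.le_of_dvd (primorial_pos _) h6

/-- two roots -/
lemma two_roots (p : ℕ) (hp : p.Prime) (m b c : ℤ) (hm : ¬ (p : ℤ) ∣ m) (hc : ¬ (p : ℤ) ∣ c) :
    ∃ x1 x2 : ℕ, x1 < p ∧ x2 < p ∧ x1 ≠ x2 ∧ (p : ℤ) ∣ m * x1 + b ∧ (p : ℤ) ∣ m * x2 + b + c := by
  have hp0 : (0 : ℤ) < p := by exact_mod_cast hp.pos
  have hinv : ∃ v : ℤ, (p : ℤ) ∣ m * v - 1 := by
    have hcop : IsCoprime m (p : ℤ) := by
      rw [isCoprime_comm]
      exact (Nat.prime_iff_prime_int.1 hp).irreducible.coprime_iff_not_dvd.2 hm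
    obtain ⟨a, b', hab⟩ := hcop
    exact ⟨a, ⟨-b', by linarith⟩⟩
  obtain ⟨v, hv⟩ := hinv
  have key : ∀ z : ℤ, ∃ x : ℕ, x < p ∧ (p : ℤ) ∣ m * x + z := by
    intro z
    obtain ⟨x, hx⟩ : ∃ x, x = ((-z * v) % (p : ℤ)).toNat := ⟨_, rfl⟩
    have e1 : (x : ℤ) = (-z * v) % (p : ℤ) := by
      rw [hx]
      exact Int.toNat_of_nonneg (Int.emod_nonneg _ hp0.ne')
    refine ⟨x, ?_, ?_⟩
    · have := Int.emod_lt_of_pos (-z * v) hp0
      omega
    · rw [e1]
      obtain ⟨c', hc'⟩ := hv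
      have h3 := Int.mul_ediv_add_emod (-z * v) p
      refine ⟨-(m * ((-z * v) / (p : ℤ))) - z * c', ?_⟩
      have : (-z * v) % (p : ℤ) = -z * v - p * ((-z * v) / (p : ℤ)) := by linarith
      rw [this]
      linear_combination (-z) * hc'
  obtain ⟨x1, l1, d1⟩ := key b
  obtain ⟨x2, l2, d2⟩ := key (b + c)
  rw [← add_assoc] at d2
  refine ⟨x1, x2, l1, l2, ?_, d1, d2⟩
  intro h
  rw [← h] at d2
  apply hc
  have := dvd_sub d2 d1
  rwa [add_sub_cancel_left] at this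

lemma us (k j d : ℕ) (s : ℤ) (b : ℕ) (hk : 1 ≤ k) (hj : j < k) (hs : s = 2 ∨ s = -2) (hbM : b < M k)
    (hb1 : IsCoprime (M k : ℤ) b) (hb2 : IsCoprime (M k : ℤ) (b + s)) (hd : M k ∣ d)
    (H W : ℝ) (hH : (M k : ℝ) + k * d + 2 ≤ H) (hW : M k * W + 2 < (d : ℝ)) :
    US (2 * k) 1 H W (sg k j d s b) := by
  have hM6 := six_le hk
  have hsr : |(s : ℝ)| = 2 := by rcases hs with rfl | rfl <;> norm_num
  obtain ⟨d', hd'⟩ := hd
  have hcopB : ∀ i, IsCoprime (M k : ℤ) (cB k j d s b i) := by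
    intro i
    have e : cB k j d s b i = (b + (((i : ℕ) % 2 : ℕ) : ℤ) * s) +
        M k * ((((i : ℕ) / 2 : ℕ) - (j : ℤ)) * d') := by
      unfold cB
      rw [hd']
      push_cast
      ring
    rw [e, IsCoprime.add_mul_left_right_iff]
    rcases Nat.mod_two_eq_zero_or_one (i : ℕ) with h | h
    · rw [h]
      simpa using hb1
    · rw [h]
      simpa using hb2
  unfold sg
  apply us_lf
  · intro i
    have : (0 : ℤ) < M k := by exact_mod_cast (by omega : 0 < M k)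
    exact this.ne'
  · exact hcopB
  · intro i
    rw [Int.cast_natCast, abs_of_nonneg (Nat.cast_nonneg _)]
    have : (0 : ℝ) ≤ k * d := by positivity
    linarith
  · intro i
    unfold cB
    have hi : (i : ℕ) / 2 < k := by omega
    have h1 : |(((i : ℕ) / 2 : ℕ) : ℝ) - j| ≤ k := by
      have a1 : (((i : ℕ) / 2 : ℕ) : ℝ) ≤ k := by exact_mod_cast hi.le
      have a2 : (j : ℝ) ≤ k := by exact_mod_cast hj.le
      have a3 : (0 : ℝ) ≤ (((i : ℕ) / 2 : ℕ) : ℝ) := Nat.cast_nonneg _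
      have a4 : (0 : ℝ) ≤ j := Nat.cast_nonneg _
      rw [abs_le]
      constructor <;> linarith
    have h2 : |((((i : ℕ) % 2 : ℕ) : ℤ) : ℝ) * s| ≤ 2 := by
      rw [abs_mul, hsr]
      have : |((((i : ℕ) % 2 : ℕ) : ℤ) : ℝ)| ≤ 1 := by
        rcases Nat.mod_two_eq_zero_or_one (i : ℕ) with h | h <;> rw [h] <;> norm_num
      linarith
    have hd0 : (0 : ℝ) ≤ d := Nat.cast_nonneg _
    have hbr : (b : ℝ) ≤ M k := by exact_mod_cast hbM.le
    push_cast at h2 ⊢
    calc |(b : ℝ) + ((((i : ℕ) / 2 : ℕ) : ℝ) - j) * d + (((i : ℕ) % 2 : ℕ) : ℝ) * s|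
        ≤ |(b : ℝ) + ((((i : ℕ) / 2 : ℕ) : ℝ) - j) * d| + |(((i : ℕ) % 2 : ℕ) : ℝ) * s| := abs_add_le _ _
      _ ≤ (|(b : ℝ)| + |((((i : ℕ) / 2 : ℕ) : ℝ) - j) * d|) + 2 := by
          exact add_le_add (abs_add_le _ _) h2
      _ ≤ (M k + k * d) + 2 := by
          rw [abs_of_nonneg (Nat.cast_nonneg b : (0 : ℝ) ≤ b), abs_mul, abs_of_nonneg hd0]
          have := mul_le_mul_of_nonneg_right h1 hd0
          linarith
      _ ≤ H := by linarith
  · intro p hp
    by_cases hp5 : 2 * k < p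
    · by_cases hpM : p ∣ M k
      · refine ⟨0, fun i hdv => ?_⟩
        have h1 : (p : ℤ) ∣ cB k j d s b i := by simpa using hdv
        have h2 := (hcopB i).isUnit_of_dvd' (by exact_mod_cast hpM) h1
        have h3 := Int.isUnit_iff.1 h2
        have := hp.two_le
        omega
      · apply Quad.place _ _ p hp hp5
        intro i hdv
        exact hpM (by exact_mod_cast hdv)
    · have hpM : p ∣ M k := dvd_M hp (by omega)
      refine ⟨0, fun i hdv => ?_⟩
      have h1 : (p : ℤ) ∣ cB k j d s b i := by simpa using hdv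
      have h2 := (hcopB i).isUnit_of_dvd' (by exact_mod_cast hpM) h1
      have h3 := Int.isUnit_iff.1 h2
      have := hp.two_le
      omega
  · intro i i' t ht htU
    have hMz : (6 : ℤ) ≤ M k := by exact_mod_cast hM6
    have hMt : ((M k * t : ℕ) : ℝ) + 2 < d := by
      push_cast
      have : (M k : ℝ) * t ≤ M k * W := mul_le_mul_of_nonneg_left htU (Nat.cast_nonneg _)
      linarith
    have hMt' : (M k : ℤ) * t + 2 < d := by exact_mod_cast hMt
    have ht1 : (1 : ℤ) ≤ t := by exact_mod_cast ht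
    have hMt6 : (6 : ℤ) ≤ M k * t := by nlinarith
    constructor
    · rintro ⟨-, h2⟩
      unfold cB at h2
      obtain ⟨g, hg⟩ : ∃ g : ℤ, g = (((i : ℕ) / 2 : ℕ) : ℤ) - (((i' : ℕ) / 2 : ℕ) : ℤ) := ⟨_, rfl⟩
      have e1 : (((i : ℕ) % 2 : ℕ) : ℤ) * s ≤ 2 ∧ -2 ≤ (((i : ℕ) % 2 : ℕ) : ℤ) * s := by
        rcases Nat.mod_two_eq_zero_or_one (i : ℕ) with h | h <;> rcases hs with rfl | rfl <;>
          rw [h] <;> norm_num
      obtain ⟨w, hw⟩ : ∃ w : ℤ, w = (((i : ℕ) % 2 : ℕ) : ℤ) * s - (((i' : ℕ) % 2 : ℕ) : ℤ) * s := ⟨_, rfl⟩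
      have hw2 : w ≤ 2 ∧ -2 ≤ w := by
        rw [hw]
        rcases Nat.mod_two_eq_zero_or_one (i : ℕ) with h | h <;>
          rcases Nat.mod_two_eq_zero_or_one (i' : ℕ) with h' | h' <;> rcases hs with rfl | rfl <;>
          rw [h, h'] <;> norm_num
      have h3 : g * d + w = M k * t := by
        rw [hg, hw]
        linear_combination h2
      rcases lt_trichotomy g 0 with h | h | h
      · have : g * d ≤ -d := by nlinarith
        omega
      · rw [h] at h3
        omega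
      · have : (d : ℤ) ≤ g * d := by nlinarith
        omega
    · rintro ⟨h1, -⟩
      omega

/-- **The law after primes for progressions of almost twin primes, uniformly in the difference.** -/
theorem law (k : ℕ) (hk : 1 ≤ k) (E δ' θ δ : ℝ) (hE : 0 < E) (hδ' : 0 < δ') (hθ : 0 < θ)
    (hδ : 0 < δ) (hδ1 : δ ≤ 1) (x₀ ε : ℝ) (hε : 0 < ε) (hε1 : ε ≤ 1) :
    ∃ r₀ : ℕ, 2 ≤ r₀ ∧ ∀ r : ℕ, r₀ ≤ r → ∃ N₀ : ℕ, ∀ N : ℕ, N₀ ≤ N → ∀ (d b j : ℕ) (s : ℤ),
      M k ∣ d → (N : ℝ) ^ δ' ≤ d → (d : ℝ) ≤ (N : ℝ) ^ E → j < k → (s = 2 ∨ s = -2) →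
      b < M k → IsCoprime (M k : ℤ) b → IsCoprime (M k : ℤ) (b + s) →
      0 < V k j d s b N r ∧
      ∀ X : ℕ, (N : ℝ) ^ θ ≤ X → ∀ u Y : ℕ, δ * X ≤ Y → u + Y ≤ X →
        |((P k j d s b N r u Y).card : ℝ) * Real.log X - Y * (V k j d s b N r / U N r)| ≤
          ε * (Y * (V k j d s b N r / U N r)) ∧
        ∀ T : ℕ, T * V k j d s b N r ≤ x₀ → ∀ S : Finset ℕ,
        |(((P k j d s b N r u Y).filter (fun x => Next k j d s b N r T x ∈ S)).card : ℝ) -
          (P k j d s b N r u Y).card *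
            ∑ i ∈ S, Real.exp (-(T * V k j d s b N r)) * (T * V k j d s b N r) ^ i / i.factorial| ≤
          ε * (P k j d s b N r u Y).card := by
  classical
  obtain ⟨r0, hr0, h0⟩ := prime_full (M k) (2 * k) 1 (sqf_M k) (E + 1) (δ' / 2) θ δ (by positivity)
    (by positivity) hθ hδ hδ1 x₀ ε hε hε1
  refine ⟨r0, hr0, ?_⟩
  intro r hr
  obtain ⟨K, hK, hV2⟩ := V2_up 1 one_pos r (hr0.trans hr)
  have hM6 := six_le hk
  have hM6r : (6 : ℝ) ≤ M k := by exact_mod_cast hM6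
  have hpw : ∀ a : ℝ, 0 < a → ∀ c : ℝ, ∀ᶠ N : ℕ in atTop, c ≤ (N : ℝ) ^ a := fun a ha c =>
    ((tendsto_rpow_atTop ha).comp tendsto_natCast_atTop_atTop).eventually_ge_atTop _
  obtain ⟨N0, hN0⟩ := eventually_atTop.1 ((h0 r hr K).and (hV2.and ((hpw (θ / 4) (by positivity) (M k)).and
    ((hpw (δ' / 2) (by positivity) (M k + 3)).and ((hpw 1 one_pos (M k + k + 3)).and
      (eventually_ge_atTop 2))))))
  refine ⟨N0, ?_⟩
  intro N hN d b j s hd hdl hdu hj hs hbM hb1 hb2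
  obtain ⟨c1, c2, c4, c5, c6, c3⟩ := hN0 N hN
  rw [Real.rpow_one] at c6
  have hNr : (2 : ℝ) ≤ N := by exact_mod_cast c3
  have hus := us k j d s b hk hj hs hbM hb1 hb2 hd ((N : ℝ) ^ (E + 1)) ((N : ℝ) ^ (δ' / 2))
    (by
      rw [Real.rpow_add (by linarith), Real.rpow_one]
      have h1 : (1 : ℝ) ≤ (N : ℝ) ^ E := Real.one_le_rpow (by linarith) hE.le
      calc (M k : ℝ) + k * d + 2 ≤ (M k : ℝ) * (N : ℝ) ^ E + k * (N : ℝ) ^ E + 2 * (N : ℝ) ^ E := by
            have e1 : (M k : ℝ) * 1 ≤ (M k : ℝ) * (N : ℝ) ^ E := mul_le_mul_of_nonneg_left h1 (by linarith)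
            have e2 : (k : ℝ) * d ≤ k * (N : ℝ) ^ E := mul_le_mul_of_nonneg_left hdu (Nat.cast_nonneg _)
            linarith
        _ = (N : ℝ) ^ E * (M k + k + 2) := by ring
        _ ≤ (N : ℝ) ^ E * N := mul_le_mul_of_nonneg_left (by linarith) (by linarith))
    (by
      refine lt_of_lt_of_le ?_ hdl
      have e1 : (N : ℝ) ^ δ' = (N : ℝ) ^ (δ' / 2) * (N : ℝ) ^ (δ' / 2) := by
        rw [← Real.rpow_add (by linarith)]
        congr 1
        ring
      rw [e1]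
      nlinarith)
  have hVpos : 0 < V k j d s b N r := by
    rw [← V_eq]
    unfold Vq
    apply Finset.prod_pos
    intro p hp
    have hpp : p.Prime := (mem_pz.1 hp).2
    have h1 := us_adm hus p hpp
    have h2 : (0 : ℝ) < p := by exact_mod_cast hpp.pos
    rw [sub_pos, div_lt_one h2]
    exact_mod_cast h1
  have hVle : Vq (Q (sg k j d s b)) ⌊(N : ℝ) ^ (1 / (r : ℝ))⌋₊ ≤ K / Real.log N := by
    apply c2 (Q (sg k j d s b)) (M k) (fun p hp => us_adm hus p hp) (by omega)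
    · rw [Real.rpow_one]
      have : (0 : ℝ) ≤ k := Nat.cast_nonneg _
      linarith
    · intro p hp hpD
      have hp2 : ¬ (p : ℤ) ∣ s := by
        intro h
        apply hpD
        have h7 : (p : ℤ) ∣ 2 := by
          rcases hs with rfl | rfl
          · exact h
          · exact (dvd_neg.1 h)
        have h8 : p ∣ 2 := by exact_mod_cast h7
        have h9 : p = 2 := (Nat.prime_dvd_prime_iff_eq hp Nat.prime_two).1 h8
        rw [h9]
        exact dvd_M Nat.prime_two (by omega)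
      obtain ⟨x1, x2, l1, l2, hne, d1, d2⟩ := two_roots p hp (M k) b s
        (fun h => hpD (by exact_mod_cast h)) hp2
      unfold nuB
      have hsub : ({x1, x2} : Finset ℕ) ⊆ (range p).filter (fun m => Q (sg k j d s b) p m) := by
        intro x hx
        rw [mem_insert, mem_singleton] at hx
        rw [mem_filter, mem_range]
        rcases hx with rfl | rfl
        · refine ⟨l1, (sg_Q k j d s b p _).2 ⟨j, hj, Or.inl ?_⟩⟩
          rw [sub_self, zero_mul, add_zero]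
          exact_mod_cast d1
        · refine ⟨l2, (sg_Q k j d s b p _).2 ⟨j, hj, Or.inr ?_⟩⟩
          rw [sub_self, zero_mul, add_zero]
          exact_mod_cast d2
      calc 2 = ({x1, x2} : Finset ℕ).card := (Finset.card_pair hne).symm
        _ ≤ _ := Finset.card_le_card hsub
  refine ⟨hVpos, ?_⟩
  intro X hX u Y hY huY
  obtain ⟨g1, g2⟩ := c1 (sg k j d s b) b hus (Nat.isCoprime_iff_coprime.1 hb1) (by
      intro p n hp hpM hQ
      rw [sg_Q] at hQ
      have hpMz : (p : ℤ) ∣ (M k : ℤ) := by exact_mod_cast hpM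
      have hpd : (p : ℤ) ∣ (d : ℤ) := by exact_mod_cast hpM.trans hd
      have hnot : ∀ z : ℤ, IsCoprime (M k : ℤ) z → ¬ (p : ℤ) ∣ z := by
        intro z hz hpz
        have h3 := Int.isUnit_iff.1 (hz.isUnit_of_dvd' hpMz hpz)
        have := hp.two_le
        omega
      obtain ⟨i, _, h | h⟩ := hQ
      · apply hnot _ hb1
        have e : (b : ℤ) = ((M k * n + b : ℕ) + ((i : ℤ) - j) * d) - (M k * n + ((i : ℤ) - j) * d) := by
          push_cast
          ring
        rw [e]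
        exact dvd_sub h (dvd_add (hpMz.mul_right _) (hpd.mul_left _))
      · apply hnot _ hb2
        have e : (b : ℤ) + s = ((M k * n + b : ℕ) + ((i : ℤ) - j) * d + s) -
            (M k * n + ((i : ℤ) - j) * d) := by
          push_cast
          ring
        rw [e]
        exact dvd_sub h (dvd_add (hpMz.mul_right _) (hpd.mul_left _)))
    ⟨⟨2 * j, by omega⟩, fun n => by
      unfold sg sy
      rw [lf_eval]
      unfold cB
      have e1 : (2 * j) / 2 = j := by omega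
      have e2 : (2 * j) % 2 = 0 := by omega
      simp only [e1, e2]
      push_cast
      ring⟩ hVle (by
      have : (b : ℝ) ≤ M k := by exact_mod_cast hbM.le
      linarith) X hX u Y hY huY
  have hOm : Om (M k) b (Q (sg k j d s b)) ⌊(N : ℝ) ^ (1 / (r : ℝ))⌋₊ u Y = P k j d s b N r u Y := by
    unfold Om P
    simp only [good_iff]
  have hW : ∀ n, Wc (Sf (Q (sg k j d s b)) ⌊(N : ℝ) ^ (1 / (r : ℝ))⌋₊) n =
      fun T => Next k j d s b N r T n := by
    intro n
    funext T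
    unfold Wc Next
    simp only [good_iff]
  have hUz : Vz ⌊(N : ℝ) ^ (1 / (r : ℝ))⌋₊ = U N r := rfl
  rw [hOm, V_eq, hUz] at g1
  refine ⟨g1, fun T hT S => ?_⟩
  have g3 := g2 T (by rw [V_eq]; exact hT) S
  rw [hOm, V_eq] at g3
  simp only [hW] at g3
  exact g3

end Pool.Agent.V11237.LP.TAP
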