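import Pool.Agent.V11237.LP.PolyPair
import Pool.Agent.Y879.GL.Linear

set_option autoImplicit false

/-!
# Primes `q` with `c q + h` and `F(q)` almost prime: their number and the law after them, uniformly
-/

namespace Pool.Agent.V11237.LP.Tri

open Polynomial Finset Filter

/-- No prime `p ≤ N ^ (1 / r)` divides `m`, `c m + h` or `F(m)`. -/
def Good (c h : ℤ) (F : ℤ[X]) (N r m : ℕ) : Prop :=
  ∀ p : ℕ, p.Prime → (p : ℝ) ≤ (N : ℝ) ^ (1 / (r : ℝ)) →
    ¬ p ∣ m ∧ ¬ (p : ℤ) ∣ c * m + h ∧ ¬ (p : ℤ) ∣ F.eval (m : ℤ)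

open Classical in
/-- The good PRIMES in `(u, u + Y]`. -/
noncomputable def P (c h : ℤ) (F : ℤ[X]) (N r u Y : ℕ) : Finset ℕ :=
  (Ioc u (u + Y)).filter (fun q => q.Prime ∧ Good c h F N r q)

open Classical in
/-- The number of the good integers in `(q, q + T]`. -/
noncomputable def Next (c h : ℤ) (F : ℤ[X]) (N r T q : ℕ) : ℕ :=
  ((Ioc q (q + T)).filter (fun m => Good c h F N r m)).card

open Classical in
/-- The density of the good integers. -/
noncomputable def V (c h : ℤ) (F : ℤ[X]) (N r : ℕ) : ℝ :=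
  ∏ p ∈ (Icc 1 ⌊(N : ℝ) ^ (1 / (r : ℝ))⌋₊).filter Nat.Prime,
    (1 - (((range p).filter (fun m : ℕ => p ∣ m ∨ (p : ℤ) ∣ c * m + h ∨ (p : ℤ) ∣ F.eval (m : ℤ))).card
      : ℝ) / p)

/-- The product of `1 - 1 / p` over the primes `p ≤ N ^ (1 / r)`. -/
noncomputable def U (N r : ℕ) : ℝ :=
  ∏ p ∈ (Icc 1 ⌊(N : ℝ) ^ (1 / (r : ℝ))⌋₊).filter Nat.Prime, (1 - 1 / (p : ℝ))

open Pool.Agent.TH464.PO Pool.Agent.TH464.PW Pool.Agent.W123.RU.Poly Pool.Agent.W123.RP
open Pool.Agent.H373R2.T7 Pool.Agent.Y879.GL Pool.Agent.Y879.PR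

/-- the system -/
noncomputable def sy (c h : ℤ) (F : ℤ[X]) : Fin 3 → ℤ[X] := ![lf 1 0, lf c h, F]

lemma sy_Q (c h : ℤ) (F : ℤ[X]) (p m : ℕ) : Q (sy c h F) p m ↔
    (p ∣ m ∨ (p : ℤ) ∣ c * m + h ∨ (p : ℤ) ∣ F.eval (m : ℤ)) := by
  have e : ∀ G : Fin 3 → Prop, (∃ i, G i) ↔ G 0 ∨ G 1 ∨ G 2 := by
    intro G
    constructor
    · rintro ⟨i, hi⟩
      fin_cases i
      · exact Or.inl hi
      · exact Or.inr (Or.inl hi)
      · exact Or.inr (Or.inr hi)
    · rintro (h | h | h)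
      exacts [⟨0, h⟩, ⟨1, h⟩, ⟨2, h⟩]
  unfold Q
  rw [e]
  change ((p : ℤ) ∣ (lf 1 0).eval (m : ℤ) ∨ (p : ℤ) ∣ (lf c h).eval (m : ℤ) ∨
    (p : ℤ) ∣ F.eval (m : ℤ)) ↔ _
  rw [lf_eval, lf_eval, one_mul, add_zero, Int.natCast_dvd_natCast]

lemma good_iff (c h : ℤ) (F : ℤ[X]) (N r m : ℕ) :
    Sf (Q (sy c h F)) ⌊(N : ℝ) ^ (1 / (r : ℝ))⌋₊ m ↔ Good c h F N r m := by
  have h0 : (0 : ℝ) ≤ (N : ℝ) ^ (1 / (r : ℝ)) := by positivity
  constructor
  · intro h p hp hpX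
    have h1 := h p (mem_pz.2 ⟨Nat.le_floor hpX, hp⟩)
    rw [sy_Q, not_or, not_or] at h1
    exact h1
  · intro h p hp
    obtain ⟨h1, h2⟩ := mem_pz.1 hp
    rw [sy_Q, not_or, not_or]
    exact h p h2 ((Nat.le_floor_iff h0).1 h1)

lemma V_eq (c h : ℤ) (F : ℤ[X]) (N r : ℕ) :
    Vq (Q (sy c h F)) ⌊(N : ℝ) ^ (1 / (r : ℝ))⌋₊ = V c h F N r := by
  classical
  unfold Vq V pz
  apply Finset.prod_congr rfl
  intro p _
  congr 3
  unfold nuB
  congr 1
  apply Finset.filter_congr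
  intro m _
  exact sy_Q c h F p m

/-- admissible triples -/
structure Adm (D : ℕ) (H U' : ℝ) (c h : ℤ) (F : ℤ[X]) : Prop where
  ne : c ≠ 0
  cop : IsCoprime c h
  leC : |(c : ℝ)| ≤ H
  leH : |(h : ℝ)| ≤ H
  far : |c| = 1 → U' < |(h : ℝ)|
  irr : Irreducible F
  two : 2 ≤ F.natDegree
  deg : F.natDegree ≤ D
  hgt : ∀ n, |((F.coeff n : ℤ) : ℝ)| ≤ H
  adm : ∀ p : ℕ, p.Prime → ∃ m : ℕ, ¬ p ∣ m ∧ ¬ (p : ℤ) ∣ c * m + h ∧ ¬ (p : ℤ) ∣ F.eval (m : ℤ)

lemma Adm.us {D : ℕ} {H U' : ℝ} {c h : ℤ} {F : ℤ[X]} (hA : Adm D H U' c h F) (hH : 1 ≤ H) :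
    US 3 D H U' (sy c h F) where
  irr i := by
    fin_cases i
    · exact lf_irr 1 0 one_ne_zero isCoprime_one_left
    · exact lf_irr c h hA.ne hA.cop
    · exact hA.irr
  deg i := by
    fin_cases i
    · change (lf 1 0).natDegree ≠ 0
      rw [lf_deg _ _ one_ne_zero]
      norm_num
    · change (lf c h).natDegree ≠ 0
      rw [lf_deg _ _ hA.ne]
      norm_num
    · change F.natDegree ≠ 0
      have := hA.two
      omega
  degD i := by
    have h2 := hA.two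
    have h3 := hA.deg
    fin_cases i
    · change (lf 1 0).natDegree ≤ D
      rw [lf_deg _ _ one_ne_zero]
      omega
    · change (lf c h).natDegree ≤ D
      rw [lf_deg _ _ hA.ne]
      omega
    · exact h3
  hgt i n := by
    fin_cases i
    · change |(((lf 1 0).coeff n : ℤ) : ℝ)| ≤ H
      rw [lf_coeff]
      split_ifs <;> simp <;> linarith
    · change |(((lf c h).coeff n : ℤ) : ℝ)| ≤ H
      rw [lf_coeff]
      split_ifs
      · exact hA.leH
      · exact hA.leC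
      · simp
        linarith
    · exact hA.hgt n
  adm p hp := by
    obtain ⟨m, hm1, hm2, hm3⟩ := hA.adm p hp
    refine ⟨m, fun i => ?_⟩
    fin_cases i
    · change ¬ (p : ℤ) ∣ (lf 1 0).eval (m : ℤ)
      rw [lf_eval, one_mul, add_zero, Int.natCast_dvd_natCast]
      exact hm1
    · change ¬ (p : ℤ) ∣ (lf c h).eval (m : ℤ)
      rw [lf_eval]
      exact hm2
    · exact hm3
  tr i j t ht htU hass := by
    have ht0 : (t : ℤ) ≠ 0 := by exact_mod_cast (by omega : t ≠ 0)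
    have ht1 : (1 : ℤ) ≤ t := by exact_mod_cast ht
    have hdeg : ∀ f g : ℤ[X], Associated f (g.comp (X + C (t : ℤ))) → f.natDegree = g.natDegree := by
      intro f g hfg
      rcases assoc_cases hfg with h1 | h1
      · rw [h1, natDegree_comp, natDegree_X_add_C, mul_one]
      · rw [h1, natDegree_neg, natDegree_comp, natDegree_X_add_C, mul_one]
    have h2 := hA.two
    have d1 := lf_deg 1 0 one_ne_zero
    have d2 := lf_deg c h hA.ne
    have hfar : ∀ s : ℤ, |s| = t → |c| = 1 → h ≠ s := by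
      intro s hs hc hh
      have h3 := hA.far hc
      rw [hh] at h3
      have : |(s : ℝ)| = t := by
        rw [← Int.cast_abs, hs]
        simp
      linarith
    have hft1 := hfar t (by simp)
    have hft2 := hfar (-t) (by simp)
    fin_cases i <;> fin_cases j
    · exact no_self (lf 1 0) (by rw [d1]; norm_num) t ht0 hass
    · rcases lf_assoc _ _ _ _ _ hass with h1 | h1
      · obtain ⟨a1, a2⟩ := h1
        have hc : |c| = 1 := by rw [← a1]; simp
        rw [← a1] at a2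
        exact hft2 hc (by linarith)
      · obtain ⟨a1, a2⟩ := h1
        have hc' : c = -1 := by linarith
        rw [hc'] at a2
        exact hft1 (by rw [hc']; simp) (by linarith)
    · have h1 : (lf 1 0).natDegree = F.natDegree := hdeg _ _ hass
      omega
    · rcases lf_assoc _ _ _ _ _ hass with h1 | h1
      · obtain ⟨a1, a2⟩ := h1
        exact hft1 (by rw [a1]; simp) (by linarith)
      · obtain ⟨a1, a2⟩ := h1
        exact hft2 (by rw [a1]; simp) (by linarith)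
    · exact no_self (lf c h) (by rw [d2]; norm_num) t ht0 hass
    · have h1 : (lf c h).natDegree = F.natDegree := hdeg _ _ hass
      omega
    · have h1 : F.natDegree = (lf 1 0).natDegree := hdeg _ _ hass
      omega
    · have h1 : F.natDegree = (lf c h).natDegree := hdeg _ _ hass
      omega
    · exact no_self F (by omega) t ht0 hass

/-- **Primes `q` with `c q + h` and `F(q)` almost prime.** -/
theorem law (D : ℕ) (E δ' θ δ : ℝ) (hE : 0 < E) (hδ' : 0 < δ') (hθ : 0 < θ) (hδ : 0 < δ)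
    (hδ1 : δ ≤ 1) (x₀ ε : ℝ) (hε : 0 < ε) (hε1 : ε ≤ 1) :
    ∃ r₀ : ℕ, 2 ≤ r₀ ∧ ∀ r : ℕ, r₀ ≤ r → ∃ N₀ : ℕ, ∀ N : ℕ, N₀ ≤ N → ∀ (c h : ℤ) (F : ℤ[X]),
      Adm D ((N : ℝ) ^ E) ((N : ℝ) ^ δ') c h F →
      0 < V c h F N r ∧
      ∀ Y' : ℕ, (N : ℝ) ^ θ ≤ Y' → ∀ u Y : ℕ, δ * Y' ≤ Y → u + Y ≤ Y' →
        |((P c h F N r u Y).card : ℝ) * Real.log Y' - Y * (V c h F N r / U N r)| ≤
          ε * (Y * (V c h F N r / U N r)) ∧
        ∀ T : ℕ, T * V c h F N r ≤ x₀ → ∀ S : Finset ℕ,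
        |(((P c h F N r u Y).filter (fun q => Next c h F N r T q ∈ S)).card : ℝ) -
          (P c h F N r u Y).card *
            ∑ j ∈ S, Real.exp (-(T * V c h F N r)) * (T * V c h F N r) ^ j / j.factorial| ≤
          ε * (P c h F N r u Y).card := by
  classical
  obtain ⟨r0, hr0, h0⟩ := prime_full 1 3 D squarefree_one E δ' θ δ hE hδ' hθ hδ
    hδ1 x₀ ε hε hε1
  refine ⟨r0, hr0, ?_⟩
  intro r hr
  obtain ⟨M, hM, hVu⟩ := V_up_base 1 one_pos r (hr0.trans hr)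
  obtain ⟨N0, hN0⟩ := eventually_atTop.1 ((h0 r hr M).and (hVu.and (eventually_ge_atTop 2)))
  refine ⟨N0, ?_⟩
  intro N hN c h F hF
  obtain ⟨c1, c2, c3⟩ := hN0 N hN
  have hN1 : (1 : ℝ) ≤ N := by exact_mod_cast (by omega : 1 ≤ N)
  have hus := hF.us (Real.one_le_rpow hN1 hE.le)
  refine ⟨?_, ?_⟩
  · rw [← V_eq]
    unfold Vq
    apply Finset.prod_pos
    intro p hp
    have hpp : p.Prime := (mem_pz.1 hp).2
    have h1 := us_adm hus p hpp
    have h2 : (0 : ℝ) < p := by exact_mod_cast hpp.pos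
    rw [sub_pos, div_lt_one h2]
    exact_mod_cast h1
  · intro Y' hX u Y hY huY
    have hVle : Vq (Q (sy c h F)) ⌊(N : ℝ) ^ (1 / (r : ℝ))⌋₊ ≤ M / Real.log N := by
      apply c2
      intro p hp _
      unfold nuB
      rw [Nat.one_le_iff_ne_zero, ← Nat.pos_iff_ne_zero, Finset.card_pos]
      exact ⟨0, mem_filter.2 ⟨mem_range.2 hp.pos, (sy_Q c h F p 0).2 (Or.inl (dvd_zero _))⟩⟩
    obtain ⟨g1, g2⟩ := c1 (sy c h F) 0 hus (by norm_num)
      (fun p n hp hp1 => by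
        have := hp.one_lt
        have := Nat.le_of_dvd one_pos hp1
        omega)
      ⟨0, fun n => by
        change (lf 1 0).eval (n : ℤ) = _
        rw [lf_eval]
        simp⟩ hVle (by
        rw [Nat.cast_zero]
        positivity) Y' hX u Y hY huY
    have hOm : Om 1 0 (Q (sy c h F)) ⌊(N : ℝ) ^ (1 / (r : ℝ))⌋₊ u Y = P c h F N r u Y := by
      unfold Om P
      simp only [good_iff, one_mul, add_zero]
    have hW : ∀ n, Wc (Sf (Q (sy c h F))  ⌊(N : ℝ) ^ (1 / (r : ℝ))⌋₊) n = fun T => Next c h F N r T n := by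
      intro n
      funext T
      unfold Wc Next
      simp only [good_iff]
    have hUz : Vz ⌊(N : ℝ) ^ (1 / (r : ℝ))⌋₊ = U N r := rfl
    rw [hOm, V_eq, hUz] at g1
    refine ⟨g1, fun T hT S => ?_⟩
    have g3 := g2 T (by rw [V_eq]; exact hT) S
    rw [hOm, V_eq] at g3
    simp only [hW] at g3
    exact g3

end Pool.Agent.V11237.LP.Tri
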