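import Pool.Agent.V11237.LP.Gap

set_option autoImplicit false

/-!
# Linear systems with large coefficients: the laws of the gaps and the law after primes, uniformly
-/

namespace Pool.Agent.V11237.LP

open Finset Filter

variable {k : ℕ}

open Pool.Agent.TH464.PO Pool.Agent.TH464.PW Pool.Agent.W123.RU.Poly Pool.Agent.W123.RP
open Pool.Agent.H373R2.T7 Pool.Agent.Y879.GL Pool.Agent.Y879.PR

/-- two non-proportional forms have different roots modulo most primes -/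
lemma two_cl (A B : Fin k → ℤ) (i j : Fin k) (hi : 0 < A i) (hj : 0 < A j)
    (hR : A i * B j - A j * B i ≠ 0) :
    1 ≤ (A i * A j * (A i * B j - A j * B i)).natAbs ∧
    ∀ p : ℕ, p.Prime → ¬ p ∣ (A i * A j * (A i * B j - A j * B i)).natAbs → 2 ≤ nu A B p := by
  classical
  refine ⟨?_, ?_⟩
  · exact Nat.one_le_iff_ne_zero.2 (by
      rw [Ne, Int.natAbs_eq_zero]
      exact mul_ne_zero (mul_ne_zero hi.ne' hj.ne') hR)
  · intro p hp hpD
    have hpD' : ¬ (p : ℤ) ∣ A i * A j * (A i * B j - A j * B i) := fun h => hpD (Int.natCast_dvd.1 h)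
    have hpi : Prime (p : ℤ) := Nat.prime_iff_prime_int.1 hp
    have h1 : ¬ (p : ℤ) ∣ A i := fun h => hpD' ((h.mul_right _).mul_right _)
    have h2 : ¬ (p : ℤ) ∣ A j := fun h => hpD' ((h.mul_left _).mul_right _)
    have h3 : ¬ (p : ℤ) ∣ A i * B j - A j * B i := fun h => hpD' (h.mul_left _)
    have root : ∀ s : Fin k, ¬ (p : ℤ) ∣ A s → ∃ c ∈ Finset.range p, (p : ℤ) ∣ A s * (c : ℕ) + B s := by
      intro s hs
      obtain ⟨x, y, hxy⟩ := (hpi.coprime_iff_not_dvd.2 hs).symm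
      have hp0 : (p : ℤ) ≠ 0 := by exact_mod_cast hp.ne_zero
      have hppos : (0 : ℤ) < p := by exact_mod_cast hp.pos
      refine ⟨((-(x * B s)) % (p : ℤ)).toNat, ?_, ?_⟩
      · rw [Finset.mem_range]
        have e1 := Int.emod_lt_of_pos (-(x * B s)) hppos
        have e2 := Int.emod_nonneg (-(x * B s)) hp0
        omega
      · rw [Int.toNat_of_nonneg (Int.emod_nonneg _ hp0)]
        have e3 := Int.emod_add_mul_ediv (-(x * B s)) (p : ℤ)
        refine ⟨-(A s * ((-(x * B s)) / (p : ℤ))) + y * B s, ?_⟩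
        have e4 : (-(x * B s)) % (p : ℤ) = -(x * B s) - p * ((-(x * B s)) / (p : ℤ)) := by linarith
        rw [e4]
        linear_combination (-(B s)) * hxy
    obtain ⟨c, hc, hcd⟩ := root i h1
    obtain ⟨c', hc', hcd'⟩ := root j h2
    have hne : c ≠ c' := by
      rintro rfl
      apply h3
      have e1 := (hcd.mul_left (A j))
      have e2 := (hcd'.mul_left (A i))
      have e3 := dvd_sub e2 e1
      have e4 : A i * (A j * (c : ℤ) + B j) - A j * (A i * (c : ℤ) + B i) =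
          A i * B j - A j * B i := by ring
      rwa [e4] at e3
    unfold nu
    calc 2 = ({c, c'} : Finset ℕ).card := (card_pair hne).symm
      _ ≤ _ := by
        apply card_le_card
        intro x hx
        rw [mem_insert, mem_singleton] at hx
        rw [mem_filter]
        rcases hx with rfl | rfl
        · exact ⟨hc, i, hcd⟩
        · exact ⟨hc', j, hcd'⟩

/-- admissible systems with coefficients up to `H`: positive coprime coefficients, different forms which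
are not translates of each other, no fixed prime divisor -/
structure Adm (A B : Fin k → ℤ) (H : ℝ) : Prop where
  pos : ∀ i, 0 < A i
  leA : ∀ i, (A i : ℝ) ≤ H
  leB : ∀ i, |(B i : ℝ)| ≤ H
  cop : ∀ i, IsCoprime (A i) (B i)
  ne : ∀ i j, i ≠ j → A i = A j → B i ≠ B j
  tr : ∀ i j, A i = A j → ∀ t : ℤ, t ≠ 0 → B i ≠ B j + A j * t
  adm : ∀ p : ℕ, p.Prime → ∃ m : ℕ, ∀ i, ¬ (p : ℤ) ∣ A i * m + B i

lemma Adm.us {A B : Fin k → ℤ} {H U : ℝ} (h : Adm A B H) : US k 1 H U (sy A B) := by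
  apply us_lf
  · exact fun i => (h.pos i).ne'
  · exact h.cop
  · intro i
    have : (0 : ℝ) < A i := by exact_mod_cast h.pos i
    rw [abs_of_pos this]
    exact h.leA i
  · exact h.leB
  · exact h.adm
  · intro i j t ht _
    refine ⟨fun h1 => ?_, fun h1 => ?_⟩
    · exact h.tr i j h1.1 t (by exact_mod_cast (by omega : t ≠ 0)) h1.2
    · have h2 := h1.1
      have := h.pos i
      have := h.pos j
      linarith

lemma Adm.res {A B : Fin k → ℤ} {H : ℝ} (h : Adm A B H) (i j : Fin k) (hij : i ≠ j) :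
    A i * B j - A j * B i ≠ 0 := by
  intro h0
  have h1 : A i * B j = A j * B i := by linarith
  have h2 : A i ∣ A j := (h.cop i).dvd_of_dvd_mul_right (Dvd.intro _ h1)
  have h3 : A j ∣ A i := (h.cop j).dvd_of_dvd_mul_right (Dvd.intro _ h1.symm)
  have h4 := Int.dvd_antisymm (h.pos i).le (h.pos j).le h2 h3
  rw [h4] at h1
  have h5 := mul_left_cancel₀ (h.pos j).ne' h1
  exact h.ne i j hij h4 h5.symm

lemma Adm.Dle {A B : Fin k → ℤ} {N : ℕ} {E : ℝ} (h : Adm A B ((N : ℝ) ^ E)) (hE : 0 < E)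
    (hN : 2 ≤ N) (i j : Fin k) :
    (((A i * A j * (A i * B j - A j * B i)).natAbs : ℕ) : ℝ) ≤ (N : ℝ) ^ (4 * E + 1) := by
  have hN0 : (0 : ℝ) < N := by exact_mod_cast (by omega : 0 < N)
  have hN2 : (2 : ℝ) ≤ N := by exact_mod_cast hN
  have hAi : (0 : ℝ) < A i := by exact_mod_cast h.pos i
  have hAj : (0 : ℝ) < A j := by exact_mod_cast h.pos j
  have hP : 0 ≤ (N : ℝ) ^ E := by positivity
  have e : (((A i * A j * (A i * B j - A j * B i)).natAbs : ℕ) : ℝ) =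
      (A i : ℝ) * A j * |(A i : ℝ) * B j - A j * B i| := by
    rw [Nat.cast_natAbs]
    push_cast
    rw [abs_mul, abs_mul, abs_of_pos hAi, abs_of_pos hAj]
  have e2 : |(A i : ℝ) * B j - A j * B i| ≤ 2 * ((N : ℝ) ^ E * (N : ℝ) ^ E) := by
    calc |(A i : ℝ) * B j - A j * B i| ≤ |(A i : ℝ) * B j| + |(A j : ℝ) * B i| := abs_sub _ _
      _ = A i * |(B j : ℝ)| + A j * |(B i : ℝ)| := by
        rw [abs_mul, abs_mul, abs_of_pos hAi, abs_of_pos hAj]
      _ ≤ (N : ℝ) ^ E * (N : ℝ) ^ E + (N : ℝ) ^ E * (N : ℝ) ^ E :=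
        add_le_add (mul_le_mul (h.leA i) (h.leB j) (abs_nonneg _) hP)
          (mul_le_mul (h.leA j) (h.leB i) (abs_nonneg _) hP)
      _ = _ := by ring
  rw [e]
  calc (A i : ℝ) * A j * |(A i : ℝ) * B j - A j * B i|
      ≤ (N : ℝ) ^ E * (N : ℝ) ^ E * (2 * ((N : ℝ) ^ E * (N : ℝ) ^ E)) := by
        apply mul_le_mul _ e2 (abs_nonneg _) (by positivity)
        exact mul_le_mul (h.leA i) (h.leA j) hAj.le hP
    _ ≤ (N : ℝ) ^ E * (N : ℝ) ^ E * (N * ((N : ℝ) ^ E * (N : ℝ) ^ E)) := by gcongr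
    _ = (N : ℝ) ^ (4 * E + 1) := by
      rw [show (4 * E + 1 : ℝ) = E + E + (1 + (E + E)) by ring, Real.rpow_add hN0, Real.rpow_add hN0,
        Real.rpow_add hN0 1, Real.rpow_add hN0, Real.rpow_one]

lemma Adm.Vpos {A B : Fin k → ℤ} {H : ℝ} (h : Adm A B H) (N r : ℕ) : 0 < V A B N r := by
  rw [← V_eq]
  unfold Vq
  apply Finset.prod_pos
  intro p hp
  have hpp : p.Prime := (mem_pz.1 hp).2
  have h1 := us_adm (h.us (U := 1)) p hpp
  have h2 : (0 : ℝ) < p := by exact_mod_cast hpp.pos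
  rw [sub_pos, div_lt_one h2]
  exact_mod_cast h1

/-- **The gap laws, uniformly in the system.** -/
theorem gap_unif (hk : 2 ≤ k) (E θ : ℝ) (hE : 0 < E) (hθ : 0 < θ) (l₀ : ℕ) (x₀ ε : ℝ) (hε : 0 < ε) :
    ∃ r₀ : ℕ, 2 ≤ r₀ ∧ ∀ r : ℕ, r₀ ≤ r → ∃ N₀ : ℕ, ∀ N : ℕ, N₀ ≤ N → ∀ A B : Fin k → ℤ,
      Adm A B ((N : ℝ) ^ E) → ∀ u Y : ℕ, (N : ℝ) ^ θ ≤ Y →
      ∀ l T : ℕ, (l ≤ l₀ ∨ T * V A B N r ≤ x₀) →
        |(G A B N r l T u Y : ℝ) - Y * V A B N r *
          ∑ j ∈ range l, Real.exp (-(T * V A B N r)) * (T * V A B N r) ^ j / j.factorial| ≤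
        ε * (Y * V A B N r) := by
  classical
  obtain ⟨r0, h0⟩ := gap_polys k 1 E 1 θ hE one_pos hθ l₀ x₀ ε hε
  refine ⟨max r0 2, le_max_right _ _, ?_⟩
  intro r hr
  obtain ⟨M, hM, hV2⟩ := V2_up (4 * E + 1) (by positivity) r ((le_max_right _ _).trans hr)
  have hall := (h0 r ((le_max_left _ _).trans hr) M).and (hV2.and (eventually_ge_atTop 2))
  obtain ⟨N0, hN0⟩ := eventually_atTop.1 hall
  refine ⟨N0, ?_⟩
  intro N hN A B hA u Y hY l T hlT
  obtain ⟨c1, c2, c3⟩ := hN0 N hN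
  have hij : (⟨0, by omega⟩ : Fin k) ≠ ⟨1, by omega⟩ := by
    intro h
    simp at h
  obtain ⟨d1, d2⟩ := two_cl A B ⟨0, by omega⟩ ⟨1, by omega⟩ (hA.pos _) (hA.pos _) (hA.res _ _ hij)
  have hVle : Vq (Q (sy A B)) ⌊(N : ℝ) ^ (1 / (r : ℝ))⌋₊ ≤ M / Real.log N := by
    apply c2 (Q (sy A B)) _ (fun p hp => us_adm (hA.us (U := 1)) p hp) d1 (hA.Dle hE c3 _ _)
    intro p hp hpD
    rw [nu_eq]
    exact d2 p hp hpD
  have h := c1 (sy A B) hA.us hVle u Y hY l T (by rw [V_eq]; exact hlT)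
  rw [V_eq] at h
  have hG : Pk (Sf (Q (sy A B)) ⌊(N : ℝ) ^ (1 / (r : ℝ))⌋₊) l T u Y = G A B N r l T u Y := by
    unfold Pk G
    simp only [good_iff]
  rw [hG] at h
  exact h

/-- **The law after primes, uniformly in the system.** One of the forms is `a m + b` with a fixed
squarefree `a`. -/
theorem law_unif (a : ℕ) (ha : Squarefree a) (hk : 2 ≤ k) (E θ δ : ℝ) (hE : 0 < E) (hθ : 0 < θ)
    (hδ : 0 < δ) (hδ1 : δ ≤ 1) (x₀ ε : ℝ) (hε : 0 < ε) (hε1 : ε ≤ 1) :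
    ∃ r₀ : ℕ, 2 ≤ r₀ ∧ ∀ r : ℕ, r₀ ≤ r → ∃ N₀ : ℕ, ∀ N : ℕ, N₀ ≤ N → ∀ A B : Fin k → ℤ,
      Adm A B ((N : ℝ) ^ E) → ∀ b : ℕ, (∃ i, A i = a ∧ B i = b) → (∀ i, (a : ℤ) ∣ A i) →
      (b : ℝ) ≤ (N : ℝ) ^ (θ / 4) →
      ∀ X : ℕ, (N : ℝ) ^ θ ≤ X → ∀ u Y : ℕ, δ * X ≤ Y → u + Y ≤ X →
        |((P A B a b N r u Y).card : ℝ) * Real.log X - Y * (V A B N r / U N r)| ≤
          ε * (Y * (V A B N r / U N r)) ∧
        ∀ T : ℕ, T * V A B N r ≤ x₀ → ∀ S : Finset ℕ,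
        |(((P A B a b N r u Y).filter (fun m => Next A B N r T m ∈ S)).card : ℝ) -
          (P A B a b N r u Y).card *
            ∑ j ∈ S, Real.exp (-(T * V A B N r)) * (T * V A B N r) ^ j / j.factorial| ≤
          ε * (P A B a b N r u Y).card := by
  classical
  obtain ⟨r0, hr0, h0⟩ := prime_full a k 1 ha E 1 θ δ hE one_pos hθ hδ hδ1 x₀ ε hε hε1
  refine ⟨r0, hr0, ?_⟩
  intro r hr
  obtain ⟨M, hM, hV2⟩ := V2_up (4 * E + 1) (by positivity) r (hr0.trans hr)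
  have hall := (h0 r hr M).and (hV2.and (eventually_ge_atTop 2))
  obtain ⟨N0, hN0⟩ := eventually_atTop.1 hall
  refine ⟨N0, ?_⟩
  intro N hN A B hA b hbase hdvd hb X hX u Y hY huY
  obtain ⟨c1, c2, c3⟩ := hN0 N hN
  obtain ⟨i0, hi0a, hi0b⟩ := hbase
  have hab : Nat.Coprime a b := by
    have h1 := hA.cop i0
    rw [hi0a, hi0b] at h1
    exact Nat.isCoprime_iff_coprime.1 h1
  have hij : (⟨0, by omega⟩ : Fin k) ≠ ⟨1, by omega⟩ := by
    intro h
    simp at h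
  obtain ⟨d1, d2⟩ := two_cl A B ⟨0, by omega⟩ ⟨1, by omega⟩ (hA.pos _) (hA.pos _) (hA.res _ _ hij)
  have hVle : Vq (Q (sy A B)) ⌊(N : ℝ) ^ (1 / (r : ℝ))⌋₊ ≤ M / Real.log N := by
    apply c2 (Q (sy A B)) _ (fun p hp => us_adm (hA.us (U := 1)) p hp) d1 (hA.Dle hE c3 _ _)
    intro p hp hpD
    rw [nu_eq]
    exact d2 p hp hpD
  obtain ⟨g1, g2⟩ := c1 (sy A B) b hA.us hab (by
      intro p n hp hpa hq
      obtain ⟨i, hi⟩ := (sy_Q A B p n).1 hq
      have h1 : (p : ℤ) ∣ A i := (Int.natCast_dvd_natCast.2 hpa).trans (hdvd i)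
      have h2 : (p : ℤ) ∣ B i := by
        have := dvd_sub hi (h1.mul_right (n : ℤ))
        simpa using this
      exact (Nat.prime_iff_prime_int.1 hp).not_isUnit ((hA.cop i).isUnit_of_dvd' h1 h2))
    ⟨i0, fun n => by
      unfold sy
      rw [lf_eval, hi0a, hi0b]⟩ hVle hb X hX u Y hY huY
  have hOm : Om a b (Q (sy A B)) ⌊(N : ℝ) ^ (1 / (r : ℝ))⌋₊ u Y = P A B a b N r u Y := by
    unfold Om P
    simp only [good_iff]
  have hW : ∀ n, Wc (Sf (Q (sy A B)) ⌊(N : ℝ) ^ (1 / (r : ℝ))⌋₊) n = fun T => Next A B N r T n := by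
    intro n
    funext T
    unfold Wc Next
    simp only [good_iff]
  rw [hOm, V_eq, U_eq] at g1
  refine ⟨g1, fun T hT S => ?_⟩
  have g3 := g2 T (by rw [V_eq]; exact hT) S
  rw [hOm, V_eq] at g3
  simp only [hW] at g3
  exact g3

end Pool.Agent.V11237.LP
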